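import Pool.Agent.H48.PR.Defs
import Pool.Agent.H48.PD.Trn

/-!
# Module Gal: translation in `v`, Galilean shifts

* `boltzQ_trn`: `boltzCut γ b ε (fun u => g (u+η)) v = boltzCut γ b ε g (v+η)` for all `ε`: the substitution `w → w + η` in the outer integral (`integral_add_right_eq_self`), with `kerB γ b ε (v+η) (w+η) σ = kerB γ b ε v w σ`,
  `post (v+η) (w+η) σ = post v w σ + η`, `post'` the same. Then `limUnder` of equal functions.
* `FB_trn`: `Nice` is invariant under translation (`ContDiff.comp`, `fderiv_comp_add_right`, `RD` of translates); `(1+‖v‖) ≤ (1+‖v+η‖)(1+‖η‖) ≤ 2(1+‖v+η‖)`, `‖η‖ ≤ len η ≤ 1` (`norm_le_len`).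
* `gal_deriv`: with `y = x+ξ+t₀η`, `w = v+η`: `x + τv + ξ + (t₀+τ)η = y + τ w`, `char_deriv` (H82/BK/Touch) at `(y,w)` and at `(x,v)`, difference; `boltzQ_trn`.
-/

set_option autoImplicit false

open MeasureTheory Set Filter Topology Pool.Agent.H25.Kin Pool.Agent.H48.PL Pool.Agent.H48.PD
open Pool.Agent.H82.BK

namespace Pool.Agent.H48.PR

variable {d : ℕ} {γ T : ℝ} {b : ℝ → ℝ} {f : ℝ → Vec d → Vec d → ℝ}

private lemma gal_w {η : Vec d} (hη : len η ≤ 1) (N : ℕ) (v : Vec d) :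
    (1 + ‖v‖) ^ N ≤ 2 ^ N * (1 + ‖v + η‖) ^ N := by
  rw [← mul_pow]
  refine pow_le_pow_left₀ (by positivity) ?_ N
  have h1 : ‖η‖ ≤ 1 := (norm_le_len η).trans hη
  have h2 : ‖v‖ ≤ ‖v + η‖ + ‖η‖ := by
    have := norm_sub_le (v + η) η
    rwa [add_sub_cancel_right] at this
  have h3 := norm_nonneg (v + η)
  linarith

private lemma gal_RD {E : Type*} [NormedAddCommGroup E] {h : Vec d → E} (hh : RD h) {η : Vec d}
    (hη : len η ≤ 1) : RD fun v => h (v + η) := by
  intro N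
  obtain ⟨C, hC⟩ := hh N
  refine ⟨2 ^ N * C, fun v => ?_⟩
  calc (1 + ‖v‖) ^ N * ‖h (v + η)‖ ≤ 2 ^ N * (1 + ‖v + η‖) ^ N * ‖h (v + η)‖ :=
        mul_le_mul_of_nonneg_right (gal_w hη N v) (norm_nonneg _)
    _ = 2 ^ N * ((1 + ‖v + η‖) ^ N * ‖h (v + η)‖) := by ring
    _ ≤ 2 ^ N * C := mul_le_mul_of_nonneg_left (hC _) (by positivity)

theorem boltzQ_trn (γ : ℝ) (b : ℝ → ℝ) (g : Vec d → ℝ) (η v : Vec d) :
    boltzQ γ b (fun u => g (u + η)) v = boltzQ γ b g (v + η) := by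
  have key : ∀ ε, boltzCut γ b ε (fun u => g (u + η)) v = boltzCut γ b ε g (v + η) := by
    intro ε
    unfold boltzCut
    rw [← integral_add_right_eq_self (fun w : Vec d => ∫ σ : Vec d,
      kerB γ b ε (v + η) w σ * (g (post' (v + η) w σ) * g (post (v + η) w σ) - g w * g (v + η))
        ∂(surf d)) η]
    refine integral_congr_ae (Eventually.of_forall fun w => ?_)
    refine integral_congr_ae (Eventually.of_forall fun σ => ?_)
    have e0 : v + η - (w + η) = v - w := add_sub_add_right_eq_sub v w η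
    have e1 : kerB γ b ε (v + η) (w + η) σ = kerB γ b ε v w σ := by
      unfold kerB cosTh
      rw [e0]
    have e2 : post (v + η) (w + η) σ = post v w σ + η := by
      unfold post
      rw [e0]
      module
    have e3 : post' (v + η) (w + η) σ = post' v w σ + η := by
      unfold post'
      rw [e0]
      module
    simp only [e1, e2, e3]
  unfold boltzQ
  exact congrArg _ (funext key)

theorem FB_trn {Cl : ℕ → ℝ} {g : Vec d → ℝ} (hg : FB Cl g) {η : Vec d} (hη : len η ≤ 1) :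
    FB (fun N => 2 ^ N * Cl N) (fun u => g (u + η)) := by
  have e1 : fderiv ℝ (fun u => g (u + η)) = fun u => fderiv ℝ g (u + η) := by
    funext u
    rw [fderiv_comp_add_right]
  have e2 : fderiv ℝ (fderiv ℝ (fun u => g (u + η))) = fun u => fderiv ℝ (fderiv ℝ g) (u + η) := by
    rw [e1]
    funext u
    rw [fderiv_comp_add_right]
  refine ⟨⟨?_, ?_, ?_, ?_⟩, fun v => hg.nonneg _, fun N v => ?_⟩
  · exact hg.nice.smooth.comp (contDiff_id.add contDiff_const)
  · exact gal_RD hg.nice.rd hη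
  · rw [e1]
    exact gal_RD hg.nice.rd1 hη
  · rw [e2]
    exact gal_RD hg.nice.rd2 hη
  · calc (1 + ‖v‖) ^ N * g (v + η) ≤ 2 ^ N * (1 + ‖v + η‖) ^ N * g (v + η) :=
          mul_le_mul_of_nonneg_right (gal_w hη N v) (hg.nonneg _)
      _ = 2 ^ N * ((1 + ‖v + η‖) ^ N * g (v + η)) := by ring
      _ ≤ 2 ^ N * Cl N := mul_le_mul_of_nonneg_left (hg.le N _) (by positivity)

theorem gal_deriv (hf : IsBoltzmannSol γ b T f) {t₀ : ℝ} (ht : t₀ ∈ Ioo 0 T) (x v ξ η : Vec d) :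
    HasDerivAt (fun τ : ℝ => Ph f (t₀ + τ) (x + τ • v) v ξ η)
      (boltzQ γ b (fun u => f t₀ (x + ξ + t₀ • η) (u + η)) v - boltzQ γ b (f t₀ x) v) 0 := by
  rw [boltzQ_trn γ b (f t₀ (x + ξ + t₀ • η)) η v]
  have h1 := char_deriv hf ht (x + ξ + t₀ • η) (v + η)
  have h2 := char_deriv hf ht x v
  have h3 := h1.sub h2
  refine h3.congr_of_eventuallyEq (Eventually.of_forall fun τ => ?_)
  have e : x + τ • v + ξ + (t₀ + τ) • η = x + ξ + t₀ • η + τ • (v + η) := by module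
  show Ph f (t₀ + τ) (x + τ • v) v ξ η = _
  unfold Ph
  rw [e]
  rfl

end Pool.Agent.H48.PR
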