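import Pool.Agent.H48.PR.DatF
import Pool.Agent.H48.PV.RegU

/-!
# Final theorem: all plane symmetric solutions and data
-/

set_option autoImplicit false

open MeasureTheory Set Filter Topology Pool.Agent.H25.Kin Pool.Agent.H48.PL Pool.Agent.H48.PI Pool.Agent.H25.PN
open Pool.Agent.H93.CM Pool.Agent.H82.CM

namespace Pool.Agent.H48.PR

variable {d : ℕ}

theorem sym_all {s γ : ℝ} (hd : 2 ≤ d) (hs : 0 < s) (h1 : 1 < γ) (h2 : γ + 2 * s < 2) {b : ℝ → ℝ}
    (hb : IsKernel d s b) {ν : Vec d} {T : ℝ} {f : ℝ → Vec d → Vec d → ℝ} (hf : IsBoltzmannSol γ b T f)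
    (h : PlaneSym ν T f ∨ PlaneData s ν (f 0)) : PlaneSym ν T f := by
  rcases h with h | h
  · exact h
  · obtain ⟨C, Ca, cb, HL⟩ := exists_hypL hd hs (by linarith) (by linarith : 0 ≤ γ + 2 * s) h2.le hb
    exact sym_of_hol HL (by linarith) (by linarith) hf h

/-- **all plane symmetric solutions and data, all very hard potentials** -/
theorem est_hol {s γ : ℝ} (hd : 2 ≤ d) (hs : 0 < s) (h1 : 1 < γ) (h2 : γ + 2 * s < 2)
    (h3 : 3 ≤ d ∨ 1 + 2 * s < γ) {b : ℝ → ℝ} (hb : IsKernel d s b) {ν : Vec d} (hν : ν ≠ 0) :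
    Est d γ b fun T f => PlaneSym ν T f ∨ PlaneData s ν (f 0) :=
  (Pool.Agent.H48.PV.est_full hd hs h1 h2 h3 hb hν).mono fun _ _ hf h => sym_all hd hs h1 h2 hb hf h

end Pool.Agent.H48.PR
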