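import Pool.Agent.H48.PR.Defs

/-!
# Module UCon: uniform continuity in the mean

The integrand is `≤ f t (..) (v+η) + f t x v ≤ C wt(v)` uniformly (`decay`, `len η ≤ 1`, `1+‖v‖ ≤ 2(1+‖v+η‖)`); the part `‖v‖ > R` is `≤ ε₁/2` for `R` large; on `‖v‖ ≤ R`: `unc f` is uniformly continuous on `[0,T₁] × [-3,3]^d × closedBall (R+1)` (compact,
`Icc 0 T₁ ⊂ Ico 0 T`; `‖ξ + t η‖ ≤ r₀ (1+T₁)`, choose `r₀ (1+T₁) ≤ 1`), `x` reduced to the unit cube by periodicity (`Per`, as in H82/BK/Touch `touch_per`, private, can be copied).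
-/

set_option autoImplicit false

open MeasureTheory Set Filter Topology Pool.Agent.H25.Kin Pool.Agent.H48.PL Pool.Agent.H48.PD

namespace Pool.Agent.H48.PR

variable {d : ℕ} {T : ℝ} {Q f : ℝ → Vec d → Vec d → ℝ}

/-- reduction of the position to the unit cube -/
private lemma ucon_per {F : Vec d → ℝ} (hF : Per F) (x : Vec d) :
    ∃ y ∈ Icc (0 : Vec d) 1, F y = F x := by
  refine ⟨fun i => Int.fract (x i), ⟨fun i => Int.fract_nonneg _, fun i => (Int.fract_lt_one _).le⟩, ?_⟩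
  have hl : (fun i => (-(⌊x i⌋ : ℤ) : ℝ)) ∈
      Submodule.span ℤ (Set.range (Pi.basisFun ℝ (Fin d))) := by
    have e : (fun i => (-(⌊x i⌋ : ℤ) : ℝ)) = ∑ i, (-⌊x i⌋ : ℤ) • (Pi.basisFun ℝ (Fin d) i) := by
      funext j
      rw [Finset.sum_apply]
      simp only [Pi.basisFun_apply, Pi.smul_apply, Pi.single_apply]
      rw [Finset.sum_eq_single j]
      · simp
      · intro b _ hb
        simp [Ne.symm hb]
      · intro h
        exact absurd (Finset.mem_univ _) h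
    rw [e]
    exact Submodule.sum_mem _ fun i _ => Submodule.smul_mem _ _
      (Submodule.subset_span (Set.mem_range_self i))
  have h := hF.span hl x
  have e2 : (fun i => (-(⌊x i⌋ : ℤ) : ℝ)) + x = fun i => Int.fract (x i) := by
    funext i
    simp only [Pi.add_apply, Int.fract]
    ring
  rw [e2] at h
  exact h

private lemma ucon_norm_le {z : Vec d} {r : ℝ} (hr : 0 ≤ r) (h : nsq z ≤ r ^ 2) : ‖z‖ ≤ r := by
  refine (norm_le_len z).trans ?_
  have h1 := len_sq z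
  exact abs_le_of_sq_le_sq' (by rw [h1]; exact h) hr |>.2

/-- the decay of the difference, uniformly in the shift -/
private lemma ucon_decay (hf : IsClassicalSol T Q f) {T₁ : ℝ} (h1 : T₁ < T) :
    ∃ C : ℝ, 0 ≤ C ∧ ∀ t ∈ Icc 0 T₁, ∀ x y v η : Vec d, ‖η‖ ≤ 1 →
      |f t y (v + η) - f t x v| ≤ C * ((1 + ‖v‖) ^ (d + 2))⁻¹ := by
  obtain ⟨C, hC⟩ := hf.decay T₁ h1 (d + 2)
  refine ⟨2 ^ (d + 2) * max C 0, by positivity, fun t ht x y v η hη => ?_⟩
  have ht' : t ∈ Ico 0 T := ⟨ht.1, ht.2.trans_lt h1⟩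
  have hv := norm_nonneg v
  have hvη := norm_nonneg (v + η)
  have hp : 0 < (1 + ‖v‖) ^ (d + 2) := by positivity
  have hCm : C ≤ max C 0 := le_max_left _ _
  have hC0 : 0 ≤ max C 0 := le_max_right _ _
  have h2 : (1 : ℝ) ≤ 2 ^ (d + 2) := one_le_pow₀ (by norm_num)
  have hb : (1 + ‖v‖) ^ (d + 2) ≤ 2 ^ (d + 2) * (1 + ‖v + η‖) ^ (d + 2) := by
    rw [← mul_pow]
    refine pow_le_pow_left₀ (by positivity) ?_ _
    have h3 : ‖v‖ ≤ ‖v + η‖ + ‖η‖ := by
      have h4 := norm_sub_le (v + η) η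
      rwa [add_sub_cancel_right] at h4
    linarith
  refine abs_sub_le_of_nonneg_of_le (hf.nonneg t ht' _ _) ?_ (hf.nonneg t ht' _ _) ?_
  · rw [← div_eq_mul_inv, le_div_iff₀ hp]
    calc f t y (v + η) * (1 + ‖v‖) ^ (d + 2)
        ≤ f t y (v + η) * (2 ^ (d + 2) * (1 + ‖v + η‖) ^ (d + 2)) :=
          mul_le_mul_of_nonneg_left hb (hf.nonneg t ht' _ _)
      _ = 2 ^ (d + 2) * ((1 + ‖v + η‖) ^ (d + 2) * f t y (v + η)) := by ring
      _ ≤ 2 ^ (d + 2) * max C 0 :=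
          mul_le_mul_of_nonneg_left ((hC t ht y (v + η)).trans hCm) (by positivity)
  · rw [← div_eq_mul_inv, le_div_iff₀ hp]
    calc f t x v * (1 + ‖v‖) ^ (d + 2) = (1 + ‖v‖) ^ (d + 2) * f t x v := mul_comm _ _
      _ ≤ max C 0 := (hC t ht x v).trans hCm
      _ ≤ 2 ^ (d + 2) * max C 0 := le_mul_of_one_le_left hC0 h2

theorem ucon (hf : IsClassicalSol T Q f) {T₁ : ℝ} (h0 : 0 ≤ T₁) (h1 : T₁ < T) {ε₁ : ℝ}
    (hε : 0 < ε₁) : ∃ r₀ : ℝ, 0 < r₀ ∧ r₀ ≤ 1 / 2 ∧ ∀ t ∈ Icc 0 T₁, ∀ x ξ η : Vec d,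
      nsq ξ + nsq η ≤ r₀ ^ 2 → ∫ v, |f t (x + ξ + t • η) (v + η) - f t x v| ≤ ε₁ := by
  obtain ⟨C, hC0, hC⟩ := ucon_decay hf h1
  have hI0 : 0 ≤ ∫ v, wt d v := integral_nonneg wt_nonneg
  obtain ⟨κ, hκ⟩ : ∃ κ : ℝ, κ = ε₁ / (1 + ∫ v, wt d v) := ⟨_, rfl⟩
  have hκ0 : 0 < κ := by rw [hκ]; positivity
  have hκI : κ * ∫ v, wt d v ≤ ε₁ := by
    rw [hκ, div_mul_eq_mul_div, div_le_iff₀ (by positivity)]
    nlinarith
  obtain ⟨R, hR⟩ : ∃ R : ℝ, R = C / κ := ⟨_, rfl⟩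
  have hR0 : 0 ≤ R := by rw [hR]; positivity
  have hRκ : C = κ * R := by rw [hR]; field_simp
  obtain ⟨δ, hδ⟩ : ∃ δ : ℝ, δ = κ * ((1 + R) ^ (d + 1))⁻¹ := ⟨_, rfl⟩
  have hδ0 : 0 < δ := by rw [hδ]; positivity
  -- uniform continuity
  have hKc : IsCompact (Icc (0 : ℝ) T₁ ×ˢ (Metric.closedBall (0 : Vec d) 2 ×ˢ
      Metric.closedBall (0 : Vec d) (R + 1))) :=
    isCompact_Icc.prod ((isCompact_closedBall _ _).prod (isCompact_closedBall _ _))
  have hcont : ContinuousOn (unc f) (Icc (0 : ℝ) T₁ ×ˢ (Metric.closedBall (0 : Vec d) 2 ×ˢ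
      Metric.closedBall (0 : Vec d) (R + 1))) :=
    (show ContinuousOn (unc f) (Ico 0 T ×ˢ univ) from hf.isCont).mono fun q hq =>
      ⟨⟨hq.1.1, hq.1.2.trans_lt h1⟩, mem_univ _⟩
  obtain ⟨ρ, hρ0, hρ⟩ := Metric.uniformContinuousOn_iff.1
    (hKc.uniformContinuousOn_of_continuous hcont) δ hδ0
  obtain ⟨r₀, hr₀⟩ : ∃ r : ℝ, r = min (1 / 2) (ρ / 2) / (1 + T₁) := ⟨_, rfl⟩
  have hT : 0 < 1 + T₁ := by linarith
  have hm0 : 0 < min (1 / 2) (ρ / 2) := lt_min (by norm_num) (by linarith)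
  have hr0 : 0 < r₀ := by rw [hr₀]; positivity
  have hrT : (1 + T₁) * r₀ = min (1 / 2) (ρ / 2) := by rw [hr₀]; field_simp
  have hrT1 : (1 + T₁) * r₀ ≤ 1 / 2 := hrT.le.trans (min_le_left _ _)
  have hrT2 : (1 + T₁) * r₀ < ρ := by
    have h2 : (1 + T₁) * r₀ ≤ ρ / 2 := hrT.le.trans (min_le_right _ _)
    linarith
  have hTr : 0 ≤ T₁ * r₀ := mul_nonneg h0 hr0.le
  have hr1 : r₀ ≤ 1 / 2 := by linarith
  have hr2 : r₀ < ρ := by linarith
  refine ⟨r₀, hr0, hr1, fun t ht x ξ η hξη => ?_⟩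
  have ht' : t ∈ Ico 0 T := ⟨ht.1, ht.2.trans_lt h1⟩
  have hξ : ‖ξ‖ ≤ r₀ := ucon_norm_le hr0.le (by linarith [sq_nonneg' η])
  have hη : ‖η‖ ≤ r₀ := ucon_norm_le hr0.le (by linarith [sq_nonneg' ξ])
  have hs : ‖ξ + t • η‖ ≤ (1 + T₁) * r₀ := by
    refine (norm_add_le _ _).trans ?_
    rw [norm_smul, Real.norm_eq_abs, abs_of_nonneg ht.1]
    have h2 : t * ‖η‖ ≤ T₁ * r₀ := mul_le_mul ht.2 hη (norm_nonneg _) h0
    linarith
  have hpt : ∀ v : Vec d, |f t (x + ξ + t • η) (v + η) - f t x v| ≤ κ * wt d v := by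
    intro v
    have hv := norm_nonneg v
    by_cases hvR : ‖v‖ ≤ R
    · -- small velocities
      have hper : Per fun y => |f t (y + ξ + t • η) (v + η) - f t y v| := by
        intro y i
        have e1 : y + Pi.single i 1 + ξ + t • η = (y + ξ + t • η) + Pi.single i 1 := by abel
        beta_reduce
        rw [e1, hf.periodic t ht', hf.periodic t ht']
      obtain ⟨y, hy, hyx⟩ := ucon_per hper x
      rw [← hyx]
      have hyn : ‖y‖ ≤ 1 := by
        rw [pi_norm_le_iff_of_nonneg zero_le_one]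
        intro i
        rw [Real.norm_eq_abs, abs_le]
        have h2 := hy.1 i
        have h3 := hy.2 i
        simp only [Pi.zero_apply, Pi.one_apply] at h2 h3
        constructor <;> linarith
      have hm1 : (t, y + ξ + t • η, v + η) ∈ Icc (0 : ℝ) T₁ ×ˢ (Metric.closedBall (0 : Vec d) 2 ×ˢ
          Metric.closedBall (0 : Vec d) (R + 1)) := by
        refine ⟨ht, ?_, ?_⟩
        · rw [mem_closedBall_zero_iff, add_assoc]
          have h2 := norm_add_le y (ξ + t • η)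
          linarith
        · rw [mem_closedBall_zero_iff]
          have h2 := norm_add_le v η
          linarith
      have hm2 : (t, y, v) ∈ Icc (0 : ℝ) T₁ ×ˢ (Metric.closedBall (0 : Vec d) 2 ×ˢ
          Metric.closedBall (0 : Vec d) (R + 1)) := by
        refine ⟨ht, ?_, ?_⟩
        · rw [mem_closedBall_zero_iff]
          linarith
        · rw [mem_closedBall_zero_iff]
          linarith
      have hdist : dist (t, y + ξ + t • η, v + η) (t, y, v) < ρ := by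
        rw [Prod.dist_eq, Prod.dist_eq, dist_self]
        refine max_lt hρ0 (max_lt ?_ ?_)
        · rw [dist_eq_norm]
          have e1 : y + ξ + t • η - y = ξ + t • η := by abel
          rw [e1]
          exact hs.trans_lt hrT2
        · rw [dist_eq_norm, add_sub_cancel_left]
          exact hη.trans_lt hr2
      have h2 := hρ _ hm1 _ hm2 hdist
      rw [Real.dist_eq] at h2
      have h3 : |f t (y + ξ + t • η) (v + η) - f t y v| < δ := h2
      refine h3.le.trans ?_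
      rw [hδ]
      refine mul_le_mul_of_nonneg_left ?_ hκ0.le
      unfold wt
      exact inv_anti₀ (by positivity) (pow_le_pow_left₀ (by positivity) (by linarith) _)
    · -- large velocities
      have hvR' : R ≤ ‖v‖ := (not_le.1 hvR).le
      refine (hC t ht x _ v η (by linarith)).trans ?_
      unfold wt
      rw [hRκ, mul_assoc]
      refine mul_le_mul_of_nonneg_left ?_ hκ0.le
      have e1 : ((1 + ‖v‖) ^ (d + 1))⁻¹ = (1 + ‖v‖) * ((1 + ‖v‖) ^ (d + 2))⁻¹ := by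
        have hX : (0 : ℝ) < 1 + ‖v‖ := by linarith
        rw [pow_succ (1 + ‖v‖) (d + 1)]
        field_simp
      rw [e1]
      exact mul_le_mul_of_nonneg_right (by linarith) (by positivity)
  refine (integral_mono_of_nonneg (Eventually.of_forall fun v => abs_nonneg _)
    (integrable_wt.const_mul κ) (Eventually.of_forall hpt)).trans ?_
  rw [integral_const_mul]
  exact hκI

end Pool.Agent.H48.PR
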