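import Pool.Agent.H48.PR.Defs

/-!
# Module HolD: Hoelder continuous data

`F₀ ≥ 0` with all decay constants (`(1+‖v‖)^N F₀ x v ≤ Cl N`) and `HolData α F₀`. For `α' < α`, `len η ≤ 1`: `|F₀(x+ξ,v+η) - F₀(x,v)| ≤ A := C (1+‖v‖+‖v+η‖)^k (‖ξ‖+‖η‖)^α ≤ C' (1+‖v‖)^k (nsq ξ+nsq η)^(α/2)` (`‖·‖ ≤ len`, `len ξ + len η ≤ 2 √(nsq ξ + nsq η)`)
and `≤ B := C_q (1+‖v‖)^(-q)` for every `q` (`1+‖v‖ ≤ 2(1+‖v+η‖)`). `min(A,B) ≤ A^θ B^(1-θ)`, `θ = α'/α`: the exponent of `1+‖v‖` is `kθ - q(1-θ) ≤ -2p` for `q` large; `Wp p v ≥ (d+1)^(-p) (1+‖v‖)^(-2p)` (`1+nsq v ≤ (d+1)(1+‖v‖)²`);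
`((nsq ξ+nsq η)^(α/2))^θ = (nsq ξ+nsq η)^(α'/2)`.
-/

set_option autoImplicit false

open MeasureTheory Set Filter Topology Pool.Agent.H25.Kin Pool.Agent.H48.PL Pool.Agent.H48.PD

namespace Pool.Agent.H48.PR

variable {d : ℕ}

/-- Hoelder continuity of order `α` in `(x,v)`, with a constant which grows at most polynomially in `v` -/
def HolData (α : ℝ) (F₀ : Vec d → Vec d → ℝ) : Prop :=
  ∃ (A : ℝ) (k : ℕ), ∀ x y v w : Vec d,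
    |F₀ x v - F₀ y w| ≤ A * (1 + ‖v‖ + ‖w‖) ^ k * (‖x - y‖ + ‖v - w‖) ^ α

/-- plane symmetric data without vacuum, Hoelder continuous of an order `> 2s` -/
def PlaneData (s : ℝ) (ν : Vec d) (F₀ : Vec d → Vec d → ℝ) : Prop :=
  (∀ x y v, dot ν x = dot ν y → F₀ x v = F₀ y v) ∧ (∀ x, 0 < ∫ v, F₀ x v) ∧
    ∃ α : ℝ, 2 * s < α ∧ α ≤ 1 ∧ HolData α F₀

private lemma hold_norm_le (v : Vec d) : ‖v‖ ≤ Real.sqrt (nsq v) := by
  refine (pi_norm_le_iff_of_nonneg (Real.sqrt_nonneg _)).2 fun i => ?_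
  rw [Real.norm_eq_abs, ← Real.sqrt_sq_eq_abs]
  apply Real.sqrt_le_sqrt
  unfold nsq
  exact Finset.single_le_sum (f := fun i => v i ^ 2) (fun j _ => sq_nonneg (v j)) (Finset.mem_univ i)

private lemma hold_nsq_le (v : Vec d) : nsq v ≤ d * ‖v‖ ^ 2 := by
  unfold nsq
  calc ∑ i, v i ^ 2 ≤ ∑ _i : Fin d, ‖v‖ ^ 2 := by
        refine Finset.sum_le_sum fun i _ => ?_
        rw [← sq_abs (v i)]
        have h1 : |v i| ≤ ‖v‖ := by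
          have := norm_le_pi_norm v i
          rwa [Real.norm_eq_abs] at this
        exact pow_le_pow_left₀ (abs_nonneg _) h1 2
    _ = d * ‖v‖ ^ 2 := by simp

private lemma hold_wp (p : ℕ) (v : Vec d) :
    ((1 + ‖v‖) ^ (2 * p))⁻¹ ≤ ((d : ℝ) + 1) ^ p * Wp p v := by
  have h1 : 1 + nsq v ≤ ((d : ℝ) + 1) * (1 + ‖v‖) ^ 2 := by
    have h2 := hold_nsq_le v
    have h3 : 0 ≤ ‖v‖ := norm_nonneg v
    have h4 : (0 : ℝ) ≤ d := Nat.cast_nonneg d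
    nlinarith [mul_nonneg h4 h3, mul_nonneg h3 h3]
  have h5 : 0 < 1 + nsq v := by linarith [sq_nonneg' v]
  have h6 : 0 < 1 + ‖v‖ := by linarith [norm_nonneg v]
  unfold Wp
  rw [← div_eq_mul_inv, le_div_iff₀ (pow_pos h5 p), inv_mul_le_iff₀ (by positivity)]
  calc (1 + nsq v) ^ p ≤ (((d : ℝ) + 1) * (1 + ‖v‖) ^ 2) ^ p := pow_le_pow_left₀ h5.le h1 p
    _ = (1 + ‖v‖) ^ (2 * p) * ((d : ℝ) + 1) ^ p := by rw [mul_pow, ← pow_mul]; ring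

private lemma hold_inter {E a b m X α α' : ℝ} {k q p : ℕ} (hE : 0 ≤ E) (ha : 0 ≤ a) (hb : 0 ≤ b)
    (hm : 1 ≤ m) (hX : 0 ≤ X) (h1 : 0 < α') (h2 : α' < α)
    (hq : k * (α' / α) + 2 * p ≤ q * (1 - α' / α))
    (hA : E ≤ a * m ^ k * X ^ (α / 2)) (hB : E ≤ b * (m ^ q)⁻¹) :
    E ≤ a ^ (α' / α) * b ^ (1 - α' / α) * X ^ (α' / 2) * (m ^ (2 * p))⁻¹ := by
  have hα : 0 < α := h1.trans h2
  have hθ : 0 < α' / α := div_pos h1 hα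
  have hθ1 : α' / α < 1 := (div_lt_one hα).2 h2
  have hm0 : 0 < m := by linarith
  set θ := α' / α with hdef
  have e1 : E = E ^ θ * E ^ (1 - θ) := by
    rw [← Real.rpow_add_of_nonneg hE hθ.le (by linarith)]
    rw [show θ + (1 - θ) = 1 by ring, Real.rpow_one]
  have hX2 : 0 ≤ X ^ (α / 2) := Real.rpow_nonneg hX _
  have e2 : E ^ θ ≤ a ^ θ * m ^ ((k : ℝ) * θ) * X ^ (α' / 2) := by
    calc E ^ θ ≤ (a * m ^ k * X ^ (α / 2)) ^ θ := Real.rpow_le_rpow hE hA hθ.le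
      _ = a ^ θ * m ^ ((k : ℝ) * θ) * X ^ (α' / 2) := by
        rw [Real.mul_rpow (by positivity) hX2, Real.mul_rpow ha (by positivity),
          ← Real.rpow_natCast m k, ← Real.rpow_mul hm0.le, ← Real.rpow_mul hX]
        congr 2
        rw [hdef]
        field_simp
  have e3 : E ^ (1 - θ) ≤ b ^ (1 - θ) * m ^ (-((q : ℝ) * (1 - θ))) := by
    calc E ^ (1 - θ) ≤ (b * (m ^ q)⁻¹) ^ (1 - θ) := Real.rpow_le_rpow hE hB (by linarith)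
      _ = b ^ (1 - θ) * m ^ (-((q : ℝ) * (1 - θ))) := by
        rw [Real.mul_rpow hb (by positivity), ← Real.rpow_natCast m q, ← Real.rpow_neg hm0.le,
          ← Real.rpow_mul hm0.le]
        congr 2
        ring
  have e4 : m ^ ((k : ℝ) * θ) * m ^ (-((q : ℝ) * (1 - θ))) ≤ (m ^ (2 * p))⁻¹ := by
    rw [← Real.rpow_add hm0, ← Real.rpow_natCast m (2 * p), ← Real.rpow_neg hm0.le]
    apply Real.rpow_le_rpow_of_exponent_le hm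
    push_cast
    linarith
  have hX3 : 0 ≤ X ^ (α' / 2) := Real.rpow_nonneg hX _
  have ha3 : 0 ≤ a ^ θ := Real.rpow_nonneg ha _
  have hb3 : 0 ≤ b ^ (1 - θ) := Real.rpow_nonneg hb _
  calc E = E ^ θ * E ^ (1 - θ) := e1
    _ ≤ (a ^ θ * m ^ ((k : ℝ) * θ) * X ^ (α' / 2)) * (b ^ (1 - θ) * m ^ (-((q : ℝ) * (1 - θ)))) :=
        mul_le_mul e2 e3 (Real.rpow_nonneg hE _) (by positivity)
    _ = a ^ θ * b ^ (1 - θ) * X ^ (α' / 2) *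
          (m ^ ((k : ℝ) * θ) * m ^ (-((q : ℝ) * (1 - θ)))) := by ring
    _ ≤ a ^ θ * b ^ (1 - θ) * X ^ (α' / 2) * (m ^ (2 * p))⁻¹ :=
        mul_le_mul_of_nonneg_left e4 (by positivity)

theorem hol_data {F₀ : Vec d → Vec d → ℝ} (h0 : ∀ x v, 0 ≤ F₀ x v)
    (hd : ∀ N : ℕ, ∃ B : ℝ, ∀ x v, (1 + ‖v‖) ^ N * F₀ x v ≤ B) {α α' : ℝ} (h1 : 0 < α')
    (h2 : α' < α) (hh : HolData α F₀) (p : ℕ) : ∃ C₀ : ℝ, ∀ x v ξ η : Vec d, len η ≤ 1 →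
      |F₀ (x + ξ) (v + η) - F₀ x v| ≤ C₀ * (nsq ξ + nsq η) ^ (α' / 2) * Wp p v := by
  obtain ⟨A, k, hA⟩ := hh
  have hα : 0 < α := h1.trans h2
  have hθ : 0 < α' / α := div_pos h1 hα
  have hθ1 : α' / α < 1 := (div_lt_one hα).2 h2
  obtain ⟨q, hq⟩ := exists_nat_ge ((k * (α' / α) + 2 * p) / (1 - α' / α))
  rw [div_le_iff₀ (by linarith)] at hq
  obtain ⟨B, hB⟩ := hd q
  have hB0 : 0 ≤ B := by
    have := hB 0 0
    have h3 : 0 ≤ (1 + ‖(0 : Vec d)‖) ^ q * F₀ 0 0 := mul_nonneg (by positivity) (h0 _ _)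
    linarith
  set a : ℝ := |A| * 2 ^ k * 2 ^ α with ha
  set b : ℝ := 2 ^ q * B with hb
  have ha0 : 0 ≤ a := by positivity
  have hb0 : 0 ≤ b := by positivity
  refine ⟨a ^ (α' / α) * b ^ (1 - α' / α) * ((d : ℝ) + 1) ^ p, fun x v ξ η hη => ?_⟩
  have hξn := hold_norm_le ξ
  have hηn := hold_norm_le η
  have hη1 : ‖η‖ ≤ 1 := hηn.trans hη
  have hX : 0 ≤ nsq ξ + nsq η := add_nonneg (sq_nonneg' ξ) (sq_nonneg' η)
  have hm : 1 ≤ 1 + ‖v‖ := by linarith [norm_nonneg v]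
  have s1 : Real.sqrt (nsq ξ) ≤ Real.sqrt (nsq ξ + nsq η) :=
    Real.sqrt_le_sqrt (by linarith [sq_nonneg' η])
  have s2 : Real.sqrt (nsq η) ≤ Real.sqrt (nsq ξ + nsq η) :=
    Real.sqrt_le_sqrt (by linarith [sq_nonneg' ξ])
  have hvη : ‖v + η‖ ≤ ‖v‖ + 1 := (norm_add_le v η).trans (by linarith)
  have hEA : |F₀ (x + ξ) (v + η) - F₀ x v| ≤ a * (1 + ‖v‖) ^ k * (nsq ξ + nsq η) ^ (α / 2) := by
    have h3 := hA (x + ξ) x (v + η) v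
    rw [add_sub_cancel_left, add_sub_cancel_left] at h3
    have h4 : (1 + ‖v + η‖ + ‖v‖) ^ k ≤ 2 ^ k * (1 + ‖v‖) ^ k := by
      rw [← mul_pow]
      exact pow_le_pow_left₀ (by positivity) (by linarith) k
    have h5 : (‖ξ‖ + ‖η‖) ^ α ≤ 2 ^ α * (nsq ξ + nsq η) ^ (α / 2) := by
      calc (‖ξ‖ + ‖η‖) ^ α ≤ (2 * Real.sqrt (nsq ξ + nsq η)) ^ α :=
            Real.rpow_le_rpow (by positivity) (by linarith) hα.le
        _ = 2 ^ α * (nsq ξ + nsq η) ^ (α / 2) := by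
            rw [Real.mul_rpow (by norm_num) (Real.sqrt_nonneg _), Real.sqrt_eq_rpow,
              ← Real.rpow_mul hX]
            congr 2
            ring
    have h6 : 0 ≤ (‖ξ‖ + ‖η‖) ^ α := Real.rpow_nonneg (by positivity) _
    have hX2 : 0 ≤ (nsq ξ + nsq η) ^ (α / 2) := Real.rpow_nonneg hX _
    calc |F₀ (x + ξ) (v + η) - F₀ x v| ≤ A * (1 + ‖v + η‖ + ‖v‖) ^ k * (‖ξ‖ + ‖η‖) ^ α := h3
      _ ≤ |A| * (1 + ‖v + η‖ + ‖v‖) ^ k * (‖ξ‖ + ‖η‖) ^ α :=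
          mul_le_mul_of_nonneg_right (mul_le_mul_of_nonneg_right (le_abs_self A) (by positivity)) h6
      _ ≤ |A| * (2 ^ k * (1 + ‖v‖) ^ k) * (2 ^ α * (nsq ξ + nsq η) ^ (α / 2)) :=
          mul_le_mul (mul_le_mul_of_nonneg_left h4 (abs_nonneg A)) h5 h6 (by positivity)
      _ = a * (1 + ‖v‖) ^ k * (nsq ξ + nsq η) ^ (α / 2) := by rw [ha]; ring
  have hEB : |F₀ (x + ξ) (v + η) - F₀ x v| ≤ b * ((1 + ‖v‖) ^ q)⁻¹ := by
    have hmp : 0 < (1 + ‖v‖) ^ q := by positivity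
    rw [← div_eq_mul_inv, le_div_iff₀ hmp]
    have h3 : F₀ x v * (1 + ‖v‖) ^ q ≤ b := by
      have h4 := hB x v
      have h5 : (1 : ℝ) ≤ 2 ^ q := one_le_pow₀ (by norm_num)
      rw [hb]
      nlinarith
    have h6 : F₀ (x + ξ) (v + η) * (1 + ‖v‖) ^ q ≤ b := by
      have h7 : ‖v‖ ≤ ‖v + η‖ + 1 := by
        have h8 := norm_sub_le (v + η) η
        rw [add_sub_cancel_right] at h8
        linarith
      have h9 : (1 + ‖v‖) ^ q ≤ 2 ^ q * (1 + ‖v + η‖) ^ q := by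
        rw [← mul_pow]
        exact pow_le_pow_left₀ (by positivity) (by linarith [norm_nonneg (v + η)]) q
      calc F₀ (x + ξ) (v + η) * (1 + ‖v‖) ^ q
          ≤ F₀ (x + ξ) (v + η) * (2 ^ q * (1 + ‖v + η‖) ^ q) :=
            mul_le_mul_of_nonneg_left h9 (h0 _ _)
        _ = 2 ^ q * ((1 + ‖v + η‖) ^ q * F₀ (x + ξ) (v + η)) := by ring
        _ ≤ 2 ^ q * B := mul_le_mul_of_nonneg_left (hB _ _) (by positivity)
    have h10 : 0 ≤ F₀ x v * (1 + ‖v‖) ^ q := mul_nonneg (h0 _ _) hmp.le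
    have h11 : 0 ≤ F₀ (x + ξ) (v + η) * (1 + ‖v‖) ^ q := mul_nonneg (h0 _ _) hmp.le
    rw [← abs_of_pos hmp, ← abs_mul, sub_mul]
    exact abs_le.2 ⟨by linarith, by linarith⟩
  have key := hold_inter (p := p) (abs_nonneg _) ha0 hb0 hm hX h1 h2 hq hEA hEB
  have hX3 : 0 ≤ (nsq ξ + nsq η) ^ (α' / 2) := Real.rpow_nonneg hX _
  have ha3 : 0 ≤ a ^ (α' / α) := Real.rpow_nonneg ha0 _
  have hb3 : 0 ≤ b ^ (1 - α' / α) := Real.rpow_nonneg hb0 _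
  calc |F₀ (x + ξ) (v + η) - F₀ x v|
      ≤ a ^ (α' / α) * b ^ (1 - α' / α) * (nsq ξ + nsq η) ^ (α' / 2) *
          ((1 + ‖v‖) ^ (2 * p))⁻¹ := key
    _ ≤ a ^ (α' / α) * b ^ (1 - α' / α) * (nsq ξ + nsq η) ^ (α' / 2) *
          (((d : ℝ) + 1) ^ p * Wp p v) := mul_le_mul_of_nonneg_left (hold_wp p v) (by positivity)
    _ = a ^ (α' / α) * b ^ (1 - α' / α) * ((d : ℝ) + 1) ^ p * (nsq ξ + nsq η) ^ (α' / 2) *
          Wp p v := by ring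

end Pool.Agent.H48.PR
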