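import Pool.Agent.H48.PR.Defs
import Pool.Agent.H82.BK.Touch

/-!
# Module Cpt: the first touching point in the doubled variables

`Bar(t,ξ,η,v) = L₀ (1+t/t₁) om δ α ξ η Wp p v`, continuous and positive. Model: `first_touch` in H82/BK/Touch. Let `S` be the set of `(t,x,v,ξ,η)` with `t ∈ [0,t₁]`, `x` in the unit cube, `len η ≤ 1`, `nsq ξ + nsq η ≤ r₀²` and `Bar ≤ |Ph|`.
By `hbig` every bad point has `nsq ξ + nsq η < r₀²`; `Ph` is periodic in `x` (both terms; `touch_per` must be copied, it is private); on bad points `|Ph| ≥ L₀ δ^α Wp p v` while `|Ph| ≤ C (1+‖v‖)^(-(2p+1))` (`decay (2p+1)`, `len η ≤ 1`,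
`(1+‖v‖) ≤ 2(1+‖v+η‖)`), so `‖v‖ ≤ R`. Hence `S` is compact (closed in a compact box; `Ph` and `Bar` are continuous there: `unc f` is continuous on `[0,T)`, composed with `(t,x,v,ξ,η) ↦ (t, x+ξ+tη, v+η)`), nonempty, and has a point with minimal `t = t₀`;
`t₀ > 0` by `hini`. For `t < t₀` nothing is bad (every bad point has a bad representative in `S`); at `t₀`: `|Ph| ≤ Bar` for all `x v ξ η` with `len η ≤ 1` by continuity in `t` (limit `t ↑ t₀`), so equality at the point found.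
-/

set_option autoImplicit false

open MeasureTheory Set Filter Topology Pool.Agent.H25.Kin Pool.Agent.H48.PL Pool.Agent.H48.PD
open Pool.Agent.H82.BK

namespace Pool.Agent.H48.PR

variable {d : ℕ} {T : ℝ} {Q f : ℝ → Vec d → Vec d → ℝ}

/-- reduction of the position to the unit cube -/
private lemma cpt_per {F : Vec d → ℝ} (hF : Per F) (x : Vec d) :
    ∃ y ∈ Icc (0 : Vec d) 1, F y = F x := by
  refine ⟨fun i => Int.fract (x i), ⟨fun i => Int.fract_nonneg _, fun i => (Int.fract_lt_one _).le⟩, ?_⟩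
  have hl : (fun i => (-(⌊x i⌋ : ℤ) : ℝ)) ∈
      Submodule.span ℤ (Set.range (Pi.basisFun ℝ (Fin d))) := by
    have e : (fun i => (-(⌊x i⌋ : ℤ) : ℝ)) = ∑ i, (-⌊x i⌋ : ℤ) • (Pi.basisFun ℝ (Fin d) i) := by
      funext j
      rw [Finset.sum_apply]
      simp only [Pi.basisFun_apply, Pi.smul_apply, Pi.single_apply]
      rw [Finset.sum_eq_single j]
      · simp
      · intro b _ hb
        simp [Ne.symm hb]
      · intro h
        exact absurd (Finset.mem_univ _) h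
    rw [e]
    exact Submodule.sum_mem _ fun i _ => Submodule.smul_mem _ _
      (Submodule.subset_span (Set.mem_range_self i))
  have h := hF.span hl x
  have e2 : (fun i => (-(⌊x i⌋ : ℤ) : ℝ)) + x = fun i => Int.fract (x i) := by
    funext i
    simp only [Pi.add_apply, Int.fract]
    ring
  rw [e2] at h
  exact h

/-- velocities with a large difference are bounded -/
private lemma cpt_bdd (hf : IsClassicalSol T Q f) (p : ℕ) {t₁ : ℝ} (hT₁ : t₁ < T) {β : ℝ}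
    (hβ : 0 < β) :
    ∃ R : ℝ, ∀ t ∈ Icc 0 t₁, ∀ x v ξ η : Vec d, len η ≤ 1 → β * Wp p v ≤ |Ph f t x v ξ η| →
      ‖v‖ ≤ R := by
  obtain ⟨C, hC⟩ := hf.decay t₁ hT₁ (2 * p + 1)
  refine ⟨((d : ℝ) + 1) ^ p * (2 ^ (2 * p + 1) * C + C) / β, fun t ht x v ξ η hη h => ?_⟩
  have ht' : t ∈ Ico 0 T := ⟨ht.1, ht.2.trans_lt hT₁⟩
  have hn := norm_nonneg v
  have h0 : 0 ≤ f t x v := hf.nonneg t ht' x v
  have h0' : 0 ≤ f t (x + ξ + t • η) (v + η) := hf.nonneg t ht' _ _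
  have h1 := hC t ht x v
  have h1' := hC t ht (x + ξ + t • η) (v + η)
  have hηn : ‖η‖ ≤ 1 := (norm_le_len η).trans hη
  have h2 : 1 + ‖v‖ ≤ 2 * (1 + ‖v + η‖) := by
    have h3 : ‖v‖ ≤ ‖v + η‖ + ‖η‖ := by
      have := norm_sub_le (v + η) η
      rwa [add_sub_cancel_right] at this
    have := norm_nonneg (v + η)
    linarith
  have h4 : (1 + ‖v‖) ^ (2 * p + 1) * f t (x + ξ + t • η) (v + η) ≤ 2 ^ (2 * p + 1) * C := by
    calc (1 + ‖v‖) ^ (2 * p + 1) * f t (x + ξ + t • η) (v + η)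
        ≤ (2 * (1 + ‖v + η‖)) ^ (2 * p + 1) * f t (x + ξ + t • η) (v + η) :=
          mul_le_mul_of_nonneg_right (pow_le_pow_left₀ (by linarith) h2 _) h0'
      _ = 2 ^ (2 * p + 1) * ((1 + ‖v + η‖) ^ (2 * p + 1) * f t (x + ξ + t • η) (v + η)) := by
          rw [mul_pow]; ring
      _ ≤ 2 ^ (2 * p + 1) * C := mul_le_mul_of_nonneg_left h1' (by positivity)
  have h5 : |Ph f t x v ξ η| ≤ f t (x + ξ + t • η) (v + η) + f t x v := by
    unfold Ph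
    rw [abs_le]
    constructor <;> linarith
  have h6 : (1 + ‖v‖) ^ (2 * p + 1) * |Ph f t x v ξ η| ≤ 2 ^ (2 * p + 1) * C + C := by
    calc (1 + ‖v‖) ^ (2 * p + 1) * |Ph f t x v ξ η|
        ≤ (1 + ‖v‖) ^ (2 * p + 1) * (f t (x + ξ + t • η) (v + η) + f t x v) :=
          mul_le_mul_of_nonneg_left h5 (by positivity)
      _ ≤ 2 ^ (2 * p + 1) * C + C := by rw [mul_add]; exact add_le_add h4 h1
  have h7 : 1 + nsq v ≤ ((d : ℝ) + 1) * (1 + ‖v‖) ^ 2 := by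
    have h3 := sq_le v
    have h4 : (0 : ℝ) ≤ d := Nat.cast_nonneg _
    nlinarith [mul_nonneg h4 hn]
  have h8 : (1 + nsq v) ^ p ≤ ((d : ℝ) + 1) ^ p * (1 + ‖v‖) ^ (2 * p) := by
    rw [pow_mul, ← mul_pow]
    exact pow_le_pow_left₀ (by have := sq_nonneg' v; linarith) h7 p
  have h9 : β ≤ |Ph f t x v ξ η| * (1 + nsq v) ^ p := by
    have h10 : β * Wp p v * (1 + nsq v) ^ p ≤ |Ph f t x v ξ η| * (1 + nsq v) ^ p :=
      mul_le_mul_of_nonneg_right h (by have := sq_nonneg' v; positivity)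
    rwa [mul_assoc, Wp_mul, mul_one] at h10
  have h11 : β ≤ |Ph f t x v ξ η| * (((d : ℝ) + 1) ^ p * (1 + ‖v‖) ^ (2 * p)) :=
    h9.trans (mul_le_mul_of_nonneg_left h8 (abs_nonneg _))
  rw [le_div_iff₀ hβ]
  have h12 : β * (1 + ‖v‖) ≤ ((d : ℝ) + 1) ^ p * (2 ^ (2 * p + 1) * C + C) := by
    calc β * (1 + ‖v‖)
        ≤ (|Ph f t x v ξ η| * (((d : ℝ) + 1) ^ p * (1 + ‖v‖) ^ (2 * p))) * (1 + ‖v‖) :=
          mul_le_mul_of_nonneg_right h11 (by linarith)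
      _ = ((d : ℝ) + 1) ^ p * ((1 + ‖v‖) ^ (2 * p + 1) * |Ph f t x v ξ η|) := by ring
      _ ≤ ((d : ℝ) + 1) ^ p * (2 ^ (2 * p + 1) * C + C) :=
          mul_le_mul_of_nonneg_left h6 (by positivity)
  nlinarith

private lemma cpt_om_ge {δ α : ℝ} (hα : 0 < α) (ξ η : Vec d) :
    (δ ^ 2) ^ (α / 2) ≤ om δ α ξ η := by
  unfold om
  have h1 := sq_nonneg' ξ
  have h2 := sq_nonneg' η
  exact Real.rpow_le_rpow (sq_nonneg _) (by linarith) (by linarith)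

private lemma cpt_nsq : Continuous (nsq : Vec d → ℝ) := by unfold nsq; fun_prop

theorem ftouch (hf : IsClassicalSol T Q f) {t₁ : ℝ} (h0 : 0 < t₁) (h1 : t₁ < T) (p : ℕ)
    {α δ L₀ r₀ : ℝ} (hα : 0 < α) (hδ : 0 < δ) (hL : 0 < L₀)
    (hbig : ∀ t ∈ Icc 0 t₁, ∀ x v ξ η : Vec d, len η ≤ 1 → r₀ ^ 2 ≤ nsq ξ + nsq η →
      |Ph f t x v ξ η| < L₀ * om δ α ξ η * Wp p v)
    (hini : ∀ x v ξ η : Vec d, len η ≤ 1 → |Ph f 0 x v ξ η| < L₀ * om δ α ξ η * Wp p v)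
    (hbad : ∃ t ∈ Icc 0 t₁, ∃ x v ξ η : Vec d, len η ≤ 1 ∧
      L₀ * (1 + t / t₁) * om δ α ξ η * Wp p v ≤ |Ph f t x v ξ η|) :
    ∃ t₀ ∈ Ioc 0 t₁, ∃ x v ξ η : Vec d, len η ≤ 1 ∧ nsq ξ + nsq η < r₀ ^ 2 ∧
      |Ph f t₀ x v ξ η| = L₀ * (1 + t₀ / t₁) * om δ α ξ η * Wp p v ∧
      (∀ t ∈ Ico 0 t₀, ∀ x v ξ η : Vec d, len η ≤ 1 →
        |Ph f t x v ξ η| < L₀ * (1 + t / t₁) * om δ α ξ η * Wp p v) ∧
      ∀ x v ξ η : Vec d, len η ≤ 1 →
        |Ph f t₀ x v ξ η| ≤ L₀ * (1 + t₀ / t₁) * om δ α ξ η * Wp p v := by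
  have hsub : Icc (0 : ℝ) t₁ ⊆ Ico 0 T := fun t ht => ⟨ht.1, ht.2.trans_lt h1⟩
  have hβ : 0 < L₀ * (δ ^ 2) ^ (α / 2) := by positivity
  obtain ⟨R, hR⟩ := cpt_bdd hf p h1 hβ
  have hfac : ∀ t ∈ Icc (0 : ℝ) t₁, 1 ≤ 1 + t / t₁ := fun t ht => by
    have : 0 ≤ t / t₁ := div_nonneg ht.1 h0.le
    linarith
  have hBar : ∀ t ∈ Icc (0 : ℝ) t₁, ∀ v ξ η : Vec d,
      L₀ * om δ α ξ η * Wp p v ≤ L₀ * (1 + t / t₁) * om δ α ξ η * Wp p v := by
    intro t ht v ξ η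
    have a1 := om_pos (d := d) hδ ξ η (α := α)
    have a2 := Wp_pos p v
    have a3 : L₀ * 1 ≤ L₀ * (1 + t / t₁) := mul_le_mul_of_nonneg_left (hfac t ht) hL.le
    rw [mul_one] at a3
    exact mul_le_mul_of_nonneg_right (mul_le_mul_of_nonneg_right a3 a1.le) a2.le
  have hBar2 : ∀ t ∈ Icc (0 : ℝ) t₁, ∀ v ξ η : Vec d,
      L₀ * (δ ^ 2) ^ (α / 2) * Wp p v ≤ L₀ * (1 + t / t₁) * om δ α ξ η * Wp p v := by
    intro t ht v ξ η
    refine le_trans ?_ (hBar t ht v ξ η)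
    exact mul_le_mul_of_nonneg_right (mul_le_mul_of_nonneg_left (cpt_om_ge hα ξ η) hL.le)
      (Wp_pos p v).le
  have hsmall : ∀ t ∈ Icc (0 : ℝ) t₁, ∀ x v ξ η : Vec d, len η ≤ 1 →
      L₀ * (1 + t / t₁) * om δ α ξ η * Wp p v ≤ |Ph f t x v ξ η| → nsq ξ + nsq η < r₀ ^ 2 := by
    intro t ht x v ξ η hη h
    by_contra hcon
    push Not at hcon
    have a1 := hbig t ht x v ξ η hη hcon
    have a2 := hBar t ht v ξ η
    linarith
  -- the continuity of the difference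
  have hPc : ContinuousOn (fun q : ℝ × Vec d × Vec d × Vec d × Vec d =>
      Ph f q.1 q.2.1 q.2.2.1 q.2.2.2.1 q.2.2.2.2) (Ico 0 T ×ˢ univ) := by
    have c0 : ContinuousOn (unc f) (Ico 0 T ×ˢ univ) := hf.isCont
    have c1 : ContinuousOn (fun q : ℝ × Vec d × Vec d × Vec d × Vec d =>
        unc f (q.1, q.2.1 + q.2.2.2.1 + q.1 • q.2.2.2.2, q.2.2.1 + q.2.2.2.2))
        (Ico 0 T ×ˢ univ) := by
      refine c0.comp (Continuous.continuousOn (by fun_prop)) fun q hq => ?_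
      exact ⟨hq.1, mem_univ _⟩
    have c2 : ContinuousOn (fun q : ℝ × Vec d × Vec d × Vec d × Vec d =>
        unc f (q.1, q.2.1, q.2.2.1)) (Ico 0 T ×ˢ univ) := by
      refine c0.comp (Continuous.continuousOn (by fun_prop)) fun q hq => ?_
      exact ⟨hq.1, mem_univ _⟩
    exact c1.sub c2
  have hBc : Continuous (fun q : ℝ × Vec d × Vec d × Vec d × Vec d =>
      L₀ * (1 + q.1 / t₁) * om δ α q.2.2.2.1 q.2.2.2.2 * Wp p q.2.2.1) := by
    have c1 : Continuous fun q : ℝ × Vec d × Vec d × Vec d × Vec d =>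
        om δ α q.2.2.2.1 q.2.2.2.2 := by
      unfold om
      refine Continuous.rpow_const ?_ fun q => Or.inr (by linarith)
      exact (continuous_const.add (cpt_nsq.comp (by fun_prop))).add (cpt_nsq.comp (by fun_prop))
    have c2 : Continuous fun q : ℝ × Vec d × Vec d × Vec d × Vec d => Wp p q.2.2.1 :=
      (Wp_cont p).comp (by fun_prop)
    exact ((by fun_prop : Continuous fun q : ℝ × Vec d × Vec d × Vec d × Vec d =>
      L₀ * (1 + q.1 / t₁)).mul c1).mul c2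
  set K0 : Set (ℝ × Vec d × Vec d × Vec d × Vec d) := Icc 0 t₁ ×ˢ (Icc (0 : Vec d) 1 ×ˢ
    (Metric.closedBall (0 : Vec d) R ×ˢ (Metric.closedBall (0 : Vec d) |r₀| ×ˢ
      Metric.closedBall (0 : Vec d) |r₀|))) with hK0
  have hK0c : IsCompact K0 := isCompact_Icc.prod (isCompact_Icc.prod
    ((isCompact_closedBall _ _).prod ((isCompact_closedBall _ _).prod (isCompact_closedBall _ _))))
  have hlenc : IsClosed {q : ℝ × Vec d × Vec d × Vec d × Vec d | len q.2.2.2.2 ≤ 1} :=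
    isClosed_le (continuous_len.comp (by fun_prop)) continuous_const
  set K : Set (ℝ × Vec d × Vec d × Vec d × Vec d) :=
    K0 ∩ {q | len q.2.2.2.2 ≤ 1} with hK
  have hKc : IsCompact K := hK0c.inter_right hlenc
  have hGc : ContinuousOn (fun q : ℝ × Vec d × Vec d × Vec d × Vec d =>
      |Ph f q.1 q.2.1 q.2.2.1 q.2.2.2.1 q.2.2.2.2| -
        L₀ * (1 + q.1 / t₁) * om δ α q.2.2.2.1 q.2.2.2.2 * Wp p q.2.2.1) K := by
    refine ContinuousOn.sub ?_ hBc.continuousOn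
    exact (hPc.mono fun q hq => ⟨hsub hq.1.1, mem_univ _⟩).abs
  set S : Set (ℝ × Vec d × Vec d × Vec d × Vec d) :=
    K ∩ (fun q : ℝ × Vec d × Vec d × Vec d × Vec d =>
      |Ph f q.1 q.2.1 q.2.2.1 q.2.2.2.1 q.2.2.2.2| -
        L₀ * (1 + q.1 / t₁) * om δ α q.2.2.2.1 q.2.2.2.2 * Wp p q.2.2.1) ⁻¹' Ici 0 with hS
  have hSc : IsCompact S := hKc.of_isClosed_subset
    (hGc.preimage_isClosed_of_isClosed hKc.isClosed isClosed_Ici) inter_subset_left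
  have hmem : ∀ t ∈ Icc (0 : ℝ) t₁, ∀ x v ξ η : Vec d, len η ≤ 1 →
      L₀ * (1 + t / t₁) * om δ α ξ η * Wp p v ≤ |Ph f t x v ξ η| →
      ∃ y, (t, y, v, ξ, η) ∈ S := by
    intro t ht x v ξ η hη h
    have hper : Per fun x => Ph f t x v ξ η := by
      intro x i
      show Ph f t (x + Pi.single i 1) v ξ η = Ph f t x v ξ η
      unfold Ph
      rw [hf.periodic t (hsub ht) x v i,
        show x + Pi.single i 1 + ξ + t • η = (x + ξ + t • η) + Pi.single i 1 by abel,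
        hf.periodic t (hsub ht) (x + ξ + t • η) (v + η) i]
    obtain ⟨y, hy, hyx⟩ := cpt_per hper x
    have hyx' : Ph f t y v ξ η = Ph f t x v ξ η := hyx
    have hs := hsmall t ht x v ξ η hη h
    have b1 : ‖ξ‖ ≤ |r₀| := by
      refine abs_le_of_sq_le_sq' ?_ (abs_nonneg _) |>.2
      have := norm_sq_le_sq ξ
      have := sq_nonneg' η
      rw [sq_abs]
      linarith
    have b2 : ‖η‖ ≤ |r₀| := by
      refine abs_le_of_sq_le_sq' ?_ (abs_nonneg _) |>.2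
      have := norm_sq_le_sq η
      have := sq_nonneg' ξ
      rw [sq_abs]
      linarith
    have b3 : ‖v‖ ≤ R := hR t ht x v ξ η hη ((hBar2 t ht v ξ η).trans h)
    refine ⟨y, ⟨⟨⟨ht, hy, ?_, ?_, ?_⟩, hη⟩, ?_⟩⟩
    · rw [Metric.mem_closedBall, dist_zero_right]; exact b3
    · rw [Metric.mem_closedBall, dist_zero_right]; exact b1
    · rw [Metric.mem_closedBall, dist_zero_right]; exact b2
    · simp only [mem_preimage, mem_Ici]
      rw [hyx']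
      linarith
  obtain ⟨t2, ht2, x2, v2, ξ2, η2, hη2, h2⟩ := hbad
  obtain ⟨y2, hy2⟩ := hmem t2 ht2 x2 v2 ξ2 η2 hη2 h2
  obtain ⟨q, hqS, hq⟩ := hSc.exists_isMinOn ⟨_, hy2⟩
    (f := fun q : ℝ × Vec d × Vec d × Vec d × Vec d => q.1) continuous_fst.continuousOn
  obtain ⟨t₀, x₀, v₀, ξ₀, η₀⟩ := q
  have ht₀ : t₀ ∈ Icc 0 t₁ := hqS.1.1.1
  have hη₀ : len η₀ ≤ 1 := hqS.1.2
  have hge : L₀ * (1 + t₀ / t₁) * om δ α ξ₀ η₀ * Wp p v₀ ≤ |Ph f t₀ x₀ v₀ ξ₀ η₀| := by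
    have := hqS.2
    simp only [mem_preimage, mem_Ici] at this
    linarith
  have hlt : ∀ t ∈ Ico 0 t₀, ∀ x v ξ η : Vec d, len η ≤ 1 →
      |Ph f t x v ξ η| < L₀ * (1 + t / t₁) * om δ α ξ η * Wp p v := by
    intro t ht x v ξ η hη
    by_contra hcon
    push Not at hcon
    obtain ⟨y, hy⟩ := hmem t ⟨ht.1, ht.2.le.trans ht₀.2⟩ x v ξ η hη hcon
    have h3 : t₀ ≤ t := hq hy
    exact absurd ht.2 (not_lt.2 h3)
  have hpos : 0 < t₀ := by
    rcases ht₀.1.lt_or_eq with h | h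
    · exact h
    · exfalso
      subst h
      have a1 := hini x₀ v₀ ξ₀ η₀ hη₀
      rw [zero_div, add_zero, mul_one] at hge
      exact absurd hge (not_le.2 a1)
  have hle : ∀ x v ξ η : Vec d, len η ≤ 1 →
      |Ph f t₀ x v ξ η| ≤ L₀ * (1 + t₀ / t₁) * om δ α ξ η * Wp p v := by
    intro x v ξ η hη
    have hc : ContinuousOn (fun t : ℝ => |Ph f t x v ξ η|) (Icc 0 t₁) := by
      have h3 : ContinuousOn (fun t : ℝ => (fun q : ℝ × Vec d × Vec d × Vec d × Vec d =>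
          Ph f q.1 q.2.1 q.2.2.1 q.2.2.2.1 q.2.2.2.2) (t, x, v, ξ, η)) (Icc 0 t₁) := by
        refine hPc.comp (Continuous.continuousOn (by fun_prop)) fun t ht => ⟨hsub ht, mem_univ _⟩
      exact h3.abs
    have hc2 : Continuous fun t : ℝ => L₀ * (1 + t / t₁) * om δ α ξ η * Wp p v := by fun_prop
    have hne : (𝓝[Ico 0 t₀] t₀).NeBot := by
      rw [← mem_closure_iff_nhdsWithin_neBot, closure_Ico hpos.ne]
      exact ⟨hpos.le, le_rfl⟩
    have hs : Ico 0 t₀ ⊆ Icc 0 t₁ := fun t ht => ⟨ht.1, ht.2.le.trans ht₀.2⟩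
    have l1 : Tendsto (fun t : ℝ => |Ph f t x v ξ η|) (𝓝[Ico 0 t₀] t₀)
        (𝓝 |Ph f t₀ x v ξ η|) := (hc t₀ ht₀).mono hs
    have l2 : Tendsto (fun t : ℝ => L₀ * (1 + t / t₁) * om δ α ξ η * Wp p v) (𝓝[Ico 0 t₀] t₀)
        (𝓝 (L₀ * (1 + t₀ / t₁) * om δ α ξ η * Wp p v)) := hc2.continuousAt.mono_left inf_le_left
    refine le_of_tendsto_of_tendsto l1 l2 ?_
    filter_upwards [self_mem_nhdsWithin] with t ht
    exact (hlt t ht x v ξ η hη).le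
  exact ⟨t₀, ⟨hpos, ht₀.2⟩, x₀, v₀, ξ₀, η₀, hη₀, hsmall t₀ ht₀ x₀ v₀ ξ₀ η₀ hη₀ hge,
    le_antisymm (hle x₀ v₀ ξ₀ η₀ hη₀) hge, hlt, hle⟩

end Pool.Agent.H48.PR
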