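import Pool.Agent.H48.PR.Defs
import Pool.Agent.H48.PL.JB
import Pool.Agent.H15.AV.Slc

/-!
# Module MLow: lower bound of the mass of the slow velocities for short times

`ρ(t,x) = ∫ f t x v dv` is continuous on `[0,T) × ℝ^d` (dominated by `C wt`), periodic in `x`, positive at `t = 0`; so `ρ ≥ 4 m` on `[0,T₁] × [0,1]^d` for some `T₁ > 0`, `m > 0` (compactness: minimum `8m` over the cube at `t = 0`, uniform
continuity on the compact `[0,T/2] × [0,1]^d`), hence for all `x` (periodicity; lemmas on `Per` in H25/Kin/Per.lean, `touch_per` in H82/BK/Touch is private but can be copied). The mass in `{nsq z > R²}` is `≤ C/R → 0` uniformly (`decay`, `(1+‖v‖)^(d+2) f ≤ C`),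
so the mass of `f t x` in `{nsq z ≤ R₀²}` is `≥ 2m`; translation by `η`, `len η ≤ 1`: `∫_{nsq z ≤ R₁²} f t x (z+η) dz ≥ ∫_{nsq u ≤ R₀²} f t x u du`, `R₁ = R₀ + 1` (`z = u - η`, `len z ≤ len u + 1`). The continuity of `ρ` may exist in the library
(H25/Kin, H15/AV, H48/PI: search for continuity of `∫ v, f t x v`).
-/

set_option autoImplicit false

open MeasureTheory Set Filter Topology Pool.Agent.H25.Kin Pool.Agent.H48.PL Pool.Agent.H48.PD

namespace Pool.Agent.H48.PR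

variable {d : ℕ} {T : ℝ} {Q f : ℝ → Vec d → Vec d → ℝ}

/-- reduction of the position to the unit cube -/
private lemma mlow_per {F : Vec d → ℝ} (hF : Per F) (x : Vec d) :
    ∃ y ∈ Icc (0 : Vec d) 1, F y = F x := by
  refine ⟨fun i => Int.fract (x i), ⟨fun i => Int.fract_nonneg _, fun i => (Int.fract_lt_one _).le⟩, ?_⟩
  have hl : (fun i => (-(⌊x i⌋ : ℤ) : ℝ)) ∈
      Submodule.span ℤ (Set.range (Pi.basisFun ℝ (Fin d))) := by
    have e : (fun i => (-(⌊x i⌋ : ℤ) : ℝ)) = ∑ i, (-⌊x i⌋ : ℤ) • (Pi.basisFun ℝ (Fin d) i) := by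
      funext j
      rw [Finset.sum_apply]
      simp only [Pi.basisFun_apply, Pi.smul_apply, Pi.single_apply]
      rw [Finset.sum_eq_single j]
      · simp
      · intro b _ hb
        simp [Ne.symm hb]
      · intro h
        exact absurd (Finset.mem_univ _) h
    rw [e]
    exact Submodule.sum_mem _ fun i _ => Submodule.smul_mem _ _
      (Submodule.subset_span (Set.mem_range_self i))
  have h := hF.span hl x
  have e2 : (fun i => (-(⌊x i⌋ : ℤ) : ℝ)) + x = fun i => Int.fract (x i) := by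
    funext i
    simp only [Pi.add_apply, Int.fract]
    ring
  rw [e2] at h
  exact h

/-- domination by the weight -/
private lemma mlow_dom (hf : IsClassicalSol T Q f) {T₁ : ℝ} (hT₁ : T₁ < T) :
    ∃ C, ∀ t ∈ Icc 0 T₁, ∀ x v, |f t x v| ≤ C * wt d v := by
  obtain ⟨C, hC⟩ := hf.decay T₁ hT₁ (d + 1)
  refine ⟨C, fun t ht x v => ?_⟩
  have hw := pow_pos (w_pos v) (d + 1)
  rw [abs_of_nonneg (hf.nonneg t ⟨ht.1, ht.2.trans_lt hT₁⟩ x v)]
  unfold wt
  rw [← div_eq_mul_inv, le_div_iff₀ hw, mul_comm]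
  exact hC t ht x v

/-- slices are continuous in the velocity -/
private lemma mlow_cont (hf : IsClassicalSol T Q f) {t : ℝ} (ht : t ∈ Ico 0 T) (x : Vec d) :
    Continuous (f t x) := by
  have h1 : Continuous fun v : Vec d => (t, x, v) := by fun_prop
  exact hf.isCont.comp_continuous h1 fun v => ⟨ht, mem_univ _⟩

/-- slices are integrable -/
private lemma mlow_int (hf : IsClassicalSol T Q f) {t : ℝ} (ht : t ∈ Ico 0 T) (x : Vec d) :
    Integrable (f t x) := by
  obtain ⟨C, hC⟩ := mlow_dom hf ht.2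
  refine ((integrable_wt (d := d)).const_mul C).mono' (mlow_cont hf ht x).aestronglyMeasurable
    (Eventually.of_forall fun v => ?_)
  rw [Real.norm_eq_abs]
  exact hC t ⟨ht.1, le_rfl⟩ x v

/-- the density is continuous -/
private lemma mlow_rho (hf : IsClassicalSol T Q f) {T₁ : ℝ} (hT₁ : T₁ < T) :
    ContinuousOn (fun p : ℝ × Vec d => ∫ v, f p.1 p.2 v) (Icc 0 T₁ ×ˢ univ) := by
  obtain ⟨C, hC⟩ := mlow_dom hf hT₁
  refine Pool.Agent.H15.AV.cont_int (G := f) ?_ fun t _ => ⟨Icc 0 T₁, self_mem_nhdsWithin, C, fun s hs x v => hC s hs x v⟩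
  exact hf.isCont.mono (prod_mono (fun t ht => ⟨ht.1, ht.2.trans_lt hT₁⟩) Subset.rfl)

/-- lower bound of the density for short times -/
private lemma mlow_low (hf : IsClassicalSol T Q f) (hT : 0 < T) (hpos : ∀ x, 0 < ∫ v, f 0 x v) :
    ∃ T₁ : ℝ, 0 < T₁ ∧ T₁ < T ∧ T₁ ≤ 1 ∧ ∃ m : ℝ, 0 < m ∧ ∀ t ∈ Icc 0 T₁, ∀ x : Vec d, m ≤ ∫ v, f t x v := by
  have hT2 : T / 2 < T := by linarith
  have hT0 : 0 < T / 2 := by linarith
  have hc := mlow_rho hf hT2
  set ρ : ℝ × Vec d → ℝ := fun p => ∫ v, f p.1 p.2 v with hρ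
  have hK : IsCompact (Icc (0 : ℝ) (T / 2) ×ˢ Icc (0 : Vec d) 1) := isCompact_Icc.prod isCompact_Icc
  have hcK : ContinuousOn ρ (Icc (0 : ℝ) (T / 2) ×ˢ Icc (0 : Vec d) 1) :=
    hc.mono (prod_mono Subset.rfl (subset_univ _))
  have hne : (Icc (0 : Vec d) 1).Nonempty := ⟨0, le_rfl, zero_le_one⟩
  have hmin : ∃ x₀ ∈ Icc (0 : Vec d) 1, ∀ x ∈ Icc (0 : Vec d) 1, ρ (0, x₀) ≤ ρ (0, x) := by
    have h1 : ContinuousOn (fun x : Vec d => ρ (0, x)) (Icc (0 : Vec d) 1) := by
      refine hcK.comp (by fun_prop) fun x hx => ⟨⟨le_rfl, hT0.le⟩, hx⟩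
    obtain ⟨x₀, hx₀, h2⟩ := isCompact_Icc.exists_isMinOn hne h1
    exact ⟨x₀, hx₀, fun x hx => h2 hx⟩
  obtain ⟨x₀, -, hx₀⟩ := hmin
  set m : ℝ := ρ (0, x₀) / 2 with hm
  have hm0 : 0 < m := by
    have := hpos x₀
    have h2 : 0 < ρ (0, x₀) := this
    rw [hm]
    linarith
  have hu := hK.uniformContinuousOn_of_continuous hcK
  rw [Metric.uniformContinuousOn_iff] at hu
  obtain ⟨δ, hδ, hu⟩ := hu m hm0
  refine ⟨min (min (T / 2) 1) (δ / 2), by positivity, ?_, (min_le_left _ _).trans (min_le_right _ _), m, hm0, ?_⟩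
  · exact ((min_le_left _ _).trans (min_le_left _ _)).trans_lt hT2
  · intro t ht x
    have ht1 : t ≤ T / 2 := ht.2.trans ((min_le_left _ _).trans (min_le_left _ _))
    have ht2 : t ≤ δ / 2 := ht.2.trans (min_le_right _ _)
    have htI : t ∈ Icc (0 : ℝ) (T / 2) := ⟨ht.1, ht1⟩
    have hper : Per fun x : Vec d => ∫ v, f t x v := by
      intro x i
      exact integral_congr_ae (Eventually.of_forall fun v =>
        hf.periodic t ⟨ht.1, ht1.trans_lt hT2⟩ x v i)
    obtain ⟨y, hy, hyx⟩ := mlow_per hper x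
    rw [← hyx]
    have h3 := hu (0, y) ⟨⟨le_rfl, hT0.le⟩, hy⟩ (t, y) ⟨htI, hy⟩ (by
      rw [Prod.dist_eq, dist_self, max_eq_left dist_nonneg, dist_comm, Real.dist_0_eq_abs, abs_of_nonneg ht.1]
      linarith)
    rw [Real.dist_eq] at h3
    have h4 := (abs_lt.1 h3).2
    have h5 := hx₀ y hy
    have h6 : ρ (0, x₀) = 2 * m := by rw [hm]; ring
    have h7 : m ≤ ρ (t, y) := by linarith
    exact h7

theorem mass_low (hf : IsClassicalSol T Q f) (hT : 0 < T) (hpos : ∀ x, 0 < ∫ v, f 0 x v) :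
    ∃ T₁ : ℝ, 0 < T₁ ∧ T₁ < T ∧ T₁ ≤ 1 ∧ ∃ R₁ m₁ : ℝ, 0 < m₁ ∧ ∀ t ∈ Icc 0 T₁, ∀ x η : Vec d,
      len η ≤ 1 → m₁ ≤ ∫ z in {z : Vec d | nsq z ≤ R₁ ^ 2}, f t x (z + η) := by
  obtain ⟨T₁, hT₁, hT₁T, hT₁1, m, hm, hlow⟩ := mlow_low hf hT hpos
  refine ⟨T₁, hT₁, hT₁T, hT₁1, ?_⟩
  obtain ⟨C, hC⟩ := hf.decay T₁ hT₁T (d + 1 + 2)
  set I : ℝ := ∫ v, wt d v with hI
  have hI0 : 0 ≤ I := integral_nonneg fun v => wt_nonneg v
  have hC' : ∀ t ∈ Icc 0 T₁, ∀ x v, (1 + ‖v‖) ^ (d + 1 + 2) * f t x v ≤ |C| := fun t ht x v =>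
    (hC t ht x v).trans (le_abs_self C)
  -- the radius
  obtain ⟨R, hR0, hR⟩ : ∃ R : ℝ, 1 ≤ R ∧ |C| * d * I ≤ m / 2 * R ^ 2 := by
    refine ⟨1 + |C| * d * I * (2 / m), by have : 0 ≤ |C| * d * I * (2 / m) := by positivity
                                          linarith, ?_⟩
    have h0 : 0 ≤ |C| * d * I := by positivity
    have h1 : 0 ≤ |C| * d * I * (2 / m) := by positivity
    have h2 : m / 2 * (|C| * d * I * (2 / m)) = |C| * d * I := by field_simp
    have h3 : 1 + |C| * d * I * (2 / m) ≤ (1 + |C| * d * I * (2 / m)) ^ 2 := by nlinarith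
    have h4 : m / 2 * (1 + |C| * d * I * (2 / m)) ≤ m / 2 * (1 + |C| * d * I * (2 / m)) ^ 2 :=
      mul_le_mul_of_nonneg_left h3 (by positivity)
    nlinarith
  have hRp : 0 < R := by linarith
  refine ⟨R + 1, m / 2, by positivity, fun t ht x η hη => ?_⟩
  have htI : t ∈ Ico 0 T := ⟨ht.1, ht.2.trans_lt hT₁T⟩
  have hfi := mlow_int hf htI x
  have hf0 : ∀ v, 0 ≤ f t x v := hf.nonneg t htI x
  set A : Set (Vec d) := {u : Vec d | nsq u ≤ R ^ 2} with hA
  have hAm : MeasurableSet A := (isClosed_le continuous_sq continuous_const).measurableSet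
  -- the tail
  have htail : ∫ u in Aᶜ, f t x u ≤ m / 2 := by
    have h1 : ∀ u ∈ Aᶜ, f t x u ≤ |C| * d / R ^ 2 * wt d u := by
      intro u hu
      have hu1 : R ^ 2 < nsq u := lt_of_not_ge hu
      have hu2 := sq_le u
      have hn := norm_nonneg u
      have hd0 : (0 : ℝ) ≤ d := Nat.cast_nonneg d
      have hu3 : R ^ 2 ≤ d * (1 + ‖u‖) ^ 2 := by
        have h5 : (d : ℝ) * ‖u‖ ^ 2 ≤ d * (1 + ‖u‖) ^ 2 :=
          mul_le_mul_of_nonneg_left (by nlinarith) hd0
        linarith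
      have h2 := hC' t ht x u
      have hw := pow_pos (w_pos u) (d + 1)
      have hR2 : 0 < R ^ 2 := by positivity
      unfold wt
      rw [← div_eq_mul_inv, le_div_iff₀ hw, le_div_iff₀ hR2]
      have h0 := hf0 u
      calc f t x u * (1 + ‖u‖) ^ (d + 1) * R ^ 2
          ≤ f t x u * (1 + ‖u‖) ^ (d + 1) * (d * (1 + ‖u‖) ^ 2) :=
            mul_le_mul_of_nonneg_left hu3 (mul_nonneg h0 hw.le)
        _ = d * ((1 + ‖u‖) ^ (d + 1 + 2) * f t x u) := by rw [pow_add (1 + ‖u‖) (d + 1) 2]; ring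
        _ ≤ d * |C| := mul_le_mul_of_nonneg_left h2 hd0
        _ = |C| * d := mul_comm _ _
    have h2 : ∫ u in Aᶜ, f t x u ≤ ∫ u in Aᶜ, |C| * d / R ^ 2 * wt d u :=
      setIntegral_mono_on hfi.integrableOn ((integrable_wt.const_mul _).integrableOn) hAm.compl h1
    have h3 : ∫ u in Aᶜ, |C| * d / R ^ 2 * wt d u ≤ ∫ u, |C| * d / R ^ 2 * wt d u :=
      setIntegral_le_integral (integrable_wt.const_mul _) (Eventually.of_forall fun v =>
        mul_nonneg (by positivity) (wt_nonneg v))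
    have h4 : ∫ u, |C| * d / R ^ 2 * wt d u = |C| * d / R ^ 2 * I := integral_const_mul _ _
    have h5 : |C| * d / R ^ 2 * I ≤ m / 2 := by
      rw [div_mul_eq_mul_div, div_le_iff₀ (by positivity)]
      exact hR
    linarith
  have hmain : m / 2 ≤ ∫ u in A, f t x u := by
    have h1 := integral_add_compl hAm hfi
    have h2 := hlow t ht x
    linarith
  refine hmain.trans ?_
  have hB : MeasurableSet {z : Vec d | nsq z ≤ (R + 1) ^ 2} :=
    (isClosed_le continuous_sq continuous_const).measurableSet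
  rw [← integral_indicator hAm, ← integral_indicator hB,
    ← integral_add_right_eq_self (fun u => A.indicator (f t x) u) η]
  have hfi' : Integrable fun z => f t x (z + η) := hfi.comp_add_right η
  refine integral_mono ((hfi.indicator hAm).comp_add_right η) (hfi'.indicator hB) fun z => ?_
  show A.indicator (f t x) (z + η) ≤ {z : Vec d | nsq z ≤ (R + 1) ^ 2}.indicator (fun z => f t x (z + η)) z
  by_cases hz : z + η ∈ A
  · have h1 : len (z + η) ≤ R := by
      have h2 : len (z + η) ^ 2 ≤ R ^ 2 := by rw [len_sq]; exact hz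
      exact (pow_le_pow_iff_left₀ (len_nonneg _) hRp.le two_ne_zero).1 h2
    have h3 : len z ≤ R + 1 := by
      have h4 := len_sub_le (z + η) η
      rw [add_sub_cancel_right] at h4
      linarith
    have h5 : z ∈ {z : Vec d | nsq z ≤ (R + 1) ^ 2} := by
      show nsq z ≤ (R + 1) ^ 2
      rw [← len_sq]
      exact pow_le_pow_left₀ (len_nonneg z) h3 2
    rw [indicator_of_mem hz, indicator_of_mem h5]
  · rw [indicator_of_notMem hz]
    exact indicator_nonneg (fun z _ => hf0 _) z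


end Pool.Agent.H48.PR
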