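import Pool.Agent.H48.PR.Gal

/-!
# Module One: one sided Hoelder bounds at a touching point

Put `y = x+ξ+tη`, `w = v+η`, `F = f t x`, `G = f t y (·+η)`, `ω = om δ α ξ η`, `W = Wp p`. Hypothesis `hB`: `|f t y' w' - f t x' v'| ≤ L om(ξ',η') W(v')` for all `y' = x'+ξ'+tη'`, `w' = v'+η'`, `len η' ≤ 1`.
LIP: `|om(ξ',η') - om(ξ,η)| ≤ (nsq(ξ'-ξ) + nsq(η'-η))^(α/2)` (`|√(δ²+|a|²) - √(δ²+|b|²)| ≤ |a-b|`, `|x^α - y^α| ≤ |x-y|^α`, `0 < α ≤ 1`); for `(ξ',η') = (ξ∓t h, η±h)`, `0 ≤ t ≤ 1`: `≤ (2 nsq h)^(α/2) ≤ 2 (len h)^α`.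
Let `len η ≤ 1/2`, `len h ≤ 1/2`.
* sign `+` (`G(v)-F(v) = L ω W(v)`): `(x,v),(y,w+h)`: `ξ' = ξ - t h`, `η' = η + h`: `G(v+h) - F(v) ≤ L om(ξ',η') W(v)`, so `G(v+h)-G(v) ≤ 2L (len h)^α W(v)`. `(x,v+h),(y,w)`: `ξ' = ξ + t h`, `η' = η - h`: `G(v) - F(v+h) ≤ L om(ξ',η') W(v+h)`, so
  `F(v)-F(v+h) ≤ L[om(ξ',η')W(v+h) - ωW(v)] ≤ L[2(len h)^α W(v+h) + ω (W(v+h)-W(v))⁺] ≤ K L (len h)^α W(v)` (`W(v+h) ≤ 4^p W(v)`, `|W(v+h)-W(v)| ≤ K len h W(v)`, `ω ≤ 3`, `len h ≤ (len h)^α`).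
* sign `-`: the roles of `F` and `G` are exchanged (second statement); the same four comparisons.
INTERPOLATION (`θ = α'/α < 1`): for `len h ≤ 1/2` also `G(v+h)-G(v) ≤ G(v+h) ≤ C_q W_q(v)` for every `q` (`FB`), so `G(v+h)-G(v) ≤ (K L (len h)^α W(v))^θ (C_q W_q(v))^(1-θ) ≤ Γ (len h)^(α') W_{p+2}(v)` if `pθ + q(1-θ) ≥ p+2`; the same for `F(v)-F(v+h) ≤ F(v)`.
For `len h ≥ 1/2`: `min 1 (len h)^α' ≥ 1/2`, `G(v+h)-G(v) ≤ G(v+h) ≤ C W_{p+2}(v+h)`, `F(v)-F(v+h) ≤ F(v) ≤ C W_{p+2}(v)`.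
The constants of `FB` for `G` and `F` in the conclusion are `2^N Cl N` (`FB_trn`; `Cl N ≥ 0`).
-/

set_option autoImplicit false

open MeasureTheory Set Filter Topology Pool.Agent.H25.Kin Pool.Agent.H48.PL Pool.Agent.H48.PD
open Pool.Agent.H82.BK

namespace Pool.Agent.H48.PR

variable {d : ℕ}

private lemma one_dot_le {u v : Vec d} : dot u v ≤ len u * len v := by
  have h1 := dot_sq_le u v
  rw [← len_sq u, ← len_sq v, ← mul_pow] at h1
  exact (le_abs_self _).trans (abs_le_of_sq_le_sq h1 (mul_nonneg (len_nonneg u) (len_nonneg v)))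

/-- weights at neighbouring points are comparable -/
private lemma one_W (p : ℕ) {v h : Vec d} (hh : len h ≤ 1 / 2) :
    Wp p (v + h) ≤ 2 ^ p * Wp p v := by
  have hv := sq_nonneg' v
  have hvh := sq_nonneg' (v + h)
  have h2 : nsq h ≤ 1 / 4 := by
    rw [← len_sq]
    nlinarith [len_nonneg h]
  have h1 : 1 + nsq v ≤ 2 * (1 + nsq (v + h)) := by
    have h3 := nsq_par (v + h) h
    have h4 := sq_nonneg' (v + h + h)
    rw [add_sub_cancel_right] at h3
    linarith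
  have h5 : (1 + nsq v) ^ p ≤ 2 ^ p * (1 + nsq (v + h)) ^ p := by
    rw [← mul_pow]
    exact pow_le_pow_left₀ (by linarith) h1 p
  unfold Wp
  rw [← div_eq_mul_inv, inv_eq_one_div, div_le_div_iff₀ (by positivity) (by positivity)]
  linarith

/-- the increments of the weight -/
private lemma one_Wd (p : ℕ) {v h : Vec d} (hh : len h ≤ 1 / 2) :
    Wp p (v + h) - Wp p v ≤ 2 * p * 2 ^ p * len h * Wp p v := by
  have hl := len_nonneg h
  have hv := sq_nonneg' v
  have hvh := sq_nonneg' (v + h)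
  have hW := Wp_pos p v
  have hW' := Wp_pos p (v + h)
  set a := 1 + nsq v with ha
  set b := 1 + nsq (v + h) with hb
  have ha1 : 1 ≤ a := by linarith
  have hb1 : 1 ≤ b := by linarith
  -- `a - b ≤ 2 a |h|`
  have h1 : a - b ≤ 2 * a * len h := by
    have e1 : nsq (v + h) = nsq v + 2 * dot v h + nsq h := nsq_add v h
    have e2 : -dot v h ≤ len v * len h := by
      have h3 := one_dot_le (u := v) (v := -h)
      rw [len_neg] at h3
      have e3 : dot v (-h) = - dot v h := by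
        unfold dot
        simp
      linarith
    have e4 : 2 * len v ≤ a := by
      have := len_sq v
      nlinarith [sq_nonneg (len v - 1)]
    have e5 : 2 * (len v * len h) ≤ a * len h := by nlinarith
    have e6 := sq_nonneg' h
    have e7 : 0 ≤ a * len h := by positivity
    linarith
  -- Bernoulli
  have h2 : a ^ p - b ^ p ≤ p * a ^ p * (2 * len h) := by
    have hba : -2 ≤ b / a - 1 := by
      have : 0 ≤ b / a := by positivity
      linarith
    have h3 := one_add_mul_le_pow hba p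
    have e1 : (1 + (b / a - 1)) ^ p * a ^ p = b ^ p := by
      rw [← mul_pow]
      congr 1
      field_simp
      ring
    have h4 : (1 + (p : ℝ) * (b / a - 1)) * a ^ p ≤ b ^ p := by
      rw [← e1]
      exact mul_le_mul_of_nonneg_right h3 (by positivity)
    have h5 : 1 - b / a ≤ 2 * len h := by
      rw [← div_self (by positivity : a ≠ 0), ← sub_div, div_le_iff₀ (by positivity)]
      linarith
    have h6 : (p : ℝ) * a ^ p * (1 - b / a) ≤ p * a ^ p * (2 * len h) :=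
      mul_le_mul_of_nonneg_left h5 (by positivity)
    have h7 : (1 + (p : ℝ) * (b / a - 1)) * a ^ p = a ^ p - p * a ^ p * (1 - b / a) := by ring
    linarith
  have h3 : Wp p (v + h) - Wp p v ≤ p * (2 * len h) * Wp p (v + h) := by
    unfold Wp
    rw [← ha, ← hb]
    have e1 : (b ^ p)⁻¹ - (a ^ p)⁻¹ = (a ^ p - b ^ p) * ((a ^ p)⁻¹ * (b ^ p)⁻¹) := by
      field_simp
    have e2 : p * (2 * len h) * (b ^ p)⁻¹ =
        (p * a ^ p * (2 * len h)) * ((a ^ p)⁻¹ * (b ^ p)⁻¹) := by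
      field_simp
    rw [e1, e2]
    exact mul_le_mul_of_nonneg_right h2 (by positivity)
  have h4 := one_W p (v := v) hh
  calc Wp p (v + h) - Wp p v ≤ p * (2 * len h) * Wp p (v + h) := h3
    _ ≤ p * (2 * len h) * (2 ^ p * Wp p v) := mul_le_mul_of_nonneg_left h4 (by positivity)
    _ = 2 * p * 2 ^ p * len h * Wp p v := by ring

/-- the modulus of neighbouring shifts -/
private lemma one_om {δ α : ℝ} (ha : 0 < α) (ha1 : α ≤ 1) (ξ η ξ' η' : Vec d) :
    om δ α (ξ + ξ') (η + η') ≤ om δ α ξ η + (nsq ξ' + nsq η') ^ (α / 2) := by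
  have q1 := sq_nonneg' ξ
  have q2 := sq_nonneg' η
  have q3 := sq_nonneg' ξ'
  have q4 := sq_nonneg' η'
  have q5 := sq_nonneg' (ξ + ξ')
  have q6 := sq_nonneg' (η + η')
  have hr : ∀ z : ℝ, 0 ≤ z → z ^ (α / 2) = (Real.sqrt z) ^ α := by
    intro z hz
    rw [Real.sqrt_eq_rpow, ← Real.rpow_mul hz]
    congr 1
    ring
  unfold om
  rw [hr _ (by positivity), hr _ (by positivity), hr _ (by positivity)]
  set B := Real.sqrt (δ ^ 2 + nsq ξ + nsq η) with hB
  set C := Real.sqrt (nsq ξ' + nsq η') with hC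
  have hB0 : 0 ≤ B := Real.sqrt_nonneg _
  have hC0 : 0 ≤ C := Real.sqrt_nonneg _
  have hB2 : B ^ 2 = δ ^ 2 + nsq ξ + nsq η := Real.sq_sqrt (by positivity)
  have hC2 : C ^ 2 = nsq ξ' + nsq η' := Real.sq_sqrt (by positivity)
  have h1 : Real.sqrt (δ ^ 2 + nsq (ξ + ξ') + nsq (η + η')) ≤ B + C := by
    apply Real.sqrt_le_iff.2
    refine ⟨by linarith, ?_⟩
    have e1 := nsq_add ξ ξ'
    have e2 := nsq_add η η'
    have e3 := one_dot_le (u := ξ) (v := ξ')
    have e4 := one_dot_le (u := η) (v := η')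
    have l1 := len_nonneg ξ
    have l2 := len_nonneg η
    have l3 := len_nonneg ξ'
    have l4 := len_nonneg η'
    have s1 := len_sq ξ
    have s2 := len_sq η
    have s3 := len_sq ξ'
    have s4 := len_sq η'
    have e5 : len ξ * len ξ' + len η * len η' ≤ B * C := by
      apply abs_le_of_sq_le_sq' ?_ (by positivity) |>.2
      have : (B * C) ^ 2 = (δ ^ 2 + nsq ξ + nsq η) * (nsq ξ' + nsq η') := by
        rw [mul_pow, hB2, hC2]
      rw [this, ← s1, ← s2, ← s3, ← s4]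
      nlinarith [sq_nonneg (len ξ * len η' - len η * len ξ'), sq_nonneg δ,
        mul_nonneg (sq_nonneg δ) (sq_nonneg (len ξ')), mul_nonneg (sq_nonneg δ) (sq_nonneg (len η'))]
    nlinarith
  calc Real.sqrt (δ ^ 2 + nsq (ξ + ξ') + nsq (η + η')) ^ α ≤ (B + C) ^ α :=
        Real.rpow_le_rpow (Real.sqrt_nonneg _) h1 ha.le
    _ ≤ B ^ α + C ^ α := Real.rpow_add_le_add_rpow hB0 hC0 ha.le ha1

/-- the modulus of the shifts used in the proof -/
private lemma one_omt {δ α t : ℝ} (ha : 0 < α) (ha1 : α ≤ 1) (h0 : 0 ≤ t) (h1 : t ≤ 1)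
    (ξ η h : Vec d) (ξ' η' : Vec d) (e1 : nsq ξ' = t ^ 2 * nsq h) (e2 : nsq η' = nsq h) :
    om δ α (ξ + ξ') (η + η') ≤ om δ α ξ η + 2 * len h ^ α := by
  refine (one_om ha ha1 ξ η ξ' η').trans ?_
  have q := sq_nonneg' h
  have hle : nsq ξ' + nsq η' ≤ 2 * nsq h := by
    rw [e1, e2]
    have : t ^ 2 ≤ 1 := by nlinarith
    nlinarith
  have h3 : (nsq ξ' + nsq η') ^ (α / 2) ≤ (2 * nsq h) ^ (α / 2) :=
    Real.rpow_le_rpow (by rw [e1, e2]; positivity) hle (by linarith)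
  have h4 : (2 * nsq h) ^ (α / 2) ≤ 2 * len h ^ α := by
    rw [Real.mul_rpow (by norm_num) q]
    have h5 : nsq h ^ (α / 2) = len h ^ α := by
      unfold len
      rw [Real.sqrt_eq_rpow, ← Real.rpow_mul q]
      congr 1
      ring
    have h6 : (2 : ℝ) ^ (α / 2) ≤ 2 := by
      calc (2 : ℝ) ^ (α / 2) ≤ (2 : ℝ) ^ (1 : ℝ) :=
            Real.rpow_le_rpow_of_exponent_le (by norm_num) (by linarith)
        _ = 2 := Real.rpow_one 2
    rw [h5]
    exact mul_le_mul_of_nonneg_right h6 (Real.rpow_nonneg (len_nonneg h) _)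
  linarith

/-- interpolation between a Hoelder bound and a decay bound -/
private lemma one_interp {a r α α' K K' D : ℝ} (p m : ℕ) (ha : 1 ≤ a) (hr : 0 ≤ r) (hr1 : r ≤ 1)
    (h0 : 0 < α') (h1 : α' < α) (hm : α' / (α - α') ≤ m) (hK : 0 ≤ K) (hK' : 0 ≤ K')
    (hA : D ≤ K * r ^ α * (a ^ p)⁻¹) (hB : D ≤ K' * (a ^ (p + 2 + 2 * m))⁻¹) :
    D ≤ (K + K') * r ^ α' * (a ^ (p + 2))⁻¹ := by
  have hap : 0 < a := by linarith
  have hra : 0 ≤ r ^ α' := Real.rpow_nonneg hr _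
  have hrb : 0 ≤ r ^ (α - α') := Real.rpow_nonneg hr _
  have hnn1 : 0 ≤ K * r ^ α' * (a ^ (p + 2))⁻¹ := by positivity
  have hnn2 : 0 ≤ K' * r ^ α' * (a ^ (p + 2))⁻¹ := by positivity
  have hsp : (K + K') * r ^ α' * (a ^ (p + 2))⁻¹ =
      K * r ^ α' * (a ^ (p + 2))⁻¹ + K' * r ^ α' * (a ^ (p + 2))⁻¹ := by ring
  rcases le_or_gt (r ^ (α - α')) ((a ^ 2)⁻¹) with hc | hc
  · have h2 : r ^ α = r ^ (α - α') * r ^ α' := by
      rw [← Real.rpow_add_of_nonneg hr (by linarith) h0.le]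
      congr 1
      ring
    have h3 : K * r ^ α * (a ^ p)⁻¹ ≤ K * r ^ α' * (a ^ (p + 2))⁻¹ := by
      rw [h2]
      calc K * (r ^ (α - α') * r ^ α') * (a ^ p)⁻¹ = (K * r ^ α' * (a ^ p)⁻¹) * r ^ (α - α') := by
            ring
        _ ≤ (K * r ^ α' * (a ^ p)⁻¹) * (a ^ 2)⁻¹ := mul_le_mul_of_nonneg_left hc (by positivity)
        _ = K * r ^ α' * (a ^ (p + 2))⁻¹ := by
            rw [pow_add, mul_inv]
            ring
    linarith
  · have h2 : ((a ^ 2)⁻¹) ^ m ≤ (r ^ (α - α')) ^ m := pow_le_pow_left₀ (by positivity) hc.le m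
    have h3 : (r ^ (α - α')) ^ m = r ^ ((α - α') * m) := by
      rw [Real.rpow_mul hr, Real.rpow_natCast]
    have hrp : 0 < r := by
      rcases hr.eq_or_lt with h | h
      · rw [← h, Real.zero_rpow (by linarith)] at hc
        exact absurd hc (not_lt.2 (by positivity))
      · exact h
    have h4 : r ^ ((α - α') * m) ≤ r ^ α' := by
      apply Real.rpow_le_rpow_of_exponent_ge hrp hr1
      rw [div_le_iff₀ (by linarith)] at hm
      linarith
    have h5 : (a ^ (2 * m))⁻¹ ≤ r ^ α' := by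
      rw [pow_mul, ← inv_pow]
      linarith
    have h6 : K' * (a ^ (p + 2 + 2 * m))⁻¹ ≤ K' * r ^ α' * (a ^ (p + 2))⁻¹ := by
      calc K' * (a ^ (p + 2 + 2 * m))⁻¹ = (K' * (a ^ (p + 2))⁻¹) * (a ^ (2 * m))⁻¹ := by
            rw [pow_add a (p + 2) (2 * m), mul_inv]
            ring
        _ ≤ (K' * (a ^ (p + 2))⁻¹) * r ^ α' := mul_le_mul_of_nonneg_left h5 (by positivity)
        _ = K' * r ^ α' * (a ^ (p + 2))⁻¹ := by ring
    linarith

/-- decay of a function of the class `FB` in terms of the weight -/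
private lemma one_dec {C : ℕ → ℝ} {g : Vec d → ℝ} (hg : FB C g) (q : ℕ) (v : Vec d) :
    g v ≤ |(d + 1) ^ q * C (2 * q)| * Wp q v := by
  have h1 : 1 + nsq v ≤ (d + 1) * (1 + ‖v‖) ^ 2 := by
    have h2 := sq_le v
    have h3 := norm_nonneg v
    have h4 : (0 : ℝ) ≤ d := Nat.cast_nonneg d
    nlinarith [mul_nonneg h4 h3]
  have hv := sq_nonneg' v
  have h2 : (1 + nsq v) ^ q ≤ (d + 1) ^ q * (1 + ‖v‖) ^ (2 * q) := by
    rw [pow_mul, ← mul_pow]
    exact pow_le_pow_left₀ (by linarith) h1 q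
  have h3 : g v * (1 + nsq v) ^ q ≤ (d + 1) ^ q * C (2 * q) := by
    calc g v * (1 + nsq v) ^ q ≤ g v * ((d + 1) ^ q * (1 + ‖v‖) ^ (2 * q)) :=
          mul_le_mul_of_nonneg_left h2 (hg.nonneg v)
      _ = (d + 1) ^ q * ((1 + ‖v‖) ^ (2 * q) * g v) := by ring
      _ ≤ (d + 1) ^ q * C (2 * q) := mul_le_mul_of_nonneg_left (hg.le _ _) (by positivity)
  unfold Wp
  rw [← div_eq_mul_inv, le_div_iff₀ (by positivity)]
  exact h3.trans (le_abs_self _)

/-- from the raw one sided bounds at small distance to the bounds of `TP` -/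
private lemma one_fin {C : ℕ → ℝ} {α α' K : ℝ} {p m : ℕ} (h0 : 0 < α') (h1 : α' < α) (h2 : α ≤ 1)
    (hm : α' / (α - α') ≤ m) (hK : 0 ≤ K) {F G : Vec d → ℝ} (hF : FB C F) (hG : FB C G) {v : Vec d}
    (rG : ∀ h, len h ≤ 1 / 2 → G (v + h) - G v ≤ K * len h ^ α * Wp p v)
    (rF : ∀ h, len h ≤ 1 / 2 → F v - F (v + h) ≤ K * len h ^ α * Wp p v) :
    (∀ h, G (v + h) - G v ≤ (K + 2 ^ (p + 2 + 2 * m) * |(d + 1) ^ (p + 2 + 2 * m) * C (2 * (p + 2 + 2 * m))| +
      2 * |(d + 1) ^ (p + 2) * C (2 * (p + 2))|) * min 1 (len h) ^ α' *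
        (Wp (p + 2) v + Wp (p + 2) (v + h))) ∧
    (∀ h, F v - F (v + h) ≤ (K + 2 ^ (p + 2 + 2 * m) * |(d + 1) ^ (p + 2 + 2 * m) * C (2 * (p + 2 + 2 * m))| +
      2 * |(d + 1) ^ (p + 2) * C (2 * (p + 2))|) * min 1 (len h) ^ α' * Wp (p + 2) v) := by
  set q := p + 2 + 2 * m with hq
  set Cq := |(d + 1) ^ q * C (2 * q)| with hCq
  set C2 := |(d + 1) ^ (p + 2) * C (2 * (p + 2))| with hC2
  have hCq0 : 0 ≤ Cq := abs_nonneg _
  have hC20 : 0 ≤ C2 := abs_nonneg _
  have ha1 : 1 ≤ 1 + nsq v := by linarith [sq_nonneg' v]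
  have h2q : (1 : ℝ) ≤ 2 ^ q := one_le_pow₀ (by norm_num)
  have hbig : ∀ h : Vec d, 1 / 2 < len h → 1 ≤ 2 * min 1 (len h) ^ α' := by
    intro h hh
    have h3 : (1 / 2 : ℝ) ≤ min 1 (len h) := le_min (by norm_num) hh.le
    have h4 : (1 / 2 : ℝ) ^ α' ≤ min 1 (len h) ^ α' := Real.rpow_le_rpow (by norm_num) h3 h0.le
    have h5 : (1 / 2 : ℝ) ≤ (1 / 2 : ℝ) ^ α' := by
      calc (1 / 2 : ℝ) = (1 / 2 : ℝ) ^ (1 : ℝ) := (Real.rpow_one _).symm
        _ ≤ (1 / 2 : ℝ) ^ α' :=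
            Real.rpow_le_rpow_of_exponent_ge (by norm_num) (by norm_num) (by linarith)
    linarith
  have hmin : ∀ h : Vec d, 0 ≤ min 1 (len h) ^ α' := fun h =>
    Real.rpow_nonneg (le_min zero_le_one (len_nonneg h)) _
  constructor
  · intro h
    have w1 := Wp_pos (p + 2) v
    have w2 := Wp_pos (p + 2) (v + h)
    have hm0 := hmin h
    rcases le_or_gt (len h) (1 / 2) with hh | hh
    · have e1 : min 1 (len h) = len h := min_eq_right (by linarith)
      rw [e1] at hm0 ⊢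
      have hA := rG h hh
      have hB : G (v + h) - G v ≤ (2 ^ q * Cq) * Wp q v := by
        have i1 := one_dec hG q (v + h)
        have i2 := one_W q (v := v) hh
        have i3 := hG.nonneg v
        have i4 : Cq * Wp q (v + h) ≤ Cq * (2 ^ q * Wp q v) := mul_le_mul_of_nonneg_left i2 hCq0
        have i5 : Cq * (2 ^ q * Wp q v) = (2 ^ q * Cq) * Wp q v := by ring
        linarith
      have h3 := one_interp (a := 1 + nsq v) (D := G (v + h) - G v) p m ha1 (len_nonneg h)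
        (by linarith) h0 h1 hm hK (by positivity : 0 ≤ 2 ^ q * Cq) hA hB
      refine h3.trans ?_
      have e2 : ((1 + nsq v) ^ (p + 2))⁻¹ = Wp (p + 2) v := rfl
      rw [e2]
      have h4 : (K + 2 ^ q * Cq) * len h ^ α' * Wp (p + 2) v ≤
          (K + 2 ^ q * Cq + 2 * C2) * len h ^ α' * Wp (p + 2) v :=
        mul_le_mul_of_nonneg_right (mul_le_mul_of_nonneg_right (by linarith) hm0) w1.le
      refine h4.trans ?_
      exact mul_le_mul_of_nonneg_left (by linarith) (by positivity)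
    · have h3 := hbig h hh
      have i1 := one_dec hG (p + 2) (v + h)
      have i3 := hG.nonneg v
      have h4 : C2 * Wp (p + 2) (v + h) ≤ (2 * min 1 (len h) ^ α') * (C2 * Wp (p + 2) (v + h)) := by
        have : 0 ≤ C2 * Wp (p + 2) (v + h) := by positivity
        nlinarith
      have h5 : (2 * min 1 (len h) ^ α') * (C2 * Wp (p + 2) (v + h)) =
          (2 * C2) * min 1 (len h) ^ α' * Wp (p + 2) (v + h) := by ring
      have h6 : (2 * C2) * min 1 (len h) ^ α' * Wp (p + 2) (v + h) ≤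
          (K + 2 ^ q * Cq + 2 * C2) * min 1 (len h) ^ α' * (Wp (p + 2) v + Wp (p + 2) (v + h)) := by
        gcongr
        · have : 0 ≤ 2 ^ q * Cq := by positivity
          linarith
        · linarith
      linarith
  · intro h
    have w1 := Wp_pos (p + 2) v
    have hm0 := hmin h
    rcases le_or_gt (len h) (1 / 2) with hh | hh
    · have e1 : min 1 (len h) = len h := min_eq_right (by linarith)
      rw [e1] at hm0 ⊢
      have hA := rF h hh
      have hB : F v - F (v + h) ≤ (2 ^ q * Cq) * Wp q v := by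
        have i1 := one_dec hF q v
        have i3 := hF.nonneg (v + h)
        have i4 : Cq * Wp q v ≤ (2 ^ q * Cq) * Wp q v := by
          have : 0 ≤ Cq * Wp q v := mul_nonneg hCq0 (Wp_pos q v).le
          nlinarith
        linarith
      have h3 := one_interp (a := 1 + nsq v) (D := F v - F (v + h)) p m ha1 (len_nonneg h)
        (by linarith) h0 h1 hm hK (by positivity : 0 ≤ 2 ^ q * Cq) hA hB
      refine h3.trans ?_
      have e2 : ((1 + nsq v) ^ (p + 2))⁻¹ = Wp (p + 2) v := rfl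
      rw [e2]
      exact mul_le_mul_of_nonneg_right (mul_le_mul_of_nonneg_right (by linarith) hm0) w1.le
    · have h3 := hbig h hh
      have i1 := one_dec hF (p + 2) v
      have i3 := hF.nonneg (v + h)
      have h4 : C2 * Wp (p + 2) v ≤ (2 * min 1 (len h) ^ α') * (C2 * Wp (p + 2) v) := by
        have : 0 ≤ C2 * Wp (p + 2) v := by positivity
        nlinarith
      have h5 : (2 * min 1 (len h) ^ α') * (C2 * Wp (p + 2) v) =
          (2 * C2) * min 1 (len h) ^ α' * Wp (p + 2) v := by ring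
      have h6 : (2 * C2) * min 1 (len h) ^ α' * Wp (p + 2) v ≤
          (K + 2 ^ q * Cq + 2 * C2) * min 1 (len h) ^ α' * Wp (p + 2) v := by
        gcongr
        have : 0 ≤ 2 ^ q * Cq := by positivity
        linarith
      linarith

theorem one_side (Cl : ℕ → ℝ) (p : ℕ) {α α' : ℝ} (h0 : 0 < α') (h1 : α' < α) (h2 : α ≤ 1) {L : ℝ}
    (hL : 0 ≤ L) : ∃ Γ : ℝ, 0 ≤ Γ ∧ ∀ (f : ℝ → Vec d → Vec d → ℝ) (t δ : ℝ), 0 ≤ t → t ≤ 1 →
      0 < δ → δ ≤ 1 → (∀ x, FB Cl (f t x)) → ∀ L' : ℝ, 0 ≤ L' → L' ≤ L →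
      (∀ x v ξ η : Vec d, len η ≤ 1 → |Ph f t x v ξ η| ≤ L' * om δ α ξ η * Wp p v) →
      ∀ x v ξ η : Vec d, nsq ξ + nsq η ≤ 1 / 4 →
      (Ph f t x v ξ η = L' * om δ α ξ η * Wp p v →
        TP (fun N => 2 ^ N * Cl N) p α' Γ (L' * om δ α ξ η) (f t x)
          (fun u => f t (x + ξ + t • η) (u + η)) v) ∧
      (-Ph f t x v ξ η = L' * om δ α ξ η * Wp p v →
        TP (fun N => 2 ^ N * Cl N) p α' Γ (L' * om δ α ξ η)
          (fun u => f t (x + ξ + t • η) (u + η)) (f t x) v) := by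
  obtain ⟨m, hm⟩ := exists_nat_ge (α' / (α - α'))
  have hα0 : 0 < α := h0.trans h1
  set K : ℝ := L * (2 ^ p * (2 + 4 * p)) with hK
  have hK0 : 0 ≤ K := by positivity
  set C' : ℕ → ℝ := fun N => 2 ^ N * Cl N with hC'
  refine ⟨K + 2 ^ (p + 2 + 2 * m) * |(d + 1) ^ (p + 2 + 2 * m) * C' (2 * (p + 2 + 2 * m))| +
      2 * |(d + 1) ^ (p + 2) * C' (2 * (p + 2))|, by positivity, ?_⟩
  intro f t δ ht0 ht1 hδ hδ1 hFB L' hL' hL'L hB x v ξ η hsm
  have qξ := sq_nonneg' ξ
  have qη := sq_nonneg' η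
  have hη : len η ≤ 1 / 2 := by
    unfold len
    rw [Real.sqrt_le_left (by norm_num)]
    norm_num
    linarith
  have hη1 : len η ≤ 1 := by linarith
  set F := f t x with hFd
  set G : Vec d → ℝ := fun u => f t (x + ξ + t • η) (u + η) with hGd
  set ω := om δ α ξ η with hω
  have hω0 : 0 < ω := om_pos hδ ξ η
  have hω2 : ω ≤ 2 := by
    have h3 : δ ^ 2 + nsq ξ + nsq η ≤ 2 := by nlinarith
    calc ω ≤ (2 : ℝ) ^ (α / 2) := Real.rpow_le_rpow (by positivity) h3 (by linarith)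
      _ ≤ (2 : ℝ) ^ (1 : ℝ) := Real.rpow_le_rpow_of_exponent_le (by norm_num) (by linarith)
      _ = 2 := Real.rpow_one 2
  have hCl : ∀ N, 0 ≤ Cl N := fun N =>
    le_trans (mul_nonneg (by positivity) ((hFB x).nonneg 0)) ((hFB x).le N 0)
  have hF : FB C' F := by
    refine ⟨(hFB x).nice, (hFB x).nonneg, fun N u => ((hFB x).le N u).trans ?_⟩
    have : (1 : ℝ) ≤ 2 ^ N := one_le_pow₀ (by norm_num)
    have := hCl N
    simp only [hC']
    nlinarith
  have hG : FB C' G := FB_trn (hFB _) hη1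
  have hdif : ∀ u, |G u - F u| ≤ L' * ω * Wp p u := fun u => hB x u ξ η hη1
  -- the two comparisons
  have c1 : ∀ h : Vec d, len h ≤ 1 / 2 → |G (v + h) - F v| ≤ L' * (ω + 2 * len h ^ α) * Wp p v := by
    intro h hh
    have h3 := hB x v (ξ + -(t • h)) (η + h) ((len_add_le η h).trans (by linarith))
    have e : Ph f t x v (ξ + -(t • h)) (η + h) = G (v + h) - F v := by
      unfold Ph
      have e1 : x + (ξ + -(t • h)) + t • (η + h) = x + ξ + t • η := by module
      have e2 : v + (η + h) = v + h + η := by module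
      rw [e1, e2]
    rw [e] at h3
    refine h3.trans ?_
    have h4 : om δ α (ξ + -(t • h)) (η + h) ≤ ω + 2 * len h ^ α :=
      one_omt hα0 h2 ht0 ht1 ξ η h _ _ (by rw [← neg_smul, nsq_smul]; ring) rfl
    have := Wp_pos p v
    gcongr
  have c2 : ∀ h : Vec d, len h ≤ 1 / 2 → |G v - F (v + h)| ≤ L' * (ω + 2 * len h ^ α) * Wp p (v + h) := by
    intro h hh
    have h3 := hB x (v + h) (ξ + t • h) (η + -h)
      ((len_add_le η (-h)).trans (by rw [len_neg]; linarith))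
    have e : Ph f t x (v + h) (ξ + t • h) (η + -h) = G v - F (v + h) := by
      unfold Ph
      have e1 : x + (ξ + t • h) + t • (η + -h) = x + ξ + t • η := by module
      have e2 : v + h + (η + -h) = v + η := by module
      rw [e1, e2]
    rw [e] at h3
    refine h3.trans ?_
    have h4 : om δ α (ξ + t • h) (η + -h) ≤ ω + 2 * len h ^ α :=
      one_omt hα0 h2 ht0 ht1 ξ η h _ _ (by rw [nsq_smul]) (by
        rw [← neg_one_smul ℝ h, nsq_smul]; ring)
    have := Wp_pos p (v + h)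
    gcongr
  -- consequences
  have r1 : ∀ h : Vec d, len h ≤ 1 / 2 →
      L' * (ω + 2 * len h ^ α) * Wp p v - L' * ω * Wp p v ≤ K * len h ^ α * Wp p v := by
    intro h hh
    have hl : 0 ≤ len h ^ α := Real.rpow_nonneg (len_nonneg h) _
    have hW := Wp_pos p v
    have h3 : (2 : ℝ) ≤ 2 ^ p * (2 + 4 * p) := by
      have i1 : (1 : ℝ) ≤ 2 ^ p := one_le_pow₀ (by norm_num)
      have i2 : (0 : ℝ) ≤ p := Nat.cast_nonneg p
      nlinarith
    have h4 : L' * 2 ≤ K := by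
      rw [hK]
      exact mul_le_mul hL'L h3 (by norm_num) hL
    have e : L' * (ω + 2 * len h ^ α) * Wp p v - L' * ω * Wp p v =
        L' * 2 * len h ^ α * Wp p v := by ring
    rw [e]
    gcongr
  have r2 : ∀ h : Vec d, len h ≤ 1 / 2 →
      L' * (ω + 2 * len h ^ α) * Wp p (v + h) - L' * ω * Wp p v ≤ K * len h ^ α * Wp p v := by
    intro h hh
    have hl : 0 ≤ len h ^ α := Real.rpow_nonneg (len_nonneg h) _
    have hW := Wp_pos p v
    have i1 := one_W p (v := v) hh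
    have i2 := one_Wd p (v := v) hh
    have i3 : len h ≤ len h ^ α := by
      calc len h = len h ^ (1 : ℝ) := (Real.rpow_one _).symm
        _ ≤ len h ^ α := by
            rcases (len_nonneg h).eq_or_lt with h3 | h3
            · rw [← h3, Real.zero_rpow one_ne_zero, Real.zero_rpow hα0.ne']
            · exact Real.rpow_le_rpow_of_exponent_ge h3 (by linarith) h2
    have i4 : 0 ≤ 2 * (p : ℝ) * 2 ^ p * Wp p v := by positivity
    have i5 : Wp p (v + h) - Wp p v ≤ 2 * p * 2 ^ p * len h ^ α * Wp p v := by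
      refine i2.trans ?_
      gcongr
    have e : L' * (ω + 2 * len h ^ α) * Wp p (v + h) - L' * ω * Wp p v =
        L' * (ω * (Wp p (v + h) - Wp p v) + 2 * len h ^ α * Wp p (v + h)) := by ring
    rw [e]
    have i6 : ω * (Wp p (v + h) - Wp p v) ≤ 2 * (2 * p * 2 ^ p * len h ^ α * Wp p v) := by
      calc ω * (Wp p (v + h) - Wp p v) ≤ ω * (2 * p * 2 ^ p * len h ^ α * Wp p v) :=
            mul_le_mul_of_nonneg_left i5 hω0.le
        _ ≤ 2 * (2 * p * 2 ^ p * len h ^ α * Wp p v) :=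
            mul_le_mul_of_nonneg_right hω2 (by positivity)
    have i7 : 2 * len h ^ α * Wp p (v + h) ≤ 2 * len h ^ α * (2 ^ p * Wp p v) :=
      mul_le_mul_of_nonneg_left i1 (by positivity)
    calc L' * (ω * (Wp p (v + h) - Wp p v) + 2 * len h ^ α * Wp p (v + h))
        ≤ L' * (2 ^ p * (2 + 4 * p) * len h ^ α * Wp p v) := by
          apply mul_le_mul_of_nonneg_left _ hL'
          have e2 : 2 ^ p * (2 + 4 * p) * len h ^ α * Wp p v =
              2 * (2 * p * 2 ^ p * len h ^ α * Wp p v) + 2 * len h ^ α * (2 ^ p * Wp p v) := by ring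
          rw [e2]
          linarith
      _ ≤ L * (2 ^ p * (2 + 4 * p) * len h ^ α * Wp p v) :=
          mul_le_mul_of_nonneg_right hL'L (by positivity)
      _ = K * len h ^ α * Wp p v := by
          rw [hK]
          ring
  have hPh : Ph f t x v ξ η = G v - F v := rfl
  constructor
  · intro htch
    rw [hPh] at htch
    have rG : ∀ h : Vec d, len h ≤ 1 / 2 → G (v + h) - G v ≤ K * len h ^ α * Wp p v := by
      intro h hh
      have i1 := (abs_le.1 (c1 h hh)).2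
      have i2 := r1 h hh
      linarith
    have rF : ∀ h : Vec d, len h ≤ 1 / 2 → F v - F (v + h) ≤ K * len h ^ α * Wp p v := by
      intro h hh
      have i1 := (abs_le.1 (c2 h hh)).2
      have i2 := r2 h hh
      linarith
    obtain ⟨o1, o2⟩ := one_fin h0 h1 h2 hm hK0 hF hG rG rF
    exact ⟨hF, hG, by positivity, by positivity, hdif, htch, o1, o2⟩
  · intro htch
    rw [hPh] at htch
    have rG : ∀ h : Vec d, len h ≤ 1 / 2 → F (v + h) - F v ≤ K * len h ^ α * Wp p v := by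
      intro h hh
      have i1 := (abs_le.1 (c2 h hh)).1
      have i2 := r2 h hh
      linarith
    have rF : ∀ h : Vec d, len h ≤ 1 / 2 → G v - G (v + h) ≤ K * len h ^ α * Wp p v := by
      intro h hh
      have i1 := (abs_le.1 (c1 h hh)).1
      have i2 := r1 h hh
      linarith
    obtain ⟨o1, o2⟩ := one_fin h0 h1 h2 hm hK0 hG hF rG rF
    refine ⟨hG, hF, by positivity, by positivity, fun u => ?_, by linarith, o1, o2⟩
    rw [abs_sub_comm]
    exact hdif u

end Pool.Agent.H48.PR
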