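import Pool.Agent.H48.PR.CutP
import Pool.Agent.H48.PR.UCon
import Pool.Agent.H48.PR.MLow
import Pool.Agent.H48.PR.One
import Pool.Agent.H48.PR.Cpt

/-!
# Module ThmL: THEOREM L

Choice of constants. `T₁, R₁, m₁` from `mass_low`. `Cl N ≥ 0` with `(1+‖v‖)^N f t x v ≤ Cl N` on `[0,T₁]` (`decay`, choice), so `FB Cl (f t x)` for `t ∈ (0,T₁]` (`hf.nice`). `α'` with `2s < α' < α`. `op_PI` with exponent `α'` and the bounds `2^N Cl N`: `ε₁, K`, where the mass bound is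
used with `m₁`; if the sign is negative `G = f t x` (`mass_low` with `η = 0`). `r₀` from `ucon` (`T₁`, `ε₁`). `C₁` with `|Ph f t x v ξ η| ≤ C₁ Wp p v` for `t ∈ [0,T₁]`, `len η ≤ 1` (`Cl (2p)`, `(1+|v|²)^p ≤ (d+1)^p (1+‖v‖)^(2p)`).
`L₀ > 0` with `L₀ r₀^α > C₁` and `L₀ > C₀` (`C₀ ≥ 0`). `Γ` from `one_side` with `L = 2 L₀`. `t₁ ≤ T₁` with `t₁ · 2 K (1+Γ) < 1`, `t₁ > 0`.
For `δ ∈ (0,1]`: claim `|Ph| < L₀ (1+t/t₁) om δ α ξ η Wp p v` on `[0,t₁]`. `hbig`: `om ≥ (r₀²)^(α/2) = r₀^α`. `hini`: `hdat` and `om δ > (nsq ξ+nsq η)^(α/2)`. Otherwise `ftouch`; `t₀ ∈ (0,t₁]`, `Λ = L' om`, `L' = L₀(1+t₀/t₁) ≤ 2L₀`. Sign `+`: `one_side` gives `TP`, `ucon` and `mass_low` the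
mass conditions, `gal_deriv` the derivative `q = Q(G)(v)-Q(F)(v)` of `τ ↦ Ph(t₀+τ, x+τv, v; ξ,η)` at `0`; for `τ < 0` small the function is `< L₀(1+(t₀+τ)/t₁) om W` with equality at `0`, so `q ≥ (L₀/t₁) om W` (as `mp_deriv_nonpos` in H82/BK/MaxPr). `op_PI`:
`q ≤ K(1+Γ) 2 L₀ om W < (L₀/t₁) om W`, contradiction. Sign `-`: the same for `-Ph` with `F`, `G` exchanged.
`δ → 0+` (`om` is continuous in `δ`): `|Ph| ≤ 2L₀ (nsq ξ+nsq η)^(α/2) Wp p v`; put `ξ = -t η`: `f t x (v+η) - f t x v`, `(nsq ξ+nsq η)^(α/2) = (1+t²)^(α/2) (len η)^α ≤ 2 (len η)^α`. `L = 4L₀`.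
-/

set_option autoImplicit false

open MeasureTheory Set Filter Topology Pool.Agent.H25.Kin Pool.Agent.H48.PL Pool.Agent.H48.PD
open Pool.Agent.H82.BK Pool.Agent.H82.CM

namespace Pool.Agent.H48.PR

variable {d : ℕ} {γ s C Ca cb : ℝ} {b : ℝ → ℝ}

/-- the derivative at a touching point from the left -/
private lemma thmL_left {g : ℝ → ℝ} {q a c t₀ : ℝ} (ht : 0 < t₀) (hg : HasDerivAt g q 0)
    (h0 : g 0 = a) (h : ∀ τ ∈ Ioo (-t₀) 0, g τ ≤ a + c * τ) : c ≤ q := by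
  have h1 := hg.tendsto_slope_zero_left
  refine ge_of_tendsto h1 ?_
  filter_upwards [Ioo_mem_nhdsLT (show -t₀ < 0 by linarith)] with τ hτ
  have h2 := h τ hτ
  have h3 : τ < 0 := hτ.2
  rw [zero_add, smul_eq_mul, h0]
  have h4 : τ⁻¹ < 0 := inv_lt_zero.2 h3
  have h5 : τ⁻¹ * (c * τ) ≤ τ⁻¹ * (g τ - a) := mul_le_mul_of_nonpos_left (by linarith) h4.le
  have h6 : τ⁻¹ * (c * τ) = c := by
    rw [mul_comm c τ, ← mul_assoc, inv_mul_cancel₀ h3.ne, one_mul]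
  rw [h6] at h5
  exact h5

/-- pointwise bound by the weight -/
private lemma thmL_wt {A : ℝ} (p : ℕ) {g : ℝ} {v w : Vec d} (hg : 0 ≤ g)
    (hvw : ‖v‖ ≤ ‖w‖ + 1) (h : (1 + ‖w‖) ^ (2 * p) * g ≤ A) :
    g ≤ A * (2 ^ (2 * p) * ((d : ℝ) + 1) ^ p) * Wp p v := by
  have hn := norm_nonneg v
  have hw := norm_nonneg w
  have h2 : 1 + nsq v ≤ ((d : ℝ) + 1) * (1 + ‖v‖) ^ 2 := by
    have h3 := sq_le v
    have h4 : (0 : ℝ) ≤ d := Nat.cast_nonneg _
    nlinarith [mul_nonneg h4 hn]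
  have hq := sq_nonneg' v
  have h5 : (1 + nsq v) ^ p ≤ ((d : ℝ) + 1) ^ p * (1 + ‖v‖) ^ (2 * p) := by
    rw [pow_mul, ← mul_pow]
    exact pow_le_pow_left₀ (by linarith) h2 p
  have h6 : (1 + ‖v‖) ^ (2 * p) ≤ 2 ^ (2 * p) * (1 + ‖w‖) ^ (2 * p) := by
    rw [← mul_pow]
    exact pow_le_pow_left₀ (by linarith) (by linarith) _
  have hd0 : (0 : ℝ) ≤ ((d : ℝ) + 1) ^ p := by positivity
  have h7 : g * (1 + nsq v) ^ p ≤ A * (2 ^ (2 * p) * ((d : ℝ) + 1) ^ p) := by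
    calc g * (1 + nsq v) ^ p
        ≤ g * (((d : ℝ) + 1) ^ p * (2 ^ (2 * p) * (1 + ‖w‖) ^ (2 * p))) := by
          apply mul_le_mul_of_nonneg_left _ hg
          exact h5.trans (mul_le_mul_of_nonneg_left h6 hd0)
      _ = ((1 + ‖w‖) ^ (2 * p) * g) * (2 ^ (2 * p) * ((d : ℝ) + 1) ^ p) := by ring
      _ ≤ A * (2 ^ (2 * p) * ((d : ℝ) + 1) ^ p) :=
          mul_le_mul_of_nonneg_right h (by positivity)
  have h8 : g = g * (1 + nsq v) ^ p * Wp p v := by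
    rw [mul_assoc, mul_comm ((1 + nsq v) ^ p) (Wp p v), Wp_mul, mul_one]
  rw [h8]
  exact mul_le_mul_of_nonneg_right h7 (Wp_pos p v).le

private lemma thmL_abs {a b M : ℝ} (ha : 0 ≤ a) (hb : 0 ≤ b) (h1 : a ≤ M) (h2 : b ≤ M) :
    |a - b| ≤ M := by
  rw [abs_le]
  constructor <;> linarith

theorem thmL (HL : HypL d γ s b C Ca cb) (h0 : 0 ≤ γ) (hs : 2 * s < 1) {α : ℝ} (h1 : 2 * s < α)
    (h2 : α ≤ 1) {p : ℕ} (hp : d + 10 ≤ p) {T : ℝ} {f : ℝ → Vec d → Vec d → ℝ}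
    (hf : IsBoltzmannSol γ b T f) (hT : 0 < T) (hpos : ∀ x, 0 < ∫ v, f 0 x v) {C₀ : ℝ}
    (hdat : ∀ x v ξ η : Vec d, len η ≤ 1 →
      |f 0 (x + ξ) (v + η) - f 0 x v| ≤ C₀ * (nsq ξ + nsq η) ^ (α / 2) * Wp p v) :
    ∃ t₁ : ℝ, 0 < t₁ ∧ t₁ < T ∧ ∃ L : ℝ, ∀ t ∈ Icc 0 t₁, ∀ x v η : Vec d, len η ≤ 1 →
      |f t x (v + η) - f t x v| ≤ L * len η ^ α * Wp p v := by
  have hs0 : 0 < s := HL.H.hs
  have hα : 0 < α := by linarith
  have hsol : IsClassicalSol T (fun t x => boltzQ γ b (f t x)) f := hf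
  obtain ⟨T₁, hT₁, hT₁T, hT₁1, R₁, m₁, hm₁, hmass⟩ := mass_low hsol hT hpos
  -- bounds of the values
  choose C' hC' using fun N => hsol.decay T₁ hT₁T N
  set Cl : ℕ → ℝ := fun N => |C' N| with hCl
  have hCl0 : ∀ N, 0 ≤ Cl N := fun N => abs_nonneg _
  have hdec : ∀ N, ∀ t ∈ Icc 0 T₁, ∀ x v, (1 + ‖v‖) ^ N * f t x v ≤ Cl N := fun N t ht x v =>
    (hC' N t ht x v).trans (le_abs_self _)
  have hnn : ∀ t ∈ Icc 0 T₁, ∀ x v, 0 ≤ f t x v := fun t ht x v =>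
    hsol.nonneg t ⟨ht.1, ht.2.trans_lt hT₁T⟩ x v
  have hFB : ∀ t ∈ Ioc 0 T₁, ∀ x, FB Cl (f t x) := fun t ht x =>
    ⟨hsol.nice ⟨ht.1, ht.2.trans_lt hT₁T⟩ x, hnn t ⟨ht.1.le, ht.2⟩ x,
      fun N v => hdec N t ⟨ht.1.le, ht.2⟩ x v⟩
  -- exponents
  set α' : ℝ := (2 * s + α) / 2 with hα'
  have ha1 : 2 * s < α' := by rw [hα']; linarith
  have ha2 : α' < α := by rw [hα']; linarith
  have ha0 : 0 < α' := by linarith
  obtain ⟨ε₁, hε₁, K, hK, hop⟩ := op_PI HL h0 hs ha1 (ha2.le.trans h2) hp (fun N => 2 ^ N * Cl N) R₁ hm₁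
  obtain ⟨r₀, hr₀, hr₀', hucon⟩ := ucon hsol hT₁.le hT₁T hε₁
  -- the bound of Ph
  set C₁ : ℝ := Cl (2 * p) * (2 ^ (2 * p) * ((d : ℝ) + 1) ^ p) with hC₁
  have hC₁0 : 0 ≤ C₁ := mul_nonneg (hCl0 _) (by positivity)
  have hPh : ∀ t ∈ Icc 0 T₁, ∀ x v ξ η : Vec d, len η ≤ 1 → |Ph f t x v ξ η| ≤ C₁ * Wp p v := by
    intro t ht x v ξ η hη
    unfold Ph
    apply thmL_abs (hnn t ht _ _) (hnn t ht _ _)
    · refine thmL_wt p (hnn t ht _ _) ?_ (hdec (2 * p) t ht _ _)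
      have e : v = (v + η) - η := by abel
      have h3 := norm_sub_le (v + η) η
      rw [← e] at h3
      have h4 := norm_le_len η
      linarith
    · exact thmL_wt p (hnn t ht _ _) (by linarith) (hdec (2 * p) t ht _ _)
  have hrα : 0 < r₀ ^ α := Real.rpow_pos_of_pos hr₀ _
  set L₀ : ℝ := |C₀| + C₁ / r₀ ^ α + 1 with hL₀
  have hd1 : 0 ≤ C₁ / r₀ ^ α := div_nonneg hC₁0 hrα.le
  have hL₀1 : |C₀| < L₀ := by rw [hL₀]; linarith
  have hL₀2 : C₁ / r₀ ^ α < L₀ := by rw [hL₀]; linarith [abs_nonneg C₀]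
  have hL₀0 : 0 < L₀ := lt_of_le_of_lt (abs_nonneg _) hL₀1
  obtain ⟨Γ, hΓ, hone⟩ := one_side (d := d) Cl p ha0 ha2 h2 (L := 2 * L₀) (by linarith)
  set D : ℝ := 2 * K * (1 + Γ) with hD
  have hD0 : 0 ≤ D := by positivity
  set t₁ : ℝ := min T₁ (1 / (D + 1)) with ht₁
  have ht₁0 : 0 < t₁ := lt_min hT₁ (by positivity)
  have ht₁T₁ : t₁ ≤ T₁ := min_le_left _ _
  have ht₁T : t₁ < T := ht₁T₁.trans_lt hT₁T
  have ht₁1 : t₁ ≤ 1 := ht₁T₁.trans hT₁1
  have ht₁D : t₁ * D < 1 := by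
    have h3 : t₁ * D ≤ 1 / (D + 1) * D := mul_le_mul_of_nonneg_right (min_le_right _ _) hD0
    have h4 : 1 / (D + 1) * D < 1 := by
      rw [one_div, inv_mul_lt_iff₀ (by linarith)]
      linarith
    linarith
  have hsub : ∀ {t : ℝ}, t ∈ Icc 0 t₁ → t ∈ Icc 0 T₁ := fun ht => ⟨ht.1, ht.2.trans ht₁T₁⟩
  -- the main claim
  have claim : ∀ δ : ℝ, 0 < δ → δ ≤ 1 → ∀ t ∈ Icc 0 t₁, ∀ x v ξ η : Vec d, len η ≤ 1 →
      |Ph f t x v ξ η| < L₀ * (1 + t / t₁) * om δ α ξ η * Wp p v := by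
    intro δ hδ hδ1
    by_contra hcon
    push Not at hcon
    have hom : ∀ ξ η : Vec d, (nsq ξ + nsq η) ^ (α / 2) ≤ om δ α ξ η := by
      intro ξ η
      unfold om
      have h3 := sq_nonneg' ξ
      have h4 := sq_nonneg' η
      exact Real.rpow_le_rpow (by linarith) (by nlinarith [sq_nonneg δ]) (by linarith)
    have hbig : ∀ t ∈ Icc 0 t₁, ∀ x v ξ η : Vec d, len η ≤ 1 → r₀ ^ 2 ≤ nsq ξ + nsq η →
        |Ph f t x v ξ η| < L₀ * om δ α ξ η * Wp p v := by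
      intro t ht x v ξ η hη hr
      refine (hPh t (hsub ht) x v ξ η hη).trans_lt ?_
      refine mul_lt_mul_of_pos_right ?_ (Wp_pos p v)
      have h3 : r₀ ^ α ≤ om δ α ξ η := by
        refine le_trans ?_ (hom ξ η)
        have h4 : r₀ ^ α = (r₀ ^ 2) ^ (α / 2) := by
          rw [← Real.rpow_natCast r₀ 2, ← Real.rpow_mul hr₀.le]
          congr 1
          push_cast
          ring
        rw [h4]
        exact Real.rpow_le_rpow (by positivity) hr (by linarith)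
      calc C₁ = C₁ / r₀ ^ α * r₀ ^ α := by field_simp
        _ < L₀ * r₀ ^ α := mul_lt_mul_of_pos_right hL₀2 hrα
        _ ≤ L₀ * om δ α ξ η := mul_le_mul_of_nonneg_left h3 hL₀0.le
    have hini : ∀ x v ξ η : Vec d, len η ≤ 1 →
        |Ph f 0 x v ξ η| < L₀ * om δ α ξ η * Wp p v := by
      intro x v ξ η hη
      have h3 := hdat x v ξ η hη
      have e : Ph f 0 x v ξ η = f 0 (x + ξ) (v + η) - f 0 x v := by
        unfold Ph
        rw [zero_smul, add_zero]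
      rw [e]
      refine h3.trans_lt (mul_lt_mul_of_pos_right ?_ (Wp_pos p v))
      have h4 : 0 ≤ (nsq ξ + nsq η) ^ (α / 2) :=
        Real.rpow_nonneg (by have := sq_nonneg' ξ; have := sq_nonneg' η; linarith) _
      calc C₀ * (nsq ξ + nsq η) ^ (α / 2) ≤ |C₀| * (nsq ξ + nsq η) ^ (α / 2) :=
            mul_le_mul_of_nonneg_right (le_abs_self _) h4
        _ ≤ |C₀| * om δ α ξ η := mul_le_mul_of_nonneg_left (hom ξ η) (abs_nonneg _)
        _ < L₀ * om δ α ξ η := mul_lt_mul_of_pos_right hL₀1 (om_pos hδ ξ η)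
    obtain ⟨t₀, ht₀, x, v, ξ, η, hη, hr, heq, hlt, hle⟩ :=
      ftouch hsol ht₁0 ht₁T p hα hδ hL₀0 hbig hini hcon
    have htT₁ : t₀ ∈ Icc 0 T₁ := ⟨ht₀.1.le, ht₀.2.trans ht₁T₁⟩
    have htT : t₀ ∈ Ioo 0 T := ⟨ht₀.1, htT₁.2.trans_lt hT₁T⟩
    have hrat : t₀ / t₁ ≤ 1 := (div_le_one ht₁0).2 ht₀.2
    have hrat0 : 0 ≤ t₀ / t₁ := div_nonneg ht₀.1.le ht₁0.le
    set L' : ℝ := L₀ * (1 + t₀ / t₁) with hL'
    have hL'0 : 0 ≤ L' := by positivity
    have hL'2 : L' ≤ 2 * L₀ := by rw [hL']; nlinarith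
    have hr4 : nsq ξ + nsq η ≤ 1 / 4 := by nlinarith
    have ho := hone f t₀ δ ht₀.1.le (htT₁.2.trans hT₁1) hδ hδ1
      (hFB t₀ ⟨ht₀.1, htT₁.2⟩) L' hL'0 hL'2 hle x v ξ η hr4
    have hu := hucon t₀ htT₁ x ξ η hr.le
    have hgd := gal_deriv hf htT x v ξ η
    have hW := Wp_pos p v
    have homp := om_pos (α := α) hδ ξ η
    -- contradiction from a derivative
    have key : ∀ (g : ℝ → ℝ) (q : ℝ), HasDerivAt g q 0 → g 0 = L' * om δ α ξ η * Wp p v →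
        (∀ τ ∈ Ioo (-t₀) 0, g τ ≤ L₀ * (1 + (t₀ + τ) / t₁) * om δ α ξ η * Wp p v) →
        q ≤ K * (1 + Γ) * (L' * om δ α ξ η * Wp p v) → False := by
      intro g q hg hg0 hgl hq
      have h3 : L₀ / t₁ * om δ α ξ η * Wp p v ≤ q := by
        refine thmL_left ht₀.1 hg hg0 fun τ hτ => (hgl τ hτ).trans (le_of_eq ?_)
        rw [hL']
        field_simp
        ring
      have h4 : K * (1 + Γ) * (L' * om δ α ξ η * Wp p v) ≤ D * (L₀ * om δ α ξ η * Wp p v) := by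
        have h5 : K * (1 + Γ) * L' ≤ K * (1 + Γ) * (2 * L₀) :=
          mul_le_mul_of_nonneg_left hL'2 (by positivity)
        calc K * (1 + Γ) * (L' * om δ α ξ η * Wp p v) = K * (1 + Γ) * L' * (om δ α ξ η * Wp p v) := by
              ring
          _ ≤ K * (1 + Γ) * (2 * L₀) * (om δ α ξ η * Wp p v) :=
              mul_le_mul_of_nonneg_right h5 (by positivity)
          _ = D * (L₀ * om δ α ξ η * Wp p v) := by rw [hD]; ring
      have hpos' : 0 < L₀ * om δ α ξ η * Wp p v := by positivity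
      have h6 : L₀ / t₁ * om δ α ξ η * Wp p v = (1 / t₁) * (L₀ * om δ α ξ η * Wp p v) := by
        field_simp
      have h7 : (1 / t₁) * (L₀ * om δ α ξ η * Wp p v) ≤ D * (L₀ * om δ α ξ η * Wp p v) := by
        rw [← h6]
        exact h3.trans (hq.trans h4)
      have h8 : 1 / t₁ ≤ D := le_of_mul_le_mul_right h7 hpos'
      rw [div_le_iff₀ ht₁0] at h8
      linarith
    have hsmall : ∀ τ ∈ Ioo (-t₀) 0,
        |Ph f (t₀ + τ) (x + τ • v) v ξ η| ≤ L₀ * (1 + (t₀ + τ) / t₁) * om δ α ξ η * Wp p v :=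
      fun τ hτ => (hlt (t₀ + τ) ⟨by linarith [hτ.1], by linarith [hτ.2]⟩ (x + τ • v) v ξ η hη).le
    have hz : Ph f (t₀ + 0) (x + (0 : ℝ) • v) v ξ η = Ph f t₀ x v ξ η := by
      rw [add_zero, zero_smul, add_zero]
    rcases abs_choice (Ph f t₀ x v ξ η) with hsg | hsg
    · rw [hsg] at heq
      have tp := ho.1 heq
      have hmG : m₁ ≤ ∫ z in {z : Vec d | nsq z ≤ R₁ ^ 2}, f t₀ (x + ξ + t₀ • η) (z + η) :=
        hmass t₀ htT₁ (x + ξ + t₀ • η) η hη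
      have hq := hop Γ (L' * om δ α ξ η) (f t₀ x) (fun u => f t₀ (x + ξ + t₀ • η) (u + η)) v tp hmG hu
      refine key _ _ hgd (hz.trans heq) (fun τ hτ => (le_abs_self _).trans (hsmall τ hτ)) ?_
      exact hq
    · rw [hsg] at heq
      have tp := ho.2 heq
      have hmG : m₁ ≤ ∫ z in {z : Vec d | nsq z ≤ R₁ ^ 2}, f t₀ x z := by
        have := hmass t₀ htT₁ x 0 (by rw [len_zero]; norm_num)
        simpa using this
      have hu' : ∫ z, |f t₀ x z - f t₀ (x + ξ + t₀ • η) (z + η)| ≤ ε₁ := by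
        have e : (fun z => |f t₀ x z - f t₀ (x + ξ + t₀ • η) (z + η)|) =
            fun z => |f t₀ (x + ξ + t₀ • η) (z + η) - f t₀ x z| := by
          funext z; exact abs_sub_comm _ _
        rw [e]; exact hu
      have hq := hop Γ (L' * om δ α ξ η) (fun u => f t₀ (x + ξ + t₀ • η) (u + η)) (f t₀ x) v tp hmG hu'
      refine key _ _ hgd.neg ?_ (fun τ hτ => ?_) ?_
      · show -Ph f (t₀ + 0) (x + (0 : ℝ) • v) v ξ η = _
        rw [hz]; exact heq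
      · exact (neg_le_abs _).trans (hsmall τ hτ)
      · have e : -(boltzQ γ b (fun u => f t₀ (x + ξ + t₀ • η) (u + η)) v - boltzQ γ b (f t₀ x) v) =
            boltzQ γ b (f t₀ x) v - boltzQ γ b (fun u => f t₀ (x + ξ + t₀ • η) (u + η)) v := by ring
        rw [e]; exact hq
  refine ⟨t₁, ht₁0, ht₁T, 6 * L₀, fun t ht x v η hη => ?_⟩
  rcases (len_nonneg η).eq_or_lt with h3 | h3
  · have e : η = 0 := by
      have h4 := norm_le_len η
      rw [← h3] at h4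
      exact norm_le_zero_iff.1 h4
    rw [e, add_zero, sub_self, abs_zero]
    have := Wp_pos p v
    have h5 : 0 ≤ len (0 : Vec d) ^ α := Real.rpow_nonneg (len_nonneg _) _
    positivity
  · have hc := claim (len η) h3 hη t ht x v (-(t • η)) η hη
    have e : Ph f t x v (-(t • η)) η = f t x (v + η) - f t x v := by
      unfold Ph
      rw [neg_add_cancel_right]
    rw [e] at hc
    refine hc.le.trans ?_
    refine mul_le_mul_of_nonneg_right ?_ (Wp_pos p v).le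
    have hrat : t / t₁ ≤ 1 := (div_le_one ht₁0).2 ht.2
    have hrat0 : 0 ≤ t / t₁ := div_nonneg ht.1 ht₁0.le
    have ho : om (len η) α (-(t • η)) η ≤ 3 * len η ^ α := by
      unfold om
      have h4 : nsq (-(t • η)) ≤ nsq η := by
        rw [← neg_smul, nsq_smul]
        have h5 := sq_nonneg' η
        have h6 : (-t) ^ 2 ≤ 1 := by
          have := ht.1
          have := ht.2.trans ht₁1
          nlinarith
        nlinarith
      have h5 : len η ^ 2 + nsq (-(t • η)) + nsq η ≤ 3 * len η ^ 2 := by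
        rw [len_sq]; linarith
      have h6 : 0 ≤ len η ^ 2 + nsq (-(t • η)) + nsq η := by
        have := sq_nonneg' (-(t • η)); have := sq_nonneg' η; positivity
      calc (len η ^ 2 + nsq (-(t • η)) + nsq η) ^ (α / 2) ≤ (3 * len η ^ 2) ^ (α / 2) :=
            Real.rpow_le_rpow h6 h5 (by linarith)
        _ = 3 ^ (α / 2) * len η ^ α := by
            rw [Real.mul_rpow (by norm_num) (by positivity), ← Real.rpow_natCast (len η) 2,
              ← Real.rpow_mul h3.le]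
            congr 2
            push_cast
            ring
        _ ≤ 3 * len η ^ α := by
            refine mul_le_mul_of_nonneg_right ?_ (Real.rpow_nonneg h3.le _)
            calc (3 : ℝ) ^ (α / 2) ≤ 3 ^ (1 : ℝ) :=
                  Real.rpow_le_rpow_of_exponent_le (by norm_num) (by linarith)
              _ = 3 := Real.rpow_one 3
    have ho0 : 0 ≤ om (len η) α (-(t • η)) η := (om_pos h3 _ _).le
    calc L₀ * (1 + t / t₁) * om (len η) α (-(t • η)) η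
        ≤ L₀ * 2 * om (len η) α (-(t • η)) η := by
          apply mul_le_mul_of_nonneg_right _ ho0
          exact mul_le_mul_of_nonneg_left (by linarith) hL₀0.le
      _ ≤ L₀ * 2 * (3 * len η ^ α) := mul_le_mul_of_nonneg_left ho (by linarith)
      _ = 6 * L₀ * len η ^ α := by ring

end Pool.Agent.H48.PR
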