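import Pool.Agent.H48.PR.UniF
import Pool.Agent.H48.PR.HolD
import Pool.Agent.H48.PR.ThmL

/-!
# Module UniG: uniqueness of classical solutions with Hoelder data without vacuum

* `uniq_two`: as `uniq_self` (module UniF) with `f̃` replaced by any classical solution `f` with the same data (the constants of the decay of `f` and `g` on `[0,T₂]`: maximum, as in H48/PD/Uni `uniq`).
* `uniq_hol`: restrict both solutions to `[0, min T T')` (`IsBoltzmannSol.mono` in H25 or prove it privately); `hol_data` and `thmL` for `g` (`p = d + 10`, exponent `(2s+α)/2`, as in DatF `sym_of_hol`), then `uniq_two`.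
-/

set_option autoImplicit false

open MeasureTheory Set Filter Topology Pool.Agent.H25.Kin Pool.Agent.H48.PL Pool.Agent.H48.PD
open Pool.Agent.H71.PD Pool.Agent.H82.CM

namespace Pool.Agent.H48.PR

variable {d : ℕ} {γ s C Ca cb : ℝ} {b : ℝ → ℝ}

theorem uniq_two (H : Hyp d γ s b C Ca) (h0 : 0 ≤ γ) {α : ℝ} (h1 : 2 * s < α) (h2 : α ≤ 1)
    {p : ℕ} {T : ℝ} {f g : ℝ → Vec d → Vec d → ℝ} (hf : IsBoltzmannSol γ b T f)
    (hg : IsBoltzmannSol γ b T g) {t₁ L : ℝ} (ht₁ : 0 < t₁) (ht₁T : t₁ < T)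
    (hreg : ∀ t ∈ Icc 0 t₁, ∀ x v η : Vec d, len η ≤ 1 →
      |g t x (v + η) - g t x v| ≤ L * len η ^ α * Wp p v)
    (he : ∀ x v, f 0 x v = g 0 x v) :
    ∀ t ∈ Ico 0 T, ∀ x v, f t x v = g t x v := by
  intro t₀ ht₀
  have hs0 := H.hs
  set α' : ℝ := (2 * s + α) / 2 with hα'
  have hα0 : 0 < α' := by rw [hα']; linarith
  have hα1 : 2 * s < α' := by rw [hα']; linarith
  have hα2 : α' < α := by rw [hα']; linarith
  have hα3 : α' ≤ 1 := by linarith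
  have hf' : IsClassicalSol T (fun t x => boltzQ γ b (f t x)) f := hf
  have hg' : IsClassicalSol T (fun t x => boltzQ γ b (g t x)) g := hg
  set T₂ : ℝ := max t₀ t₁ with hT₂
  have hT₂T : T₂ < T := max_lt ht₀.2 ht₁T
  have hT₂0 : 0 ≤ T₂ := ht₀.1.trans (le_max_left _ _)
  choose Cf hCf using hf'.decay T₂ hT₂T
  choose Cg hCg using hg'.decay T₂ hT₂T
  set C1 : ℕ → ℝ := fun N => max (Cf N) (Cg N) with hC1
  have fb1 : ∀ τ ∈ Ioc 0 T₂, ∀ x, FB C1 (g τ x) := fun τ hτ x =>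
    ⟨IsClassicalSol.nice hg' ⟨hτ.1, hτ.2.trans_lt hT₂T⟩ x,
      fun v => hg'.nonneg τ ⟨hτ.1.le, hτ.2.trans_lt hT₂T⟩ x v,
      fun N v => (hCg N τ ⟨hτ.1.le, hτ.2⟩ x v).trans (le_max_right _ _)⟩
  have fbf : ∀ τ ∈ Ioc 0 T₂, ∀ x, FB C1 (f τ x) := fun τ hτ x =>
    ⟨IsClassicalSol.nice hf' ⟨hτ.1, hτ.2.trans_lt hT₂T⟩ x,
      fun v => hf'.nonneg τ ⟨hτ.1.le, hτ.2.trans_lt hT₂T⟩ x v,
      fun N v => (hCf N τ ⟨hτ.1.le, hτ.2⟩ x v).trans (le_max_left _ _)⟩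
  obtain ⟨Cn, hCn, hnear⟩ := lbh_near (d := d) C1 p hα0 hα2 L
  have hreg2 := reg_shift hg' ht₁ ht₁T
  choose C3 hC3 using hreg2 (T₂ - t₁) (by linarith)
  set Cm : ℕ → ℝ := fun N => max (C1 N) (C3 N) with hCm
  set Cl : ℕ → ℝ := fun N => max (Cn N) (2 * 3 ^ N * Cm N) with hCl
  have hmono : ∀ N, C1 N ≤ Cl N := fun N => (hCn N).trans (le_max_left _ _)
  have lbh1 : ∀ τ ∈ Ioc 0 T₂, ∀ x, LBH α' 1 Cl (g τ x) := by
    intro τ hτ x
    rcases le_or_gt τ t₁ with h | h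
    · have h3 := hnear (g τ x) (fb1 τ hτ x) (hreg τ ⟨hτ.1.le, h⟩ x)
      intro N u v huv
      refine (h3 N u v huv).trans ?_
      exact mul_le_mul_of_nonneg_right (mul_le_mul_of_nonneg_left (le_max_left _ _) zero_le_one)
        (Real.rpow_nonneg (len_nonneg _) _)
    · have fbm : FB Cm (g τ x) := FB_mono (fb1 τ hτ x) fun N => le_max_left _ _
      have e1 : t₁ + (τ - t₁) = τ := by ring
      have h3 := lbh_of (κ := 0) (t := 1) (α := α') fbm one_pos (fun N v => by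
        have h4 := hC3 N (τ - t₁) ⟨by linarith, by linarith [hτ.2]⟩ x v
        simp only [e1] at h4
        rw [Real.rpow_zero, one_mul]
        exact h4.trans (le_max_right _ _)) hα0.le hα3
      rw [Real.one_rpow] at h3
      intro N u v huv
      refine (h3 N u v huv).trans ?_
      exact mul_le_mul_of_nonneg_right (mul_le_mul_of_nonneg_left (le_max_right _ _) zero_le_one)
        (Real.rpow_nonneg (len_nonneg _) _)
  obtain ⟨K, hK, hfib⟩ := fib_boundH H h0 hα1 hα3 Cl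
  have key : ∀ τ ∈ Ioc 0 T₂, ∀ x,
      ∫ v, (boltzQ γ b (f τ x) v - boltzQ γ b (g τ x) v) *
        sj (fun u => f τ x u - g τ x u) v ≤
        2 * K * N2 fun u => f τ x u - g τ x u := by
    intro τ hτ x
    refine (hfib 1 zero_le_one (f τ x) (g τ x) (FB_mono (fbf τ hτ x) hmono)
      (FB_mono (fb1 τ hτ x) hmono) (lbh1 τ hτ x)).trans (le_of_eq ?_)
    ring
  have hNT := NT_zero hf' hg' (K := 2 * K) (by linarith) hT₂0 hT₂T he
    (fun r t' hr' hrt htt => tim_le hf' hg' hr' hrt (htt.trans_lt hT₂T)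
      fun τ hτ x => key τ ⟨hτ.1, hτ.2.trans htt⟩ x) t₀ ⟨ht₀.1, le_max_left _ _⟩
  exact eq_of_NT hf' hg' ht₀ hNT

private theorem unig_restrict {T T' : ℝ} {Q f : ℝ → Vec d → Vec d → ℝ}
    (hf : IsClassicalSol T Q f) (h : T' ≤ T) : IsClassicalSol T' Q f where
  nonneg := fun t ht => hf.nonneg t ⟨ht.1, ht.2.trans_le h⟩
  periodic := fun t ht => hf.periodic t ⟨ht.1, ht.2.trans_le h⟩
  isCont := by
    have h1 := hf.isCont
    unfold ContOn at h1 ⊢
    exact h1.mono fun q hq => ⟨⟨hq.1.1, hq.1.2.trans_le h⟩, hq.2⟩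
  isC2 := by
    have h1 := hf.isC2
    unfold C2On at h1 ⊢
    exact h1.mono fun q hq => ⟨⟨hq.1.1, hq.1.2.trans_le h⟩, hq.2⟩
  decay := fun T₁ hT₁ => hf.decay T₁ (hT₁.trans_le h)
  decay12 := fun T₀ hT₀ T₁ hT₁ => hf.decay12 T₀ hT₀ T₁ (hT₁.trans_le h)
  solves := fun t ht => hf.solves t ⟨ht.1, ht.2.trans_le h⟩

theorem uniq_hol (HL : HypL d γ s b C Ca cb) (h0 : 0 ≤ γ) (hs : 2 * s < 1) {T T' : ℝ}
    {f g : ℝ → Vec d → Vec d → ℝ} (hf : IsBoltzmannSol γ b T f) (hg : IsBoltzmannSol γ b T' g)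
    (hpos : ∀ x, 0 < ∫ v, g 0 x v) {α : ℝ} (h1 : 2 * s < α) (h2 : α ≤ 1) (hh : HolData α (g 0))
    (he : ∀ x v, f 0 x v = g 0 x v) :
    ∀ t ∈ Ico 0 (min T T'), ∀ x v, f t x v = g t x v := by
  intro t ht x v
  have hT : 0 < min T T' := lt_of_le_of_lt ht.1 ht.2
  have hs0 := HL.H.hs
  have hf1 : IsBoltzmannSol γ b (min T T') f := unig_restrict hf (min_le_left _ _)
  have hg1 : IsBoltzmannSol γ b (min T T') g := unig_restrict hg (min_le_right _ _)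
  have hα' : 2 * s < (2 * s + α) / 2 := by linarith
  have hα'' : (2 * s + α) / 2 < α := by linarith
  obtain ⟨C₀, hC₀⟩ := hol_data (fun x v => hg1.nonneg 0 ⟨le_rfl, hT⟩ x v)
    (fun N => by
      obtain ⟨B, hB⟩ := hg1.decay 0 hT N
      exact ⟨B, fun x v => hB 0 ⟨le_rfl, le_rfl⟩ x v⟩) (by linarith) hα'' hh (d + 10)
  obtain ⟨t₁, ht₁, ht₁T, L, hL⟩ :=
    thmL HL h0 hs hα' (by linarith) (le_refl (d + 10)) hg1 hT hpos hC₀
  exact uniq_two HL.H h0 hα' (by linarith) hf1 hg1 ht₁ ht₁T hL he t ht x v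

end Pool.Agent.H48.PR
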