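import Pool.Agent.H48.PR.LbhN
import Pool.Agent.H71.PD.UniH
import Pool.Agent.H48.PD.Dat

/-!
# Module UniF: a solution with Hoelder regularity up to `t = 0` inherits translation invariance

* `uniq_self`: `g = f`, `f̃(t,x,v) = f(t,x+z,v)` (`trn_boltz`). Let `T₂ < T`. On `(0,T₂]`: `LBH α' 1 Cl' (f t x)` for `t ≤ t₁` (`lbh_near`), for `t ∈ [t₁,T₂]` by the gradient bound (`decay12 t₁ T₂`; `reg_shift`, `lbh_of` of H71/PD/Itp with `κ = 0`); take the maximum of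
  the constants. `fib_boundH` (H71/PD/FibH, `M = 1`): `∫_v (Q f̃ - Q f) sj ≤ 2K N2(f̃ - f)` on `(0,T₂]`; `tim_le`, `NT_zero` (H48/PD/Tim) give `NT f̃ f = 0` on `[0,T₂]`; `eq_of_NT` (H48/PD/Uni). The proof of `uniq` in H48/PD/Uni is the model.
-/

set_option autoImplicit false

open MeasureTheory Set Filter Topology Pool.Agent.H25.Kin Pool.Agent.H48.PL Pool.Agent.H48.PD
open Pool.Agent.H71.PD

namespace Pool.Agent.H48.PR

variable {d : ℕ} {γ s C Ca : ℝ} {b : ℝ → ℝ}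

theorem uniq_self (H : Hyp d γ s b C Ca) (h0 : 0 ≤ γ) {α : ℝ} (h1 : 2 * s < α) (h2 : α ≤ 1)
    {p : ℕ} {T : ℝ} {f : ℝ → Vec d → Vec d → ℝ} (hf : IsBoltzmannSol γ b T f) {t₁ L : ℝ}
    (ht₁ : 0 < t₁) (ht₁T : t₁ < T)
    (hreg : ∀ t ∈ Icc 0 t₁, ∀ x v η : Vec d, len η ≤ 1 →
      |f t x (v + η) - f t x v| ≤ L * len η ^ α * Wp p v)
    {z : Vec d} (hz : ∀ x v, f 0 (x + z) v = f 0 x v) :
    ∀ t ∈ Ico 0 T, ∀ x v, f t (x + z) v = f t x v := by
  intro t₀ ht₀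
  have hs0 := H.hs
  set α' : ℝ := (2 * s + α) / 2 with hα'
  have hα0 : 0 < α' := by rw [hα']; linarith
  have hα1 : 2 * s < α' := by rw [hα']; linarith
  have hα2 : α' < α := by rw [hα']; linarith
  have hα3 : α' ≤ 1 := by linarith
  have hf' : IsClassicalSol T (fun t x => boltzQ γ b (f t x)) f := hf
  have hg : IsBoltzmannSol γ b T (fun t x v => f t (x + z) v) := trn_boltz hf z
  have hg' : IsClassicalSol T (fun t x => boltzQ γ b (f t (x + z)))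
    (fun t x v => f t (x + z) v) := hg
  set T₂ : ℝ := max t₀ t₁ with hT₂
  have hT₂T : T₂ < T := max_lt ht₀.2 ht₁T
  have hT₂0 : 0 ≤ T₂ := ht₀.1.trans (le_max_left _ _)
  choose C1 hC1 using hf'.decay T₂ hT₂T
  have fb1 : ∀ τ ∈ Ioc 0 T₂, ∀ x, FB C1 (f τ x) := fun τ hτ x =>
    ⟨IsClassicalSol.nice hf' ⟨hτ.1, hτ.2.trans_lt hT₂T⟩ x,
      fun v => hf'.nonneg τ ⟨hτ.1.le, hτ.2.trans_lt hT₂T⟩ x v,
      fun N v => hC1 N τ ⟨hτ.1.le, hτ.2⟩ x v⟩
  obtain ⟨Cn, hCn, hnear⟩ := lbh_near (d := d) C1 p hα0 hα2 L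
  have hreg2 := reg_shift hf' ht₁ ht₁T
  choose C3 hC3 using hreg2 (T₂ - t₁) (by linarith)
  set Cm : ℕ → ℝ := fun N => max (C1 N) (C3 N) with hCm
  set Cl : ℕ → ℝ := fun N => max (Cn N) (2 * 3 ^ N * Cm N) with hCl
  have hmono : ∀ N, C1 N ≤ Cl N := fun N => (hCn N).trans (le_max_left _ _)
  have lbh1 : ∀ τ ∈ Ioc 0 T₂, ∀ x, LBH α' 1 Cl (f τ x) := by
    intro τ hτ x
    rcases le_or_gt τ t₁ with h | h
    · have h3 := hnear (f τ x) (fb1 τ hτ x) (hreg τ ⟨hτ.1.le, h⟩ x)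
      intro N u v huv
      refine (h3 N u v huv).trans ?_
      exact mul_le_mul_of_nonneg_right (mul_le_mul_of_nonneg_left (le_max_left _ _) zero_le_one)
        (Real.rpow_nonneg (len_nonneg _) _)
    · have fbm : FB Cm (f τ x) := FB_mono (fb1 τ hτ x) fun N => le_max_left _ _
      have e1 : t₁ + (τ - t₁) = τ := by ring
      have h3 := lbh_of (κ := 0) (t := 1) (α := α') fbm one_pos (fun N v => by
        have h4 := hC3 N (τ - t₁) ⟨by linarith, by linarith [hτ.2]⟩ x v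
        simp only [e1] at h4
        rw [Real.rpow_zero, one_mul]
        exact h4.trans (le_max_right _ _)) hα0.le hα3
      rw [Real.one_rpow] at h3
      intro N u v huv
      refine (h3 N u v huv).trans ?_
      exact mul_le_mul_of_nonneg_right (mul_le_mul_of_nonneg_left (le_max_right _ _) zero_le_one)
        (Real.rpow_nonneg (len_nonneg _) _)
  obtain ⟨K, hK, hfib⟩ := fib_boundH H h0 hα1 hα3 Cl
  have key : ∀ τ ∈ Ioc 0 T₂, ∀ x,
      ∫ v, (boltzQ γ b (f τ (x + z)) v - boltzQ γ b (f τ x) v) *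
        sj (fun u => f τ (x + z) u - f τ x u) v ≤
        2 * K * N2 fun u => f τ (x + z) u - f τ x u := by
    intro τ hτ x
    refine (hfib 1 zero_le_one (f τ (x + z)) (f τ x) (FB_mono (fb1 τ hτ (x + z)) hmono)
      (FB_mono (fb1 τ hτ x) hmono) (lbh1 τ hτ x)).trans (le_of_eq ?_)
    ring
  have hNT := NT_zero hg' hf' (K := 2 * K) (by linarith) hT₂0 hT₂T hz
    (fun r t' hr' hrt htt => tim_le hg' hf' hr' hrt (htt.trans_lt hT₂T)
      fun τ hτ x => key τ ⟨hτ.1, hτ.2.trans htt⟩ x) t₀ ⟨ht₀.1, le_max_left _ _⟩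
  exact eq_of_NT hg' hf' ht₀ hNT

end Pool.Agent.H48.PR
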