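import Pool.Agent.H48.PR.HolD
import Pool.Agent.H48.PR.ThmL
import Pool.Agent.H48.PR.UniF

/-!
# Module DatF: plane symmetric data without a regularity assumption on the solution
-/

set_option autoImplicit false

open MeasureTheory Set Filter Topology Pool.Agent.H25.Kin Pool.Agent.H48.PL Pool.Agent.H48.PD
open Pool.Agent.H25.PN Pool.Agent.H82.CM

namespace Pool.Agent.H48.PR

variable {d : ℕ} {γ s C Ca cb : ℝ} {b : ℝ → ℝ}

theorem sym_of_hol (HL : HypL d γ s b C Ca cb) (h0 : 0 ≤ γ) (hs : 2 * s < 1) {ν : Vec d} {T : ℝ}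
    {f : ℝ → Vec d → Vec d → ℝ} (hf : IsBoltzmannSol γ b T f) (h : PlaneData s ν (f 0)) :
    PlaneSym ν T f := by
  obtain ⟨hsym, hpos, α, hα, hα1, hh⟩ := h
  intro t ht x y v hxy
  have hT : 0 < T := lt_of_le_of_lt ht.1 ht.2
  have hs0 := HL.H.hs
  set z : Vec d := y - x with hz
  have hdz : ∀ x' : Vec d, dot ν (x' + z) = dot ν x' := by
    intro x'
    have e : dot ν z = 0 := by
      rw [hz, dot_sub, hxy, sub_self]
    rw [dot_add, e, add_zero]
  have hα' : 2 * s < (2 * s + α) / 2 := by linarith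
  have hα'' : (2 * s + α) / 2 < α := by linarith
  obtain ⟨C₀, hC₀⟩ := hol_data (fun x v => hf.nonneg 0 ⟨le_rfl, hT⟩ x v)
    (fun N => by
      obtain ⟨B, hB⟩ := hf.decay 0 hT N
      exact ⟨B, fun x v => hB 0 ⟨le_rfl, le_rfl⟩ x v⟩) (by linarith) hα'' hh (d + 10)
  obtain ⟨t₁, ht₁, ht₁T, L, hL⟩ := thmL HL h0 hs hα' (by linarith) (le_refl (d + 10)) hf hT hpos hC₀
  have key := uniq_self HL.H h0 hα' (by linarith) hf ht₁ ht₁T hL (z := z)
    (fun x' v' => hsym _ _ _ (hdz x'))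
  rw [← key t ht x v, hz, add_sub_cancel]

end Pool.Agent.H48.PR
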