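import Pool.Agent.H48.PR.AngK

/-!
# Module IntR: the remainder, integrated

The inner integral is `≤ W_{p+2}(v) (A₁ (1+|m|²) + A₂)` (`ang_min`, `ang_one`, `lintegral_add`; a.e. `m ≠ 0`). `len m^γ (1+|m|²) ≤ (1+|m|²)² ≤ 4 (1+|v|²)²(1+|z|²)²`, `z = v-m` (`|m|² ≤ 2|v|²+2|z|²`), `W_p(z)(1+|z|²)² = W_{p-2}(z)` is integrable
(`2(p-2) ≥ d+1`; `(1+‖z‖)² ≤ 2(1+nsq z)`, `wt`), and `W_{p+2}(v)(1+|v|²)² = W_p(v)`.
-/

set_option autoImplicit false

open MeasureTheory Set Filter Topology Pool.Agent.H25.Kin Pool.Agent.H48.PL Pool.Agent.H48.PD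
open Pool.Agent.H82.BK Pool.Agent.H82.CM
open scoped ENNReal

namespace Pool.Agent.H48.PR

variable {d : ℕ} {γ s C Ca : ℝ} {b : ℝ → ℝ}

private lemma IntR_Kn (H : Hyp d γ s b C Ca) (ε : ℝ) : Measurable (Kn d γ (bt b ε)) := by
  have hbt : Measurable (bt b ε) := measurable_bt H.bm ε
  unfold Kn
  have h1 : Measurable fun c : ℝ => c ^ (-2 - γ) := measurable_id.pow_const _
  have h2 : Measurable fun c : ℝ => bt b ε (2 * c ^ 2 - 1) := hbt.comp (by fun_prop)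
  exact (measurable_const.mul h1).mul h2

private lemma IntR_pair (m : Vec d) : Measurable fun σ : Vec d => ((m, σ) : Vec d × Vec d) :=
  measurable_const.prodMk measurable_id

private lemma IntR_hh (m : Vec d) : Measurable fun σ : Vec d => hh σ m := by
  have h1 : Measurable fun q : Vec d × Vec d => hh q.2 q.1 := measurable_hh
  have h2 := h1.comp (IntR_pair m)
  exact h2

private lemma IntR_co (m : Vec d) : Measurable fun σ : Vec d => co m σ := by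
  have h1 : Measurable fun q : Vec d × Vec d => co q.1 q.2 := measurable_co
  have h2 := h1.comp (IntR_pair m)
  exact h2

private lemma IntR_meas (H : Hyp d γ s b C Ca) (ε α : ℝ) (m : Vec d) :
    Measurable fun σ : Vec d => Kn d γ (bt b ε) (co m σ) * min 1 (len (hh σ m)) ^ α := by
  have h4 : Measurable fun σ : Vec d => len (hh σ m) := continuous_len.measurable.comp (IntR_hh m)
  have h5 : Measurable fun σ : Vec d => min 1 (len (hh σ m)) := measurable_const.min h4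
  have h6 : Measurable fun σ : Vec d => Kn d γ (bt b ε) (co m σ) := (IntR_Kn H ε).comp (IntR_co m)
  exact h6.mul (h5.pow_const α)

private lemma IntR_inner (H : Hyp d γ s b C Ca) {ε α A₁ A₂ P : ℝ} (hP : 0 ≤ P) (hA1 : 0 ≤ A₁)
    (hA2 : 0 ≤ A₂) (m : Vec d)
    (h1 : m ≠ 0 → ∫⁻ σ in {σ : Vec d | 0 < dot m σ}, ENNReal.ofReal
      (Kn d γ (bt b ε) (co m σ) * min 1 (len (hh σ m)) ^ α) ∂(surf d) ≤
      ENNReal.ofReal (A₁ * (1 + nsq m)))
    (h2 : m ≠ 0 → ∫⁻ σ in {σ : Vec d | 0 < dot m σ}, ENNReal.ofReal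
      (Kn d γ (bt b ε) (co m σ) * (1 - co m σ ^ ((d : ℝ) + γ))) ∂(surf d) ≤ ENNReal.ofReal A₂) :
    ∫⁻ σ in {σ : Vec d | 0 < dot m σ}, ENNReal.ofReal (Kn d γ (bt b ε) (co m σ) *
        (P * (min 1 (len (hh σ m)) ^ α + (1 - co m σ ^ ((d : ℝ) + γ))))) ∂(surf d) ≤
      ENNReal.ofReal (P * (A₁ * (1 + nsq m) + A₂)) := by
  rcases eq_or_ne m 0 with rfl | hm
  · have h3 : {σ : Vec d | 0 < dot (0 : Vec d) σ} = ∅ := by
      ext σ
      simp [dot]
    rw [h3, Measure.restrict_empty, lintegral_zero_measure]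
    exact bot_le
  have hn := sq_nonneg' m
  have h3 : ∀ σ : Vec d, ENNReal.ofReal (Kn d γ (bt b ε) (co m σ) *
        (P * (min 1 (len (hh σ m)) ^ α + (1 - co m σ ^ ((d : ℝ) + γ))))) ≤
      ENNReal.ofReal P * (ENNReal.ofReal
        (Kn d γ (bt b ε) (co m σ) * min 1 (len (hh σ m)) ^ α) + ENNReal.ofReal
        (Kn d γ (bt b ε) (co m σ) * (1 - co m σ ^ ((d : ℝ) + γ)))) := by
    intro σ
    have e1 : Kn d γ (bt b ε) (co m σ) *
        (P * (min 1 (len (hh σ m)) ^ α + (1 - co m σ ^ ((d : ℝ) + γ)))) =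
        P * (Kn d γ (bt b ε) (co m σ) * min 1 (len (hh σ m)) ^ α +
          Kn d γ (bt b ε) (co m σ) * (1 - co m σ ^ ((d : ℝ) + γ))) := by ring
    rw [e1, ENNReal.ofReal_mul hP]
    gcongr
    exact ENNReal.ofReal_add_le
  refine (lintegral_mono h3).trans ?_
  rw [lintegral_const_mul' _ _ ENNReal.ofReal_ne_top,
    lintegral_add_left (IntR_meas H ε α m).ennreal_ofReal, ENNReal.ofReal_mul hP,
    ENNReal.ofReal_add (by positivity) hA2]
  gcongr
  · exact h1 hm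
  · exact h2 hm

private lemma IntR_len {γ : ℝ} (h0 : 0 ≤ γ) (h2 : γ ≤ 2) (m : Vec d) : len m ^ γ ≤ 1 + nsq m := by
  have hl := len_nonneg m
  have hn := sq_nonneg' m
  rcases le_total (len m) 1 with h | h
  · have := Real.rpow_le_one hl h h0
    linarith
  · have h3 : len m ^ γ ≤ len m ^ (2 : ℝ) := Real.rpow_le_rpow_of_exponent_le h h2
    rw [Real.rpow_two, len_sq] at h3
    linarith

private lemma IntR_nsq (v m : Vec d) : 1 + nsq m ≤ 2 * ((1 + nsq v) * (1 + nsq (v - m))) := by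
  have h1 := sq_nonneg' v
  have h2 := sq_nonneg' (v - m)
  have h3 : nsq m ≤ 2 * nsq v + 2 * nsq (v - m) := by
    unfold nsq
    rw [Finset.mul_sum, Finset.mul_sum, ← Finset.sum_add_distrib]
    refine Finset.sum_le_sum fun i _ => ?_
    rw [Pi.sub_apply]
    nlinarith [sq_nonneg (2 * v i - m i)]
  nlinarith [mul_nonneg h1 h2]

private lemma IntR_W (p : ℕ) (v : Vec d) : Wp (p + 2) v * (1 + nsq v) ^ 2 = Wp p v := by
  have h := sq_nonneg' v
  have h1 : (1 + nsq v) ≠ 0 := by positivity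
  unfold Wp
  rw [pow_add, mul_inv, mul_assoc, inv_mul_cancel₀ (pow_ne_zero _ h1), mul_one]

private lemma IntR_wt {q : ℕ} (hq : d + 1 ≤ 2 * q) (z : Vec d) : Wp q z ≤ 2 ^ q * wt d z := by
  have h := sq_nonneg' z
  have h1 := one_le_w z
  have h2 : (1 + ‖z‖) ^ (d + 1) ≤ 2 ^ q * (1 + nsq z) ^ q := by
    calc (1 + ‖z‖) ^ (d + 1) ≤ (1 + ‖z‖) ^ (2 * q) := pow_le_pow_right₀ h1 hq
      _ = ((1 + ‖z‖) ^ 2) ^ q := pow_mul _ _ _
      _ ≤ (2 * (1 + nsq z)) ^ q := pow_le_pow_left₀ (by positivity) (norm_le_nsq z) q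
      _ = 2 ^ q * (1 + nsq z) ^ q := mul_pow _ _ _
  unfold Wp wt
  have h3 : 0 < (1 + nsq z) ^ q := by positivity
  have h4 : 0 < (1 + ‖z‖) ^ (d + 1) := by positivity
  rw [← div_eq_mul_inv, inv_eq_one_div, div_le_div_iff₀ h3 h4, one_mul]
  exact h2

theorem intR (H : Hyp d γ s b C Ca) (h0 : 0 ≤ γ) {α : ℝ} (h1 : 2 * s < α) (h2 : α ≤ 1) {p : ℕ}
    (hp : d + 10 ≤ p) : ∃ K : ℝ, 0 ≤ K ∧ ∀ v : Vec d, ∀ ε : ℝ, 0 < ε →
    ∫⁻ m, ENNReal.ofReal (len m ^ γ * Wp p (v - m)) *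
      ∫⁻ σ in {σ : Vec d | 0 < dot m σ}, ENNReal.ofReal (Kn d γ (bt b ε) (co m σ) *
        (Wp (p + 2) v * (min 1 (len (hh σ m)) ^ α + (1 - co m σ ^ ((d : ℝ) + γ))))) ∂(surf d) ≤
      ENNReal.ofReal (K * Wp p v) := by
  obtain ⟨A₁, hA1, g1⟩ := ang_min H h1 h2
  obtain ⟨A₂, hA2, g2⟩ := ang_one H h0
  obtain ⟨q, rfl⟩ : ∃ q, p = q + 2 := ⟨p - 2, by omega⟩
  have hI : 0 ≤ ∫ z : Vec d, wt d z := integral_nonneg wt_nonneg
  refine ⟨4 * (A₁ + A₂) * 2 ^ q * ∫ z : Vec d, wt d z, by positivity, fun v ε hε => ?_⟩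
  have key : ∀ m : Vec d, ENNReal.ofReal (len m ^ γ * Wp (q + 2) (v - m)) *
      ∫⁻ σ in {σ : Vec d | 0 < dot m σ}, ENNReal.ofReal (Kn d γ (bt b ε) (co m σ) *
        (Wp (q + 2 + 2) v * (min 1 (len (hh σ m)) ^ α + (1 - co m σ ^ ((d : ℝ) + γ))))) ∂(surf d) ≤
      ENNReal.ofReal (4 * (A₁ + A₂) * 2 ^ q * Wp (q + 2) v * wt d (v - m)) := by
    intro m
    have hW := (Wp_pos (q + 2 + 2) v).le
    have h3 := IntR_inner (ε := ε) (α := α) H hW hA1 hA2 m (g1 ε hε m) (g2 ε hε m)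
    refine (mul_le_mul_right h3 _).trans ?_
    have hl : 0 ≤ len m ^ γ := Real.rpow_nonneg (len_nonneg m) _
    have hWz := (Wp_pos (q + 2) (v - m)).le
    rw [← ENNReal.ofReal_mul (mul_nonneg hl hWz)]
    refine ENNReal.ofReal_le_ofReal ?_
    have hm := sq_nonneg' m
    have hv := sq_nonneg' v
    have hz := sq_nonneg' (v - m)
    have e1 : len m ^ γ * (A₁ * (1 + nsq m) + A₂) ≤ (A₁ + A₂) * (1 + nsq m) ^ 2 := by
      have h4 := IntR_len h0 H.g2 m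
      have h5 : A₁ * (1 + nsq m) + A₂ ≤ (A₁ + A₂) * (1 + nsq m) := by nlinarith
      calc len m ^ γ * (A₁ * (1 + nsq m) + A₂) ≤ (1 + nsq m) * ((A₁ + A₂) * (1 + nsq m)) :=
            mul_le_mul h4 h5 (by positivity) (by positivity)
        _ = _ := by ring
    have e2 : (1 + nsq m) ^ 2 ≤ 4 * ((1 + nsq v) ^ 2 * (1 + nsq (v - m)) ^ 2) := by
      have := pow_le_pow_left₀ (by positivity) (IntR_nsq v m) 2
      calc (1 + nsq m) ^ 2 ≤ (2 * ((1 + nsq v) * (1 + nsq (v - m)))) ^ 2 := this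
        _ = _ := by ring
    have e3 : len m ^ γ * (A₁ * (1 + nsq m) + A₂) ≤
        (A₁ + A₂) * (4 * ((1 + nsq v) ^ 2 * (1 + nsq (v - m)) ^ 2)) :=
      e1.trans (mul_le_mul_of_nonneg_left e2 (by positivity))
    have e4 := IntR_W (q + 2) v
    have e5 := IntR_W q (v - m)
    have e6 := IntR_wt (d := d) (q := q) (by omega) (v - m)
    calc len m ^ γ * Wp (q + 2) (v - m) * (Wp (q + 2 + 2) v * (A₁ * (1 + nsq m) + A₂)) =
          Wp (q + 2) (v - m) * Wp (q + 2 + 2) v * (len m ^ γ * (A₁ * (1 + nsq m) + A₂)) := by ring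
      _ ≤ Wp (q + 2) (v - m) * Wp (q + 2 + 2) v *
          ((A₁ + A₂) * (4 * ((1 + nsq v) ^ 2 * (1 + nsq (v - m)) ^ 2))) :=
          mul_le_mul_of_nonneg_left e3 (mul_nonneg hWz hW)
      _ = 4 * (A₁ + A₂) * (Wp (q + 2 + 2) v * (1 + nsq v) ^ 2) *
          (Wp (q + 2) (v - m) * (1 + nsq (v - m)) ^ 2) := by ring
      _ = 4 * (A₁ + A₂) * Wp (q + 2) v * Wp q (v - m) := by rw [e4, e5]
      _ ≤ 4 * (A₁ + A₂) * Wp (q + 2) v * (2 ^ q * wt d (v - m)) := by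
          refine mul_le_mul_of_nonneg_left e6 ?_
          have := (Wp_pos (q + 2) v).le
          positivity
      _ = _ := by ring
  refine (lintegral_mono key).trans ?_
  have hWv := (Wp_pos (q + 2) v).le
  have hc : 0 ≤ 4 * (A₁ + A₂) * 2 ^ q * Wp (q + 2) v := by positivity
  have h5 : ∫⁻ m : Vec d, ENNReal.ofReal (4 * (A₁ + A₂) * 2 ^ q * Wp (q + 2) v * wt d (v - m)) =
      ENNReal.ofReal (4 * (A₁ + A₂) * 2 ^ q * Wp (q + 2) v) *
        ∫⁻ z : Vec d, ENNReal.ofReal (wt d z) := by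
    rw [← lintegral_sub_left_eq_self (fun z : Vec d => ENNReal.ofReal (wt d z)) v,
      ← lintegral_const_mul' _ _ ENNReal.ofReal_ne_top]
    refine lintegral_congr fun m => ?_
    rw [ENNReal.ofReal_mul hc]
  rw [h5, ← ofReal_integral_eq_lintegral_ofReal integrable_wt
    (Eventually.of_forall wt_nonneg), ← ENNReal.ofReal_mul hc]
  refine ENNReal.ofReal_le_ofReal (le_of_eq ?_)
  ring

end Pool.Agent.H48.PR
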