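import Pool.Agent.H48.PR.Defs

/-!
# Module Pt: the pointwise inequality

`z = v - m`, `v' = v + h`, `D = G - F`, `H = min (F z) (G z)`, `D⁺ = G z - H`, `D⁻ = F z - H` (one of them is `0`, both `≤ |D z| ≤ Λ W(z)`):
`G(z)[G(v')-qG(v)] - F(z)[F(v')-qF(v)] = H[D(v')-qD(v)] + D⁺[G(v')-qG(v)] - D⁻[F(v')-qF(v)]`, `D(v') ≤ Λ W(v')`, `D(v) = Λ W(v)`.
* `D⁺[G(v')-qG(v)] = D⁺(G(v')-G(v)) + D⁺ G(v)(1-q)`, `G(v) ≤ K₁ W_{p+2}(v)` (`FB`: `(1+|v|²)^(p+2) ≤ (d+1)^(p+2) (1+‖v‖)^(2p+4)`). If `(z,v') ∈ RS v`: `G(v')-G(v) ≤ Γ min^α (W_{p+2}(v)+W_{p+2}(v'))` and `W_{p+2}(v') ≤ 16^(p+2) W_{p+2}(v)`: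
  with `a = 1+|v|²`, `RS` says: not (`|v'|² < a/4` and `|v'-v|² ≥ a/4`); if `|v'|² ≥ a/4` clear; if `|v'-v|² < a/4`: `|v'| ≥ |v| - √a/2`; for `a ≥ 16/7`: `|v| = √(a-1) ≥ (3/4)√a`, so `|v'|² ≥ a/16`; for `a < 16/7`: `1 ≥ a/16`. In all cases `1+|v'|² ≥ a/16`.
  If `(z,v') ∉ RS v`: `D⁺(G(v')-G(v)) ≤ D⁺ G(v') ≤ Λ W(z) G(v')`.
* `-D⁻[F(v')-qF(v)] = D⁻(F(v)-F(v')) - D⁻F(v)(1-q) ≤ Λ W(z) Γ min^α W_{p+2}(v)`.
-/

set_option autoImplicit false

open MeasureTheory Set Filter Topology Pool.Agent.H25.Kin Pool.Agent.H48.PL Pool.Agent.H48.PD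
open Pool.Agent.H82.BK Pool.Agent.H82.CM

namespace Pool.Agent.H48.PR

variable {d : ℕ}

private lemma pt_sq (v w : Vec d) : nsq v ≤ 3 / 2 * nsq w + 3 * nsq (w - v) := by
  unfold nsq
  rw [Finset.mul_sum, Finset.mul_sum, ← Finset.sum_add_distrib]
  refine Finset.sum_le_sum fun i _ => ?_
  simp only [Pi.sub_apply]
  nlinarith [sq_nonneg (3 * w i - 2 * v i)]

private lemma pt_wp (n : ℕ) {v w : Vec d} (h : (1 + nsq v) / 16 ≤ 1 + nsq w) :
    Wp n w ≤ 16 ^ n * Wp n v := by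
  unfold Wp
  have hv := sq_nonneg' v
  have hw := sq_nonneg' w
  have h1 : ((1 + nsq v) / 16) ^ n ≤ (1 + nsq w) ^ n := pow_le_pow_left₀ (by positivity) h n
  have h2 : 0 < ((1 + nsq v) / 16) ^ n := by positivity
  have h3 : ((1 + nsq w) ^ n)⁻¹ ≤ (((1 + nsq v) / 16) ^ n)⁻¹ := inv_anti₀ h2 h1
  refine h3.trans (le_of_eq ?_)
  rw [div_pow, inv_div]
  rw [div_eq_mul_inv]

private lemma pt_rs (n : ℕ) {z v w : Vec d} (h : (z, w) ∈ RS v) : Wp n w ≤ 16 ^ n * Wp n v := by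
  apply pt_wp
  have hv := sq_nonneg' v
  have hw := sq_nonneg' w
  have h1 := h.1
  simp only at h1
  by_cases h2 : nsq w < (1 + nsq v) / 4
  · have h3 : nsq (w - v) < (1 + nsq v) / 4 := by
      by_contra h4
      exact h1 ⟨h2, not_lt.1 h4⟩
    have h5 := pt_sq v w
    linarith
  · have h3 := not_lt.1 h2
    linarith

private lemma pt_fb {Cl : ℕ → ℝ} {p : ℕ} {G : Vec d → ℝ} (hG : FB Cl G) (v : Vec d) :
    G v ≤ ((d + 1 : ℝ) ^ (p + 2) * max 0 (Cl (2 * (p + 2)))) * Wp (p + 2) v := by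
  have h0 := sq_nonneg' v
  have h1 : (1 + nsq v) ^ (p + 2) ≤ (d + 1 : ℝ) ^ (p + 2) * (1 + ‖v‖) ^ (2 * (p + 2)) := by
    have h2 := one_add_nsq_le v
    have h3 := pow_le_pow_left₀ (by positivity) h2 (p + 2)
    rwa [mul_pow, ← pow_mul] at h3
  have h4 := hG.le (2 * (p + 2)) v
  have h5 := hG.nonneg v
  have h6 : (1 + nsq v) ^ (p + 2) * G v ≤
      (d + 1 : ℝ) ^ (p + 2) * max 0 (Cl (2 * (p + 2))) := by
    calc (1 + nsq v) ^ (p + 2) * G v
        ≤ ((d + 1 : ℝ) ^ (p + 2) * (1 + ‖v‖) ^ (2 * (p + 2))) * G v :=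
          mul_le_mul_of_nonneg_right h1 h5
      _ = (d + 1 : ℝ) ^ (p + 2) * ((1 + ‖v‖) ^ (2 * (p + 2)) * G v) := by ring
      _ ≤ (d + 1 : ℝ) ^ (p + 2) * max 0 (Cl (2 * (p + 2))) :=
          mul_le_mul_of_nonneg_left (h4.trans (le_max_right _ _)) (by positivity)
  unfold Wp
  rw [← div_eq_mul_inv, le_div_iff₀ (by positivity), mul_comm]
  exact h6

open Classical in
theorem pt_ineq (Cl : ℕ → ℝ) (p : ℕ) : ∃ K : ℝ, 0 ≤ K ∧ ∀ (α Γ Λ : ℝ) (F G : Vec d → ℝ) (v : Vec d),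
    TP Cl p α Γ Λ F G v → ∀ z h : Vec d, ∀ q : ℝ, 0 ≤ q → q ≤ 1 →
    G z * G (v + h) + q * (F z * F v) + min (F z) (G z) * (q * (Λ * Wp p v)) ≤
      F z * F (v + h) + q * (G z * G v) + min (F z) (G z) * (Λ * Wp p (v + h)) +
      (if (z, v + h) ∈ RS v then 0 else Λ * (Wp p z * G (v + h))) +
      Λ * (K * (1 + Γ)) * (Wp p z * (Wp (p + 2) v * (min 1 (len h) ^ α + (1 - q)))) := by
  set K₁ : ℝ := (d + 1 : ℝ) ^ (p + 2) * max 0 (Cl (2 * (p + 2))) with hK1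
  have hK10 : 0 ≤ K₁ := by
    have : 0 ≤ max 0 (Cl (2 * (p + 2))) := le_max_left _ _
    positivity
  refine ⟨K₁ + (2 + 16 ^ (p + 2)), by positivity, ?_⟩
  intro α Γ Λ F G v hT z h q hq0 hq1
  have hF0 := hT.hF.nonneg z
  have hG0 := hT.hG.nonneg z
  have hFv0 := hT.hF.nonneg v
  have hGv0 := hT.hG.nonneg v
  have hGv'0 := hT.hG.nonneg (v + h)
  have hGv : G v ≤ K₁ * Wp (p + 2) v := pt_fb hT.hG v
  have hWz : 0 < Wp p z := Wp_pos p z
  have hW2 : 0 < Wp (p + 2) v := Wp_pos (p + 2) v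
  have hW2' : 0 < Wp (p + 2) (v + h) := Wp_pos (p + 2) (v + h)
  have hΓ := hT.gam
  have hΛ := hT.lam
  have hμ : 0 ≤ min 1 (len h) ^ α :=
    Real.rpow_nonneg (le_min zero_le_one (Real.sqrt_nonneg _)) _
  set μ : ℝ := min 1 (len h) ^ α with hμdef
  have hdz := hT.dif z
  have hdv' := (abs_le.1 (hT.dif (v + h))).2
  have htou := hT.tou
  have hoG := hT.oneG h
  have hoF := hT.oneF h
  rw [← hμdef] at hoG hoF
  set H : ℝ := min (F z) (G z) with hH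
  have hH0 : 0 ≤ H := le_min hF0 hG0
  have hHF : H ≤ F z := min_le_left _ _
  have hHG : H ≤ G z := min_le_right _ _
  -- the two differences
  have hDp : G z - H ≤ Λ * Wp p z := by
    rcases le_total (F z) (G z) with h1 | h1
    · rw [hH, min_eq_left h1]; exact (le_abs_self _).trans hdz
    · rw [hH, min_eq_right h1, sub_self]; positivity
  have hDm : F z - H ≤ Λ * Wp p z := by
    rcases le_total (F z) (G z) with h1 | h1
    · rw [hH, min_eq_left h1, sub_self]; positivity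
    · rw [hH, min_eq_right h1]
      have h2 := (abs_le.1 hdz).1
      linarith
  have hDp0 : 0 ≤ G z - H := sub_nonneg.2 hHG
  have hDm0 : 0 ≤ F z - H := sub_nonneg.2 hHF
  have hΛW : 0 ≤ Λ * Wp p z := by positivity
  -- part H
  have e1 : H * ((G (v + h) - F (v + h)) - q * (G v - F v)) ≤
      H * (Λ * Wp p (v + h) - q * (Λ * Wp p v)) := by
    refine mul_le_mul_of_nonneg_left ?_ hH0
    rw [htou]
    linarith
  -- part minus
  have e2 : (F z - H) * (F v - F (v + h)) ≤ (Λ * Wp p z) * (Γ * μ * Wp (p + 2) v) := by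
    have h1 : (F z - H) * (F v - F (v + h)) ≤ (F z - H) * (Γ * μ * Wp (p + 2) v) :=
      mul_le_mul_of_nonneg_left hoF hDm0
    exact h1.trans (mul_le_mul_of_nonneg_right hDm (by positivity))
  have e3 : 0 ≤ (F z - H) * (F v * (1 - q)) := by
    have : 0 ≤ 1 - q := sub_nonneg.2 hq1
    positivity
  -- part plus
  have e4 : (G z - H) * (G v * (1 - q)) ≤ (Λ * Wp p z) * (K₁ * Wp (p + 2) v * (1 - q)) := by
    have h0 : 0 ≤ 1 - q := sub_nonneg.2 hq1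
    exact mul_le_mul hDp (mul_le_mul_of_nonneg_right hGv h0) (by positivity) hΛW
  have e5 : (G z - H) * (G (v + h) - G v) ≤
      (if (z, v + h) ∈ RS v then 0 else Λ * (Wp p z * G (v + h))) +
        (Λ * Wp p z) * (Γ * μ * ((1 + 16 ^ (p + 2)) * Wp (p + 2) v)) := by
    split_ifs with hR
    · have h1 := pt_rs (p + 2) hR
      have h2 : G (v + h) - G v ≤ Γ * μ * ((1 + 16 ^ (p + 2)) * Wp (p + 2) v) := by
        refine hoG.trans (mul_le_mul_of_nonneg_left ?_ (by positivity))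
        linarith
      rw [zero_add]
      have h3 : (G z - H) * (G (v + h) - G v) ≤
          (G z - H) * (Γ * μ * ((1 + 16 ^ (p + 2)) * Wp (p + 2) v)) :=
        mul_le_mul_of_nonneg_left h2 hDp0
      exact h3.trans (mul_le_mul_of_nonneg_right hDp (by positivity))
    · have h1 : (G z - H) * (G (v + h) - G v) ≤ (G z - H) * G (v + h) :=
        mul_le_mul_of_nonneg_left (by linarith) hDp0
      have h2 : (G z - H) * G (v + h) ≤ Λ * Wp p z * G (v + h) :=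
        mul_le_mul_of_nonneg_right hDp hGv'0
      have h3 : 0 ≤ (Λ * Wp p z) * (Γ * μ * ((1 + 16 ^ (p + 2)) * Wp (p + 2) v)) := by positivity
      have h4 : Λ * Wp p z * G (v + h) = Λ * (Wp p z * G (v + h)) := by ring
      linarith
  -- the constants
  have e6 : (Λ * Wp p z) * (Γ * μ * Wp (p + 2) v) +
      (Λ * Wp p z) * (K₁ * Wp (p + 2) v * (1 - q)) +
      (Λ * Wp p z) * (Γ * μ * ((1 + 16 ^ (p + 2)) * Wp (p + 2) v)) ≤
      Λ * ((K₁ + (2 + 16 ^ (p + 2))) * (1 + Γ)) *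
        (Wp p z * (Wp (p + 2) v * (μ + (1 - q)))) := by
    have h0 : 0 ≤ 1 - q := sub_nonneg.2 hq1
    have h1 : Γ * μ + K₁ * (1 - q) + Γ * μ * (1 + 16 ^ (p + 2)) ≤
        (K₁ + (2 + 16 ^ (p + 2))) * (1 + Γ) * (μ + (1 - q)) := by
      have h2 : (K₁ + (2 + 16 ^ (p + 2))) * (1 + Γ) * (μ + (1 - q)) =
          (Γ * μ + K₁ * (1 - q) + Γ * μ * (1 + 16 ^ (p + 2))) +
          (K₁ * μ + K₁ * Γ * (μ + (1 - q)) + (2 + 16 ^ (p + 2)) * (μ + (1 - q)) +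
            (2 + 16 ^ (p + 2)) * Γ * (1 - q)) := by ring
      rw [h2]
      have h3 : 0 ≤ K₁ * μ + K₁ * Γ * (μ + (1 - q)) + (2 + 16 ^ (p + 2)) * (μ + (1 - q)) +
            (2 + 16 ^ (p + 2)) * Γ * (1 - q) := by positivity
      linarith
    have h4 := mul_le_mul_of_nonneg_left h1
      (by positivity : (0 : ℝ) ≤ Λ * Wp p z * Wp (p + 2) v)
    calc _ = Λ * Wp p z * Wp (p + 2) v * (Γ * μ + K₁ * (1 - q) + Γ * μ * (1 + 16 ^ (p + 2))) := by
          ring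
      _ ≤ _ := h4
      _ = _ := by ring
  have e7 : (G z * (G (v + h) - q * G v)) - (F z * (F (v + h) - q * F v)) =
      H * ((G (v + h) - F (v + h)) - q * (G v - F v)) +
        ((G z - H) * (G (v + h) - G v) + (G z - H) * (G v * (1 - q))) +
        ((F z - H) * (F v - F (v + h)) - (F z - H) * (F v * (1 - q))) := by ring
  have e8 : H * (Λ * Wp p (v + h) - q * (Λ * Wp p v)) =
      H * (Λ * Wp p (v + h)) - H * (q * (Λ * Wp p v)) := by ring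
  have e9 : G z * (G (v + h) - q * G v) - F z * (F (v + h) - q * F v) =
      G z * G (v + h) + q * (F z * F v) - F z * F (v + h) - q * (G z * G v) := by ring
  linarith

end Pool.Agent.H48.PR
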