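import Pool.Agent.H48.PR.Defs
import Pool.Agent.H82.BK.Coll

/-!
# Module Sw: exchange of `w'` and `v'`

`Φ a b = if (a,b) ∈ S then 0 else ofReal (U a * G b)`, measurable. `coll_cv` (H82/BK/Coll) with `β = bt b ε`: the left side is `J = ∫⁻ w ∫⁻ σ ofReal (len^γ bt(cosTh)) Φ (w') (v')`. `σ ↦ -σ` (`(neg_preserving hd).lintegral_comp`, see `fold_neg` in
H82/CM/FoldG, `post (-σ) = post'`, `cosTh (-σ) = -cosTh`): `J = ∫⁻ w ∫⁻ σ ofReal (len^γ bt(-cosTh)) Φ (v') (w')`. `coll_cv` with `β x = bt b ε (-x)` and `Φ' a b = Φ b a`: `= ∫⁻ m ∫⁻ σ ofReal (len^γ Kn(bt(-·))) Φ (v+h) (v-m)`, and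
`U (v+h) * G (v-m)` is factored as in `fold_exc` (all proofs of FoldG can be copied, they are private there; `U = G = g` there).
-/

set_option autoImplicit false

open MeasureTheory Set Filter Topology Pool.Agent.H25.Kin Pool.Agent.H48.PL Pool.Agent.H48.PD
open Pool.Agent.H82.BK Pool.Agent.H82.CM
open scoped ENNReal

namespace Pool.Agent.H48.PR

variable {d : ℕ}

private lemma Sw_post_neg (v w σ : Vec d) : post v w (-σ) = post' v w σ := by
  unfold post post'; rw [smul_neg, ← sub_eq_add_neg]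

private lemma Sw_post'_neg (v w σ : Vec d) : post' v w (-σ) = post v w σ := by
  unfold post post'; rw [smul_neg, sub_neg_eq_add]

private lemma Sw_cosTh_neg (v w σ : Vec d) : cosTh v w (-σ) = -cosTh v w σ := by
  unfold cosTh; rw [neg_dot, neg_div]

/-- the collisional integral -/
private noncomputable def SwJ (γ : ℝ) (v : Vec d) (β : ℝ → ℝ) (Φ : Vec d → Vec d → ℝ≥0∞) :
    ℝ≥0∞ :=
  ∫⁻ w, ∫⁻ σ, ENNReal.ofReal (len (v - w) ^ γ * β (cosTh v w σ)) *
    Φ (post' v w σ) (post v w σ) ∂(surf d)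

private lemma Sw_meas' (γ : ℝ) (v : Vec d) {β : ℝ → ℝ} (hβ : Measurable β)
    {Φ : Vec d → Vec d → ℝ≥0∞} (hΦ : Measurable fun p : Vec d × Vec d => Φ p.1 p.2) (w : Vec d) :
    Measurable fun σ : Vec d =>
      ENNReal.ofReal (len (v - w) ^ γ * β (cosTh v w σ)) * Φ (post' v w σ) (post v w σ) := by
  have h2 : Measurable fun σ : Vec d => ((v, w, σ) : Vec d × Vec d × Vec d) :=
    measurable_const.prodMk (measurable_const.prodMk measurable_id)
  have m2 : Measurable fun σ : Vec d => β (cosTh v w σ) :=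
    hβ.comp ((measurable_cosTh (d := d)).comp h2)
  have m3 : Measurable fun σ : Vec d => post' v w σ := ((continuous_post' (d := d)).measurable).comp h2
  have m4 : Measurable fun σ : Vec d => post v w σ := ((continuous_post (d := d)).measurable).comp h2
  have m5 : Measurable fun σ : Vec d => Φ (post' v w σ) (post v w σ) :=
    Measurable.comp (g := fun p : Vec d × Vec d => Φ p.1 p.2) hΦ (m3.prodMk m4)
  exact (measurable_const.mul m2).ennreal_ofReal.mul m5

/-- exchange `σ ↦ -σ` -/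
private lemma Sw_neg (hd : 1 ≤ d) (γ : ℝ) (v : Vec d) {β : ℝ → ℝ} (hβ : Measurable β)
    {Φ : Vec d → Vec d → ℝ≥0∞} (hΦ : Measurable fun p : Vec d × Vec d => Φ p.1 p.2) :
    SwJ γ v β Φ = SwJ γ v (fun x => β (-x)) (fun a b => Φ b a) := by
  unfold SwJ
  refine lintegral_congr fun w => ?_
  rw [← (neg_preserving hd).lintegral_comp (Sw_meas' γ v hβ hΦ w)]
  refine lintegral_congr fun σ => ?_
  rw [Sw_post_neg, Sw_post'_neg, Sw_cosTh_neg]

/-- the kernel in terms of `c` is nonnegative on the sphere -/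
private lemma Sw_Kn_nonneg {γ : ℝ} {β' : ℝ → ℝ} (h : ∀ x, -1 ≤ x → x ≤ 1 → 0 ≤ β' x) {m σ : Vec d}
    (hσ : nsq σ = 1) (hm : 0 < dot m σ) : 0 ≤ Kn d γ β' (co m σ) := by
  have h1 := co_pos hm
  have h2 := co_le_one (m := m) hσ
  unfold Kn
  refine mul_nonneg (mul_nonneg (by positivity) (Real.rpow_nonneg h1.le _)) (h _ ?_ ?_)
  · nlinarith
  · nlinarith

open Classical in
/-- the function of the pair `(w', v')`, outside `S` -/
private noncomputable def SwP (U G : Vec d → ℝ) (S : Set (Vec d × Vec d)) (a b : Vec d) : ℝ≥0∞ :=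
  if (a, b) ∈ S then 0 else ENNReal.ofReal (U a * G b)

private lemma SwP_meas {U G : Vec d → ℝ} (hU : Measurable U) (hG : Measurable G)
    {S : Set (Vec d × Vec d)} (hS : MeasurableSet S) :
    Measurable fun p : Vec d × Vec d => SwP U G S p.1 p.2 := by
  unfold SwP
  exact Measurable.ite hS measurable_const
    ((hU.comp measurable_fst).mul (hG.comp measurable_snd)).ennreal_ofReal

private lemma SwP_meas2 {U G : Vec d → ℝ} (hU : Measurable U) (hG : Measurable G)
    {S : Set (Vec d × Vec d)} (hS : MeasurableSet S) :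
    Measurable fun p : Vec d × Vec d => SwP U G S p.2 p.1 :=
  (SwP_meas hU hG hS).comp (measurable_snd.prodMk measurable_fst)

private lemma Sw_exc (γ : ℝ) {b : ℝ → ℝ} {C β : ℝ}
    (hC : AngBound b C β) {ε : ℝ} (hε : 0 < ε) {U G : Vec d → ℝ}
    (hU0 : ∀ u, 0 ≤ U u) (hG0 : ∀ u, 0 ≤ G u) (S : Set (Vec d × Vec d)) (v m : Vec d) :
    ∫⁻ σ in {σ : Vec d | 0 < dot m σ},
      ENNReal.ofReal (len m ^ γ * Kn d γ (fun x => bt b ε (-x)) (co m σ)) *
        SwP U G S (v + hh σ m) (v - m) ∂(surf d) =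
      ENNReal.ofReal (len m ^ γ * G (v - m)) * GEg γ b ε U S v m := by
  unfold GEg
  rw [← lintegral_const_mul' _ _ ENNReal.ofReal_ne_top]
  refine lintegral_congr_ae ?_
  filter_upwards [ae_restrict_of_ae surf_ae, ae_restrict_mem (measurableSet_half m)] with σ hσ hm
  have hK := Sw_Kn_nonneg (γ := γ) (β' := fun x => bt b ε (-x))
    (fun x h1 h2 => bt_nonneg hC hε (by linarith) (by linarith)) hσ hm
  have hl := Real.rpow_nonneg (len_nonneg m) γ
  unfold SwP
  by_cases h : (v + hh σ m, v - m) ∈ S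
  · rw [if_pos h, if_pos h, mul_zero, mul_zero]
  · rw [if_neg h, if_neg h, ← ENNReal.ofReal_mul (mul_nonneg hl hK),
      ← ENNReal.ofReal_mul (mul_nonneg hl (hG0 _))]
    congr 1; ring

open Classical in
theorem sw (hd : 2 ≤ d) (γ : ℝ) {b : ℝ → ℝ} (hb : Measurable b) {C β : ℝ} (hC : AngBound b C β)
    {ε : ℝ} (hε : 0 < ε) {U G : Vec d → ℝ} (hU : Measurable U) (hU0 : ∀ u, 0 ≤ U u)
    (hG : Measurable G) (hG0 : ∀ u, 0 ≤ G u) {S : Set (Vec d × Vec d)} (hS : MeasurableSet S)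
    (v : Vec d) :
    ∫⁻ m, ∫⁻ σ in {σ : Vec d | 0 < dot m σ}, ENNReal.ofReal (len m ^ γ * Kn d γ (bt b ε) (co m σ)) *
        (if (v - m, v + hh σ m) ∈ S then 0 else
          ENNReal.ofReal (U (v - m) * G (v + hh σ m))) ∂(surf d) =
      ∫⁻ m, ENNReal.ofReal (len m ^ γ * G (v - m)) * GEg γ b ε U S v m := by
  have hd1 : 1 ≤ d := by omega
  have mbt' : Measurable fun x => bt b ε (-x) := (measurable_bt hb ε).comp measurable_neg
  have h1 := coll_cv hd γ (measurable_bt hb ε) (SwP_meas hU hG hS) v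
  have h2 := coll_cv hd γ mbt' (Φ := fun a b => SwP U G S b a) (SwP_meas2 hU hG hS) v
  have h3 := Sw_neg hd1 γ v (measurable_bt hb ε) (SwP_meas hU hG hS)
  have h4 : (∫⁻ m, ∫⁻ σ in {σ : Vec d | 0 < dot m σ},
      ENNReal.ofReal (len m ^ γ * Kn d γ (bt b ε) (co m σ)) *
        SwP U G S (v - m) (v + hh σ m) ∂(surf d)) =
      ∫⁻ m, ∫⁻ σ in {σ : Vec d | 0 < dot m σ},
      ENNReal.ofReal (len m ^ γ * Kn d γ (fun x => bt b ε (-x)) (co m σ)) *
        SwP U G S (v + hh σ m) (v - m) ∂(surf d) := by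
    rw [← h1, ← h2]
    exact h3
  exact h4.trans (lintegral_congr fun m => Sw_exc γ hC hε hU0 hG0 S v m)

end Pool.Agent.H48.PR
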