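import Pool.Agent.H48.PD.Itg
import Pool.Agent.H71.PD.Defs
import Pool.Agent.H82.CM.ExcG
import Pool.Agent.H82.CM.CombG

/-!
# Short time Hoelder regularity of classical solutions (MP_c15324_an): definitions

THEOREM L. `0 ≤ γ`, `2s < 1`, `γ + 2s ≤ 2`, `2s < α ≤ 1`, `p ≥ d + 10`. Let `f` be ANY classical solution on `[0,T)`, without vacuum at `t = 0`, whose initial value satisfies
`|f(0,x+ξ,v+η) - f(0,x,v)| ≤ C₀ (|ξ|²+|η|²)^(α/2) ⟨v⟩^(-2p)` for `|η| ≤ 1`. Then there are `t₁ > 0`, `L` with `|f(t,x,v+η) - f(t,x,v)| ≤ L |η|^α ⟨v⟩^(-2p)` for `t ≤ t₁`, `|η| ≤ 1`.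

PROOF (doubling of the variables with Galilean shifts). `Ph(t,x,v;ξ,η) = f(t,x+ξ+tη,v+η) - f(t,x,v)`, barrier `L₀ (1+t/t₁) om W`, `om = (δ²+|ξ|²+|η|²)^(α/2)`, `W = ⟨v⟩^(-2p)`.
If `|Ph| < barrier` fails on `[0,t₁]`, there is a first touching point `(t₀,x₀,v₀,ξ₀,η₀)` (module Cpt); `|ξ₀|²+|η₀|² < r₀²` since `L₀ r₀^α` is large. With `G = f(t₀,x₀+ξ₀+t₀η₀,·+η₀)`, `F = f(t₀,x₀,·)`
(exchanged if the sign is negative): `|G-F| ≤ Λ W`, `(G-F)(v₀) = Λ W(v₀)`, `Λ = L om`. Comparing with the neighbouring shifts gives ONE SIDED Hoelder bounds of `G` (from above) and `F` (from below) at `v₀`, uniformly in `δ`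
(structure `TP`, module One). The derivative along the characteristic is `Q(G)(v₀) - Q(F)(v₀) ≥ (L₀/t₁) om W(v₀)` (module Gal).
OPERATOR INEQUALITY (modules Pt, IntH, IntR, CutP): `Q(G)(v₀) - Q(F)(v₀) ≤ K (1+Γ) Λ W(v₀)`. With `H = min(F,G)`, `D = G-F = D⁺-D⁻`, `G = H+D⁺`, `F = H+D⁻`, outer velocity `z = v-m` (`= w'`), inner velocity `v' = v+h`:
`G(z)[G(v')-qG(v)] - F(z)[F(v')-qF(v)] = H(z)[D(v')-qD(v)] + D⁺(z)[G(v')-qG(v)] - D⁻(z)[F(v')-qF(v)]`, `q = c^(d+γ)`: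
* `H`-part: `≤ Λ H(z)[W(v')-qW(v)]`: dissipative for slow `z` (slow_boundg), harmless otherwise (decay of `H`);
* `D⁺`, `D⁻` parts: `≤ Λ W(z) Γ min(1,|h|)^α ...` by the one sided bounds, except for pairs with slow `v'` (outside `RS v`), where `D⁺(z) G(v') ≤ Λ W(z) G(v')` is exchanged (`σ → -σ`) and absorbed by the slack of the
  Povzner inequality (slow_boundg), since `G = H + D⁺` and the mass of `D⁺` is small (`|ξ₀|, |η₀| ≤ r₀`).
Choosing `t₁` small gives a contradiction. `δ → 0`.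
-/

set_option autoImplicit false

open MeasureTheory Set Filter Topology Pool.Agent.H25.Kin Pool.Agent.H48.PL Pool.Agent.H48.PD
open Pool.Agent.H82.BK Pool.Agent.H82.CM

namespace Pool.Agent.H48.PR

variable {d : ℕ}

/-- the weight `(1+|v|²)^(-p)` -/
noncomputable def Wp (p : ℕ) (v : Vec d) : ℝ := ((1 + nsq v) ^ p)⁻¹

/-- pairs `(w', v')` outside the exceptional region -/
def RS (v : Vec d) : Set (Vec d × Vec d) := RegS (1 / 4) 1 v

/-- a touching point `v` of two functions with difference `D = G - F`, `|D| ≤ Λ W`, `D(v) = Λ W(v)`, with one sided Hoelder bounds of exponent `α` and constant `Γ` -/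
structure TP (Cl : ℕ → ℝ) (p : ℕ) (α Γ Λ : ℝ) (F G : Vec d → ℝ) (v : Vec d) : Prop where
  hF : FB Cl F
  hG : FB Cl G
  gam : 0 ≤ Γ
  lam : 0 ≤ Λ
  dif : ∀ u, |G u - F u| ≤ Λ * Wp p u
  tou : G v - F v = Λ * Wp p v
  oneG : ∀ h, G (v + h) - G v ≤ Γ * min 1 (len h) ^ α * (Wp (p + 2) v + Wp (p + 2) (v + h))
  oneF : ∀ h, F v - F (v + h) ≤ Γ * min 1 (len h) ^ α * Wp (p + 2) v

/-- the difference along a Galilean shift -/
def Ph (f : ℝ → Vec d → Vec d → ℝ) (t : ℝ) (x v ξ η : Vec d) : ℝ :=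
  f t (x + ξ + t • η) (v + η) - f t x v

/-- the modulus `(δ²+|ξ|²+|η|²)^(α/2)` -/
noncomputable def om (δ α : ℝ) (ξ η : Vec d) : ℝ := (δ ^ 2 + nsq ξ + nsq η) ^ (α / 2)

lemma Wp_pos (p : ℕ) (v : Vec d) : 0 < Wp p v := by
  unfold Wp
  have := sq_nonneg' v
  positivity

lemma Wp_le_one (p : ℕ) (v : Vec d) : Wp p v ≤ 1 := by
  unfold Wp
  exact inv_le_one_of_one_le₀ (one_le_pow₀ (by linarith [sq_nonneg' v]))

lemma Wp_mul (p : ℕ) (v : Vec d) : Wp p v * (1 + nsq v) ^ p = 1 := by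
  unfold Wp
  have := sq_nonneg' v
  exact inv_mul_cancel₀ (by positivity)

lemma Wp_cont (p : ℕ) : Continuous (Wp p : Vec d → ℝ) := by
  unfold Wp
  refine Continuous.inv₀ ((continuous_const.add continuous_sq).pow p) fun v => ?_
  have := sq_nonneg' v
  positivity

lemma om_pos {δ α : ℝ} (hδ : 0 < δ) (ξ η : Vec d) : 0 < om δ α ξ η := by
  unfold om
  have h1 := sq_nonneg' ξ
  have h2 := sq_nonneg' η
  exact Real.rpow_pos_of_pos (by positivity) _

lemma measurableSet_RS (v : Vec d) : MeasurableSet (RS v) := measurableSet_RegS _ _ v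

end Pool.Agent.H48.PR
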