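import Pool.Agent.H48.PR.Defs

/-!
# Module LbhN: Hoelder bounds with all weights

`|g(v+η)-g(v)| ≤ L (len η)^α Wp p v` for `len η ≤ 1` and `FB Cl g` give `LBH α' 1 Cl' g`, `α' < α`: for `len (u-v) ≤ 2` put `w = (u+v)/2`: two steps of length `≤ 1` (`len (w-v) = len (u-v)/2`), so `|g v - g u| ≤ 2 |L| (len (u-v))^α` (`Wp ≤ 1`), and
`|g v - g u| ≤ 2·3^q Cl q (1+‖v‖)^(-q)` (`g ≥ 0`, `1+‖v‖ ≤ 3(1+‖u‖)`). Geometric mean with `θ = α'/α ∈ (0,1)`, `min(A,B) ≤ A^θ B^(1-θ)`: `(1+‖v‖)^N |g v - g u| ≤ (2|L|)^θ (len (u-v))^(α') (2·3^q Cl q)^(1-θ)` with `q` natural, `q (1-θ) ≥ N`. `Cl' N` is the maximum of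
`Cl N` and this constant (`Cl q` replaced by `|Cl q|`); it depends on `Cl, L, α, α', N` only.
-/

set_option autoImplicit false

open MeasureTheory Set Filter Topology Pool.Agent.H25.Kin Pool.Agent.H48.PL Pool.Agent.H48.PD
open Pool.Agent.H71.PD

namespace Pool.Agent.H48.PR

variable {d : ℕ} {γ s C Ca : ℝ} {b : ℝ → ℝ}

theorem lbh_near (Cl : ℕ → ℝ) (p : ℕ) {α α' : ℝ} (h0 : 0 < α') (h1 : α' < α) (L : ℝ) :
    ∃ Cl' : ℕ → ℝ, (∀ N, Cl N ≤ Cl' N) ∧ ∀ g : Vec d → ℝ, FB Cl g →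
      (∀ v η : Vec d, len η ≤ 1 → |g (v + η) - g v| ≤ L * len η ^ α * Wp p v) →
      LBH α' 1 Cl' g := by
  have hα : 0 < α := h0.trans h1
  have hθ0 : 0 < α' / α := div_pos h0 hα
  have hθ1 : 0 < 1 - α' / α := by
    rw [sub_pos, div_lt_one hα]
    exact h1
  have hθα : α * (α' / α) = α' := by
    rw [mul_div_assoc', mul_div_cancel_left₀ _ hα.ne']
  have hq : ∀ N : ℕ, ∃ q : ℕ, (N : ℝ) ≤ (q : ℝ) * (1 - α' / α) := by
    intro N
    obtain ⟨q, hq⟩ := exists_nat_ge ((N : ℝ) / (1 - α' / α))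
    exact ⟨q, (div_le_iff₀ hθ1).1 hq⟩
  choose q hq using hq
  refine ⟨fun N => max (Cl N)
    ((2 * |L|) ^ (α' / α) * (2 * 3 ^ q N * |Cl (q N)|) ^ (1 - α' / α)),
    fun N => le_max_left _ _, fun g hg hL N u v huv => ?_⟩
  have hr : 0 ≤ len (u - v) := len_nonneg _
  have hhalf : len ((1 / 2 : ℝ) • (u - v)) = 1 / 2 * len (u - v) :=
    len_smul (by norm_num) _
  have hle : len ((1 / 2 : ℝ) • (u - v)) ≤ 1 := by
    rw [hhalf]
    linarith
  have hstep : ∀ z : Vec d, |g (z + (1 / 2 : ℝ) • (u - v)) - g z| ≤ |L| * len (u - v) ^ α := by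
    intro z
    refine (hL z _ hle).trans ?_
    have h2 : len ((1 / 2 : ℝ) • (u - v)) ^ α ≤ len (u - v) ^ α := by
      refine Real.rpow_le_rpow (len_nonneg _) ?_ hα.le
      rw [hhalf]
      linarith
    have h3 : 0 ≤ len ((1 / 2 : ℝ) • (u - v)) ^ α := Real.rpow_nonneg (len_nonneg _) _
    calc L * len ((1 / 2 : ℝ) • (u - v)) ^ α * Wp p z
        ≤ |L| * len ((1 / 2 : ℝ) • (u - v)) ^ α * 1 := by
          refine mul_le_mul (mul_le_mul_of_nonneg_right (le_abs_self L) h3) (Wp_le_one p z)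
            (Wp_pos p z).le (mul_nonneg (abs_nonneg L) h3)
      _ ≤ |L| * len (u - v) ^ α := by
          rw [mul_one]
          exact mul_le_mul_of_nonneg_left h2 (abs_nonneg L)
  have hu : v + (1 / 2 : ℝ) • (u - v) + (1 / 2 : ℝ) • (u - v) = u := by
    rw [add_assoc, ← add_smul]
    norm_num
  have hA : |g v - g u| ≤ 2 * |L| * len (u - v) ^ α := by
    have h2 := hstep v
    have h3 := hstep (v + (1 / 2 : ℝ) • (u - v))
    rw [hu] at h3
    have h4 := abs_sub_le (g u) (g (v + (1 / 2 : ℝ) • (u - v))) (g v)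
    rw [abs_sub_comm]
    linarith
  have hX : (1 : ℝ) ≤ 1 + ‖v‖ := by linarith [norm_nonneg v]
  have hB : |g v - g u| * (1 + ‖v‖) ^ q N ≤ 2 * 3 ^ q N * |Cl (q N)| := by
    have h2 := (hg.le (q N) v).trans (le_abs_self _)
    have h3 := (hg.le (q N) u).trans (le_abs_self _)
    have h4 : 1 + ‖v‖ ≤ 3 * (1 + ‖u‖) := by
      have h5 : ‖v‖ ≤ ‖u‖ + ‖u - v‖ := by
        have h6 : v = u - (u - v) := by abel
        calc ‖v‖ = ‖u - (u - v)‖ := by rw [← h6]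
          _ ≤ ‖u‖ + ‖u - v‖ := norm_sub_le _ _
      linarith [norm_le_len (u - v), norm_nonneg u]
    have h5 : (1 + ‖v‖) ^ q N ≤ 3 ^ q N * (1 + ‖u‖) ^ q N := by
      rw [← mul_pow]
      exact pow_le_pow_left₀ (by linarith) h4 _
    have h6 : (1 + ‖v‖) ^ q N * g u ≤ 3 ^ q N * |Cl (q N)| := by
      calc (1 + ‖v‖) ^ q N * g u ≤ 3 ^ q N * (1 + ‖u‖) ^ q N * g u :=
            mul_le_mul_of_nonneg_right h5 (hg.nonneg u)
        _ = 3 ^ q N * ((1 + ‖u‖) ^ q N * g u) := by ring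
        _ ≤ 3 ^ q N * |Cl (q N)| := mul_le_mul_of_nonneg_left h3 (by positivity)
    have h7 : (1 : ℝ) ≤ 3 ^ q N := one_le_pow₀ (by norm_num)
    have h8 : |Cl (q N)| ≤ 3 ^ q N * |Cl (q N)| :=
      le_mul_of_one_le_left (abs_nonneg _) h7
    have h9 : |g v - g u| ≤ g v + g u := by
      rw [abs_le]
      constructor <;> linarith [hg.nonneg u, hg.nonneg v]
    have h10 : 0 ≤ (1 + ‖v‖) ^ q N := by positivity
    calc |g v - g u| * (1 + ‖v‖) ^ q N ≤ (g v + g u) * (1 + ‖v‖) ^ q N :=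
          mul_le_mul_of_nonneg_right h9 h10
      _ = (1 + ‖v‖) ^ q N * g v + (1 + ‖v‖) ^ q N * g u := by ring
      _ ≤ 2 * 3 ^ q N * |Cl (q N)| := by linarith
  have hx : 0 ≤ |g v - g u| := abs_nonneg _
  have hsplit : |g v - g u| = |g v - g u| ^ (α' / α) * |g v - g u| ^ (1 - α' / α) := by
    rw [← Real.rpow_add_of_nonneg hx hθ0.le hθ1.le]
    rw [show α' / α + (1 - α' / α) = 1 by ring, Real.rpow_one]
  have hA' : |g v - g u| ^ (α' / α) ≤ (2 * |L|) ^ (α' / α) * len (u - v) ^ α' := by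
    calc |g v - g u| ^ (α' / α) ≤ (2 * |L| * len (u - v) ^ α) ^ (α' / α) :=
          Real.rpow_le_rpow hx hA hθ0.le
      _ = (2 * |L|) ^ (α' / α) * len (u - v) ^ α' := by
          rw [Real.mul_rpow (by positivity) (Real.rpow_nonneg hr _), ← Real.rpow_mul hr, hθα]
  have hB' : (1 + ‖v‖) ^ N * |g v - g u| ^ (1 - α' / α) ≤
      (2 * 3 ^ q N * |Cl (q N)|) ^ (1 - α' / α) := by
    have h2 : (1 + ‖v‖) ^ N ≤ ((1 + ‖v‖) ^ q N) ^ (1 - α' / α) := by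
      rw [← Real.rpow_natCast, ← Real.rpow_natCast, ← Real.rpow_mul (by linarith)]
      exact Real.rpow_le_rpow_of_exponent_le hX (hq N)
    calc (1 + ‖v‖) ^ N * |g v - g u| ^ (1 - α' / α)
        ≤ ((1 + ‖v‖) ^ q N) ^ (1 - α' / α) * |g v - g u| ^ (1 - α' / α) :=
          mul_le_mul_of_nonneg_right h2 (Real.rpow_nonneg hx _)
      _ = (|g v - g u| * (1 + ‖v‖) ^ q N) ^ (1 - α' / α) := by
          rw [Real.mul_rpow hx (by positivity), mul_comm]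
      _ ≤ (2 * 3 ^ q N * |Cl (q N)|) ^ (1 - α' / α) :=
          Real.rpow_le_rpow (by positivity) hB hθ1.le
  have hrα : 0 ≤ len (u - v) ^ α' := Real.rpow_nonneg hr _
  calc (1 + ‖v‖) ^ N * |g v - g u|
      = |g v - g u| ^ (α' / α) * ((1 + ‖v‖) ^ N * |g v - g u| ^ (1 - α' / α)) := by
        conv_lhs => rw [hsplit]
        ring
    _ ≤ (2 * |L|) ^ (α' / α) * len (u - v) ^ α' *
        (2 * 3 ^ q N * |Cl (q N)|) ^ (1 - α' / α) :=
        mul_le_mul hA' hB' (mul_nonneg (by positivity) (Real.rpow_nonneg hx _))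
          (mul_nonneg (Real.rpow_nonneg (by positivity) _) hrα)
    _ = (2 * |L|) ^ (α' / α) * (2 * 3 ^ q N * |Cl (q N)|) ^ (1 - α' / α) *
        len (u - v) ^ α' := by ring
    _ ≤ max (Cl N) ((2 * |L|) ^ (α' / α) * (2 * 3 ^ q N * |Cl (q N)|) ^ (1 - α' / α)) *
        len (u - v) ^ α' := mul_le_mul_of_nonneg_right (le_max_right _ _) hrα
    _ = 1 * max (Cl N) ((2 * |L|) ^ (α' / α) * (2 * 3 ^ q N * |Cl (q N)|) ^ (1 - α' / α)) *
        len (u - v) ^ α' := by rw [one_mul]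

end Pool.Agent.H48.PR
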